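import Mathlib
set_option autoImplicit false
set_option linter.unusedSectionVars false
set_option linter.unusedVariables false
open Filter Topology

namespace Pool.Agent.Helper420.QI.LS


/-- finite dimensionality of the fixed space of a compact operator and the `b`-orthogonal
projection onto it. -/
theorem ls_proj {X : Type*} [NormedAddCommGroup X] [NormedSpace ℝ X] [CompleteSpace X]
    (b : X →L[ℝ] X →L[ℝ] ℝ) (hbp : ∀ x, b x x = 0 → x = 0)
    (K : X →L[ℝ] X) (hKc : IsCompactOperator K)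
    (hKs : ∀ x y, b (K x) y = b x (K y)) :
    ∃ (E : Submodule ℝ X) (_ : FiniteDimensional ℝ E) (R : X →L[ℝ] E),
      (∀ x ∈ E, K x = x) ∧ (IsUnit ((1 : X →L[ℝ] X) - K + E.subtypeL.comp R)) := by
  classical
  set E : Submodule ℝ X := LinearMap.ker ((K - 1 : X →L[ℝ] X) : X →ₗ[ℝ] X) with hE
  have hmem : ∀ x, x ∈ E ↔ K x = x := by
    intro x
    rw [hE, LinearMap.mem_ker]
    simp [sub_eq_zero]
  have hclosed : IsClosed (E : Set X) := (K - 1 : X →L[ℝ] X).isClosed_ker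
  have hfd : FiniteDimensional ℝ E := by
    have hV : ∀ v ∈ E, (K : X →ₗ[ℝ] X) v ∈ E := by
      intro v hv
      have := (hmem v).1 hv
      simpa [this] using hv
    have hKc' : IsCompactOperator ((K : X →ₗ[ℝ] X)) := hKc
    have h1 := hKc'.restrict hV hclosed
    have h2 : ((K : X →ₗ[ℝ] X).restrict hV : E → E) = id := by
      funext v
      apply Subtype.ext
      have := (hmem v).1 v.2
      simpa using this
    rw [h2] at h1
    exact FiniteDimensional.of_isCompactOperator_id h1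
  -- the map `e ↦ b e` on `E`
  let T0 : E →ₗ[ℝ] (E →L[ℝ] ℝ) :=
    { toFun := fun e => (b e).comp E.subtypeL
      map_add' := by intro x y; ext z; simp
      map_smul' := by intro c x; ext z; simp }
  have hT0 : Function.Injective T0 := by
    rw [injective_iff_map_eq_zero]
    intro e he
    have h1 : b (e : X) (e : X) = 0 := by
      have := congrArg (fun f => f e) he
      simpa [T0] using this
    exact Subtype.ext (hbp _ h1)
  have hfr : Module.finrank ℝ E = Module.finrank ℝ (E →L[ℝ] ℝ) := by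
    have e1 : (E →ₗ[ℝ] ℝ) ≃ₗ[ℝ] (E →L[ℝ] ℝ) := LinearMap.toContinuousLinearMap
    rw [← e1.finrank_eq]
    exact (Subspace.dual_finrank_eq (K := ℝ) (V := E)).symm
  have hfd2 : FiniteDimensional ℝ (E →L[ℝ] ℝ) := by
    have e1 : (E →ₗ[ℝ] ℝ) ≃ₗ[ℝ] (E →L[ℝ] ℝ) := LinearMap.toContinuousLinearMap
    exact e1.finiteDimensional
  let Te : E ≃ₗ[ℝ] (E →L[ℝ] ℝ) := LinearMap.linearEquivOfInjective T0 hT0 hfr
  let Tc : E ≃L[ℝ] (E →L[ℝ] ℝ) := Te.toContinuousLinearEquiv
  let S : X →L[ℝ] (E →L[ℝ] ℝ) :=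
    ((ContinuousLinearMap.compL ℝ E X ℝ).flip E.subtypeL).comp b
  let R : X →L[ℝ] E := (Tc.symm : (E →L[ℝ] ℝ) →L[ℝ] E).comp S
  have hR : ∀ (x : X) (e : E), b (R x : X) (e : X) = b x (e : X) := by
    intro x e
    have h1 : Tc (R x) = S x := by
      simp [R]
    have h2 : Tc (R x) = (b (R x : X)).comp E.subtypeL := rfl
    have h3 := congrArg (fun f => f e) (h2.symm.trans h1)
    simpa [S] using h3
  refine ⟨E, hfd, R, fun x hx => (hmem x).1 hx, ?_⟩
  set R' : X →L[ℝ] X := E.subtypeL.comp R with hR'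
  have hproper : LocallyCompactSpace E := by
    have : ProperSpace E := FiniteDimensional.proper ℝ E
    infer_instance
  have hR'c : IsCompactOperator R' := by
    have h1 : IsCompactOperator (E.subtypeL) := isCompactOperator_of_locallyCompactSpace_rng _
    exact h1.comp_clm R
  have hc : IsCompactOperator (K - R') := hKc.sub hR'c
  have hnot : ¬ Module.End.HasEigenvalue ((K - R' : X →L[ℝ] X) : Module.End ℝ X) (1 : ℝ) := by
    intro h
    obtain ⟨φ, hφ⟩ := h.exists_hasEigenvector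
    have h0 : φ ≠ 0 := hφ.2
    have h1 : K φ - R' φ = φ := by
      have := hφ.apply_eq_smul
      simpa using this
    have h2 : ∀ e : E, b (R φ : X) (e : X) = 0 := by
      intro e
      have h3 : b φ (e : X) = b (K φ) e - b (R' φ) e := by
        conv_lhs => rw [← h1]
        simp
      have h4 : b (K φ) (e : X) = b φ (e : X) := by
        rw [hKs, (hmem e).1 e.2]
      have h5 : b (R' φ) (e : X) = b φ e := hR φ e
      have h6 : b φ (e : X) = 0 := by
        rw [h4, h5] at h3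
        linarith
      rw [hR φ e, h6]
    have h7 : R φ = 0 := Subtype.ext (hbp _ (h2 (R φ)))
    have h8 : R' φ = 0 := by simp [hR', h7]
    have h9 : K φ = φ := by simpa [h8] using h1
    have h10 : φ ∈ E := (hmem φ).2 h9
    have h11 : b φ φ = 0 := by
      have := hR φ ⟨φ, h10⟩
      rw [h7] at this
      simpa using this.symm
    exact h0 (hbp _ h11)
  have hres := (hc.hasEigenvalue_or_mem_resolventSet (one_ne_zero (α := ℝ))).resolve_left hnot
  rw [spectrum.mem_resolventSet_iff] at hres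
  have : (algebraMap ℝ (X →L[ℝ] X) 1 - (K - R')) = 1 - K + R' := by
    simp only [map_one]
    abel
  rwa [this] at hres

theorem ls_reduction {X : Type*} [NormedAddCommGroup X] [NormedSpace ℝ X] [CompleteSpace X]
    (hF : ∀ (k : ℕ) (f : (Fin k → ℝ) → ℝ), AnalyticAt ℝ f 0 →
      ∀ᶠ x in 𝓝 (0 : Fin k → ℝ), fderiv ℝ f x = 0 → f x = f 0)
    (b : X →L[ℝ] X →L[ℝ] ℝ) (hbs : ∀ x y, b x y = b y x) (hbn : ∀ x, 0 ≤ b x x)
    (hbp : ∀ x, b x x = 0 → x = 0)
    (Nn : X → X) (hN : AnalyticAt ℝ Nn 0) (hN0 : Nn 0 = 0)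
    (K : X →L[ℝ] X) (hK : HasFDerivAt Nn K 0) (hKc : IsCompactOperator K)
    (hKs : ∀ x y, b (K x) y = b x (K y))
    (Jf : X → ℝ) (hJ : AnalyticAt ℝ Jf 0)
    (hcrit : ∀ᶠ φ in 𝓝 (0 : X), Nn φ = φ → fderiv ℝ Jf φ = 0) :
    ∀ᶠ φ in 𝓝 (0 : X), Nn φ = φ → Jf φ = Jf 0 := by
  obtain ⟨E, hfd, R, -, hunit⟩ := ls_proj b hbp K hKc hKs
  set R' : X →L[ℝ] X := E.subtypeL.comp R with hR'
  -- the invertible derivative
  obtain ⟨u, hu⟩ := hunit
  let D : X ≃L[ℝ] X := ContinuousLinearEquiv.unitsEquiv ℝ X u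
  have hD : (D : X →L[ℝ] X) = 1 - K + R' := by
    rw [← hu]
    ext x
    rfl
  let Φ : X → X := fun φ => φ - Nn φ + R' φ
  have hΦan : AnalyticAt ℝ Φ 0 := (analyticAt_id.sub hN).add (R'.analyticAt 0)
  have hΦd : HasFDerivAt Φ ((1 : X →L[ℝ] X) - K + R') 0 :=
    ((hasFDerivAt_id (𝕜 := ℝ) (0 : X)).sub hK).add R'.hasFDerivAt
  have hΦ0 : Φ 0 = 0 := by simp [Φ, hN0]
  have hfder : fderiv ℝ Φ 0 = (D : X →L[ℝ] X) := by rw [hΦd.fderiv, hD]
  have hstrict : HasStrictFDerivAt Φ (D : X →L[ℝ] X) 0 := by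
    have := hΦan.hasStrictFDerivAt
    rwa [hfder] at this
  let P := hstrict.toOpenPartialHomeomorph Φ
  have hPc : (P : X → X) = Φ := hstrict.toOpenPartialHomeomorph_coe
  have h0s : (0 : X) ∈ P.source := hstrict.mem_toOpenPartialHomeomorph_source
  have hΨan : AnalyticAt ℝ P.symm 0 := by
    have h1 : AnalyticAt ℝ P 0 := by rw [hPc]; exact hΦan
    have h2 : fderiv ℝ P 0 = (D : X →L[ℝ] X) := by rw [hPc]; exact hfder
    have h3 := P.analyticAt_symm' h0s h1 h2
    rw [hPc, hΦ0] at h3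
    exact h3
  have hΨ0 : P.symm 0 = 0 := by
    have := P.left_inv h0s
    rwa [hPc, hΦ0] at this
  let ι : (Fin (Module.finrank ℝ E) → ℝ) ≃L[ℝ] E :=
    (Module.finBasis ℝ E).equivFun.symm.toContinuousLinearEquiv
  let J' : (Fin (Module.finrank ℝ E) → ℝ) →L[ℝ] X := E.subtypeL.comp (ι : _ →L[ℝ] E)
  let j : (Fin (Module.finrank ℝ E) → ℝ) → ℝ := fun ξ => Jf (P.symm (J' ξ))
  have hJ'0 : J' 0 = 0 := map_zero _
  have hcomp : AnalyticAt ℝ (fun ξ => P.symm (J' ξ)) 0 := by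
    have h1 : AnalyticAt ℝ P.symm (J' 0) := by rw [hJ'0]; exact hΨan
    exact h1.comp (J'.analyticAt 0)
  have hjan : AnalyticAt ℝ j 0 := by
    have h1 : AnalyticAt ℝ Jf ((fun ξ => P.symm (J' ξ)) 0) := by
      simp only [hJ'0, hΨ0]; exact hJ
    exact AnalyticAt.comp (g := Jf) (f := fun ξ => P.symm (J' ξ)) h1 hcomp
  have hj := hF _ j hjan
  -- pull back along `φ ↦ ι⁻¹ (R φ)`
  let ξ : X → (Fin (Module.finrank ℝ E) → ℝ) := fun φ => ι.symm (R φ)
  have hξ : Tendsto ξ (𝓝 0) (𝓝 0) := by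
    have h1 : Continuous ξ := ι.symm.continuous.comp R.continuous
    have h2 : ξ 0 = 0 := by simp [ξ]
    have := h1.tendsto 0
    rwa [h2] at this
  have e1 := hξ.eventually hj
  have e2 : ∀ᶠ φ in 𝓝 (0 : X), P.symm (Φ φ) = φ := by
    have := P.eventually_left_inverse h0s
    simpa [hPc] using this
  have e3 : ∀ᶠ φ in 𝓝 (0 : X), AnalyticAt ℝ Jf φ := hJ.eventually_analyticAt
  have e4 : ∀ᶠ φ in 𝓝 (0 : X), AnalyticAt ℝ (fun ζ => P.symm (J' ζ)) (ξ φ) :=
    hξ.eventually hcomp.eventually_analyticAt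
  filter_upwards [e1, e2, e3, e4, hcrit] with φ h1 h2 h3 h4 h5 hfix
  have h6 : J' (ξ φ) = Φ φ := by
    have : J' (ξ φ) = R' φ := by
      simp [J', ξ, hR']
    rw [this]
    simp [Φ, hfix]
  have h7 : P.symm (J' (ξ φ)) = φ := by rw [h6, h2]
  have h8 : fderiv ℝ j (ξ φ) = 0 := by
    have hd1 : DifferentiableAt ℝ Jf ((fun ζ => P.symm (J' ζ)) (ξ φ)) := by
      simp only [h7]; exact h3.differentiableAt
    have hd2 : DifferentiableAt ℝ (fun ζ => P.symm (J' ζ)) (ξ φ) := h4.differentiableAt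
    have h9 : fderiv ℝ (Jf ∘ (fun ζ => P.symm (J' ζ))) (ξ φ) = _ := fderiv_comp _ hd1 hd2
    have h10 : j = Jf ∘ (fun ζ => P.symm (J' ζ)) := rfl
    rw [h10, h9]
    simp only [h7]
    rw [h5 hfix]
    simp
  have h9 := h1 h8
  have h10 : j (ξ φ) = Jf φ := by simp only [j, h7]
  have h11 : j 0 = Jf 0 := by simp only [j, hJ'0, hΨ0]
  rw [← h10, h9, h11]


end Pool.Agent.Helper420.QI.LS
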