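import Pool.Agent.Helper420.QI.CDefs
set_option autoImplicit false
set_option linter.unusedSectionVars false
set_option linter.unusedVariables false
open Filter Topology

namespace Pool.Agent.Helper420.QI.F5

/-- words -/
abbrev Wd (k : ℕ) : Type := Σ n : ℕ, (Fin n → Fin k)

/-- counting function of a word -/
noncomputable def wcnt {k : ℕ} (b : Wd k) : Fin k →₀ ℕ := ∑ l, Finsupp.single (b.2 l) 1

theorem degree_wcnt {k : ℕ} (b : Wd k) : (wcnt b).degree = b.1 := by
  unfold wcnt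
  rw [map_sum]
  simp only [Finsupp.degree_single]
  simp

theorem prod_wcnt {k : ℕ} (b : Wd k) (x : Fin k → ℝ) :
    ∏ i, x i ^ (wcnt b) i = ∏ l, x (b.2 l) := by
  unfold wcnt
  have h1 : ∀ i, x i ^ ((∑ l, Finsupp.single (b.2 l) 1 : Fin k →₀ ℕ) i) =
      ∏ l, x i ^ ((Finsupp.single (b.2 l) 1 : Fin k →₀ ℕ) i) := by
    intro i
    rw [Finsupp.finsetSum_apply, Finset.prod_pow_eq_pow_sum]
  simp only [h1]
  rw [Finset.prod_comm]
  apply Finset.prod_congr rfl
  intro l _
  rw [Finset.prod_eq_single (b.2 l)]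
  · simp
  · intro j _ hj
    rw [Finsupp.single_eq_of_ne hj]
    simp
  · intro h
    exact absurd (Finset.mem_univ _) h

/-- coefficients -/
noncomputable def wco {k : ℕ} (p : FormalMultilinearSeries ℝ (Fin k → ℝ) ℝ) (b : Wd k) : ℝ :=
  p b.1 (fun l => Pi.single (b.2 l) (1 : ℝ))

theorem wco_le {k : ℕ} (p : FormalMultilinearSeries ℝ (Fin k → ℝ) ℝ) (b : Wd k) :
    |wco p b| ≤ ‖p b.1‖ := by
  unfold wco
  have h := (p b.1).le_opNorm (fun l => Pi.single (b.2 l) (1 : ℝ))
  rw [← Real.norm_eq_abs]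
  refine h.trans ?_
  have h1 : ∏ l, ‖(Pi.single (b.2 l) (1 : ℝ) : Fin k → ℝ)‖ = 1 := by
    apply Finset.prod_eq_one
    intro l _
    rw [Pi.norm_single]
    simp
  rw [h1, mul_one]

theorem eval_wco {k : ℕ} (p : FormalMultilinearSeries ℝ (Fin k → ℝ) ℝ) (n : ℕ)
    (x : Fin k → ℝ) :
    p n (fun _ => x) = ∑ s : Fin n → Fin k, wco p ⟨n, s⟩ * ∏ l, x (s l) := by
  have hx : x = ∑ i, x i • (Pi.single i (1 : ℝ) : Fin k → ℝ) := by
    funext j
    rw [Finset.sum_apply]
    simp only [Pi.smul_apply, smul_eq_mul, Pi.single_apply, mul_ite, mul_one, mul_zero]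
    simp
  have h1 : p n (fun _ => x) = p n (fun _ => ∑ i, x i • (Pi.single i (1 : ℝ) : Fin k → ℝ)) := by
    rw [← hx]
  rw [h1, ContinuousMultilinearMap.map_sum]
  apply Finset.sum_congr rfl
  intro s _
  rw [ContinuousMultilinearMap.map_smul_univ]
  unfold wco
  rw [smul_eq_mul, mul_comm]

/-- the power series -/
noncomputable def wser {k : ℕ} (p : FormalMultilinearSeries ℝ (Fin k → ℝ) ℝ) :
    MvPowerSeries (Fin k) ℝ := fun α => ∑' b : wcnt ⁻¹' {α}, wco p b.1

theorem coeff_wser {k : ℕ} (p : FormalMultilinearSeries ℝ (Fin k → ℝ) ℝ) (α : Fin k →₀ ℕ) :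
    MvPowerSeries.coeff α (wser p) = ∑' b : wcnt ⁻¹' {α}, wco p b.1 := rfl

theorem wser_conv {k : ℕ} (p : FormalMultilinearSeries ℝ (Fin k → ℝ) ℝ) {ρ : ℝ} (hρ : 0 < ρ)
    (hs : Summable (fun b : Wd k => |wco p b| * ρ ^ b.1)) :
    Summable (fun α : Fin k →₀ ℕ => |MvPowerSeries.coeff α (wser p)| * ρ ^ α.degree) := by
  have h1 : Summable (fun α : Fin k →₀ ℕ =>
      ∑' b : wcnt ⁻¹' {α}, |wco p b.1| * ρ ^ b.1.1) := (hs.hasSum.tsum_fiberwise wcnt).summable
  refine h1.of_nonneg_of_le (fun α => by positivity) (fun α => ?_)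
  rw [coeff_wser]
  have h2 : ∀ b : wcnt ⁻¹' {α}, |wco p b.1| * ρ ^ b.1.1 = |wco p b.1| * ρ ^ α.degree := by
    intro b
    have h3 : wcnt b.1 = α := b.2
    rw [← degree_wcnt b.1, h3]
  simp only [h2]
  have hss : Summable (fun b : wcnt ⁻¹' {α} => |wco p b.1| * ρ ^ b.1.1) := hs.subtype _
  simp only [h2] at hss
  have hs' : Summable (fun b : wcnt ⁻¹' {α} => |wco p b.1|) := by
    have hne : ρ ^ α.degree ≠ 0 := (pow_pos hρ _).ne'
    exact (summable_mul_right_iff hne).1 hss
  rw [tsum_mul_right]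
  apply mul_le_mul_of_nonneg_right _ (by positivity)
  have := norm_tsum_le_tsum_norm (f := fun b : wcnt ⁻¹' {α} => wco p b.1) (by
    simpa only [Real.norm_eq_abs] using hs')
  simpa only [Real.norm_eq_abs] using this

theorem wser_ev {k : ℕ} (p : FormalMultilinearSeries ℝ (Fin k → ℝ) ℝ) {ρ : ℝ} (hρ : 0 < ρ)
    (hs : Summable (fun b : Wd k => |wco p b| * ρ ^ b.1)) (x : Fin k → ℝ)
    (hx : ∀ i, |x i| ≤ ρ) :
    ev (wser p) x = ∑' n : ℕ, p n (fun _ => x) := by
  have h0 : Summable (fun b : Wd k => wco p b * ∏ l, x (b.2 l)) := by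
    refine Summable.of_norm_bounded hs (fun b => ?_)
    rw [norm_mul, Real.norm_eq_abs, Real.norm_eq_abs, Finset.abs_prod]
    apply mul_le_mul_of_nonneg_left _ (abs_nonneg _)
    calc ∏ l, |x (b.2 l)| ≤ ∏ _l : Fin b.1, ρ :=
          Finset.prod_le_prod (fun _ _ => abs_nonneg _) (fun _ _ => hx _)
      _ = ρ ^ b.1 := by simp
  have h1 : ∑' b : Wd k, wco p b * ∏ l, x (b.2 l) = ∑' n : ℕ, p n (fun _ => x) := by
    rw [h0.tsum_sigma]
    apply tsum_congr
    intro n
    rw [tsum_fintype, eval_wco]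
  have h2 := (h0.hasSum.tsum_fiberwise wcnt).tsum_eq
  rw [← h1, ← h2]
  unfold ev
  apply tsum_congr
  intro α
  rw [coeff_wser, ← tsum_mul_right]
  apply tsum_congr
  intro b
  have h3 : wcnt b.1 = α := b.2
  have h4 : ∏ i, x i ^ α i = ∏ i, x i ^ (wcnt b.1) i := by
    simp only [h3]
  rw [h4, prod_wcnt]

/-- elementary bound -/
theorem nat_bound (ρ : ℝ) (hρ : 0 < ρ) (n m : ℕ) (hm : m ≤ n) (hm1 : 1 ≤ m) :
    (m : ℝ) * (ρ / 2) ^ (n - 1) ≤ ρ ^ n / ρ := by
  have h1 : (m : ℝ) ≤ 2 ^ (n - 1) := by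
    have h2 : n ≤ 2 ^ (n - 1) := by
      have := Nat.lt_two_pow_self (n := n - 1)
      omega
    have h3 : m ≤ 2 ^ (n - 1) := hm.trans h2
    exact_mod_cast h3
  rw [div_pow]
  have h4 : ρ ^ n / ρ = ρ ^ (n - 1) := by
    rw [div_eq_iff hρ.ne', ← pow_succ]
    congr 1
    omega
  rw [h4]
  have h5 : (0 : ℝ) < 2 ^ (n - 1) := by positivity
  rw [← mul_div_assoc, div_le_iff₀ h5, mul_comm]
  exact mul_le_mul_of_nonneg_left h1 (by positivity)

theorem ev_hasDeriv {k : ℕ} (F : MvPowerSeries (Fin k) ℝ) {ρ : ℝ} (hρ : 0 < ρ)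
    (hs : Summable (fun α : Fin k →₀ ℕ => |MvPowerSeries.coeff α F| * ρ ^ α.degree))
    (x : Fin k → ℝ) (hx : ∀ i, |x i| < ρ / 2) (i : Fin k) :
    HasDerivAt (fun z : ℝ => ev F (Function.update x i z))
      (ev (MvPowerSeries.pderiv ℝ i F) x) (x i) := by
  classical
  -- the terms
  let P : (Fin k →₀ ℕ) → ℝ := fun α => ∏ j ∈ Finset.univ.erase i, x j ^ α j
  have hterm : ∀ (α : Fin k →₀ ℕ) (z : ℝ), ∏ j, Function.update x i z j ^ α j =
      P α * z ^ α i := by
    intro α z
    rw [← Finset.prod_erase_mul _ _ (Finset.mem_univ i), Function.update_self]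
    congr 1
    apply Finset.prod_congr rfl
    intro j hj
    rw [Function.update_of_ne (Finset.ne_of_mem_erase hj)]
  have hdeg : ∀ α : Fin k →₀ ℕ, α.degree = ∑ j ∈ Finset.univ.erase i, α j + α i := by
    intro α
    rw [Finsupp.degree_eq_sum, Finset.sum_erase_add _ _ (Finset.mem_univ i)]
  have hP : ∀ α, |P α| ≤ (ρ / 2) ^ (∑ j ∈ Finset.univ.erase i, α j) := by
    intro α
    rw [Finset.abs_prod, ← Finset.prod_pow_eq_pow_sum]
    apply Finset.prod_le_prod (fun _ _ => abs_nonneg _)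
    intro j _
    rw [abs_pow]
    exact pow_le_pow_left₀ (abs_nonneg _) (hx j).le _
  let g : (Fin k →₀ ℕ) → ℝ → ℝ := fun α z => MvPowerSeries.coeff α F * (P α * z ^ α i)
  let g' : (Fin k →₀ ℕ) → ℝ → ℝ := fun α z =>
    MvPowerSeries.coeff α F * (P α * (α i * z ^ (α i - 1)))
  let u : (Fin k →₀ ℕ) → ℝ := fun α => |MvPowerSeries.coeff α F| * ρ ^ α.degree / ρ
  have hu : Summable u := hs.div_const ρ
  have hg : ∀ α z, z ∈ Metric.ball (0 : ℝ) (ρ / 2) → HasDerivAt (g α) (g' α z) z := by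
    intro α z _
    exact ((hasDerivAt_pow (α i) z).const_mul (P α)).const_mul (MvPowerSeries.coeff α F)
  have hg' : ∀ α z, z ∈ Metric.ball (0 : ℝ) (ρ / 2) → ‖g' α z‖ ≤ u α := by
    intro α z hz
    rw [mem_ball_zero_iff, Real.norm_eq_abs] at hz
    show ‖MvPowerSeries.coeff α F * (P α * (α i * z ^ (α i - 1)))‖ ≤
      |MvPowerSeries.coeff α F| * ρ ^ α.degree / ρ
    rw [norm_mul, Real.norm_eq_abs, Real.norm_eq_abs, mul_div_assoc]
    apply mul_le_mul_of_nonneg_left _ (abs_nonneg _)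
    rcases Nat.eq_zero_or_pos (α i) with h0 | h0
    · rw [h0]
      simp only [Nat.cast_zero, zero_mul, mul_zero, abs_zero]
      positivity
    · rw [abs_mul, abs_mul, abs_pow, Nat.abs_cast]
      calc |P α| * ((α i : ℝ) * |z| ^ (α i - 1))
          ≤ (ρ / 2) ^ (∑ j ∈ Finset.univ.erase i, α j) * ((α i : ℝ) * (ρ / 2) ^ (α i - 1)) := by
            apply mul_le_mul (hP α) _ (by positivity) (by positivity)
            apply mul_le_mul_of_nonneg_left _ (Nat.cast_nonneg _)
            exact pow_le_pow_left₀ (abs_nonneg _) hz.le _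
        _ = (α i : ℝ) * (ρ / 2) ^ (α.degree - 1) := by
            have e : α.degree - 1 = ∑ j ∈ Finset.univ.erase i, α j + (α i - 1) := by
              rw [hdeg]; omega
            rw [e, pow_add]
            ring
        _ ≤ ρ ^ α.degree / ρ := by
            apply nat_bound ρ hρ _ _ _ h0
            rw [hdeg]; omega
  have h0mem : (0 : ℝ) ∈ Metric.ball (0 : ℝ) (ρ / 2) := Metric.mem_ball_self (by positivity)
  have hximem : x i ∈ Metric.ball (0 : ℝ) (ρ / 2) := by
    rw [mem_ball_zero_iff, Real.norm_eq_abs]; exact hx i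
  have hg0 : Summable fun α => g α 0 := by
    refine Summable.of_norm_bounded hs (fun α => ?_)
    show ‖MvPowerSeries.coeff α F * (P α * 0 ^ α i)‖ ≤ _
    rw [norm_mul, Real.norm_eq_abs, Real.norm_eq_abs]
    apply mul_le_mul_of_nonneg_left _ (abs_nonneg _)
    rcases Nat.eq_zero_or_pos (α i) with h0 | h0
    · rw [h0, pow_zero, mul_one]
      refine (hP α).trans ?_
      have e : ∑ j ∈ Finset.univ.erase i, α j = α.degree := by
        rw [hdeg, h0, add_zero]
      rw [e]
      exact pow_le_pow_left₀ (by positivity) (by linarith) _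
    · rw [zero_pow h0.ne', mul_zero, abs_zero]
      positivity
  have hmain := hasDerivAt_tsum_of_isPreconnected hu Metric.isOpen_ball
    (convex_ball (0 : ℝ) (ρ / 2)).isPreconnected hg hg' h0mem hg0 hximem
  have e1 : (fun z : ℝ => ev F (Function.update x i z)) = fun z => ∑' α, g α z := by
    funext z
    unfold ev
    apply tsum_congr
    intro α
    rw [hterm]
  have e2 : ev (MvPowerSeries.pderiv ℝ i F) x = ∑' α, g' α (x i) := by
    unfold ev
    have hinj : Function.Injective (fun β : Fin k →₀ ℕ => β + Finsupp.single i 1) :=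
      add_left_injective _
    have hsupp : Function.support (fun α => g' α (x i)) ⊆
        Set.range (fun β : Fin k →₀ ℕ => β + Finsupp.single i 1) := by
      intro α hα
      have hne : α i ≠ 0 := by
        intro h0
        apply hα
        show MvPowerSeries.coeff α F * (P α * (α i * x i ^ (α i - 1))) = 0
        rw [h0]
        simp
      refine ⟨α - Finsupp.single i 1, ?_⟩
      show α - Finsupp.single i 1 + Finsupp.single i 1 = α
      apply tsub_add_cancel_of_le
      rw [Finsupp.single_le_iff]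
      omega
    rw [← hinj.tsum_eq hsupp]
    apply tsum_congr
    intro β
    show MvPowerSeries.coeff β (MvPowerSeries.pderiv ℝ i F) * ∏ j, x j ^ β j =
      MvPowerSeries.coeff (β + Finsupp.single i 1) F *
        (P (β + Finsupp.single i 1) * (((β + Finsupp.single i 1 : Fin k →₀ ℕ) i : ℕ) *
          x i ^ ((β + Finsupp.single i 1 : Fin k →₀ ℕ) i - 1)))
    rw [MvPowerSeries.coeff_pderiv]
    have a1 : (β + Finsupp.single i 1 : Fin k →₀ ℕ) i = β i + 1 := by simp
    have a2 : P (β + Finsupp.single i 1) = ∏ j ∈ Finset.univ.erase i, x j ^ β j := by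
      apply Finset.prod_congr rfl
      intro j hj
      have : (β + Finsupp.single i 1 : Fin k →₀ ℕ) j = β j := by
        rw [Finsupp.add_apply, Finsupp.single_eq_of_ne (Finset.ne_of_mem_erase hj), add_zero]
      rw [this]
    rw [a1, a2, ← Finset.prod_erase_mul _ _ (Finset.mem_univ i)]
    push_cast
    ring
  rw [e1, e2]
  exact hmain

theorem analytic_conv {k : ℕ} {f : (Fin k → ℝ) → ℝ} (hf : AnalyticAt ℝ f 0) :
    ∃ F : MvPowerSeries (Fin k) ℝ, IsConv F ∧ ∀ᶠ x in 𝓝 (0 : Fin k → ℝ),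
      f x = ev F x ∧ ∀ i, fderiv ℝ f x (Pi.single i 1) = ev (MvPowerSeries.pderiv ℝ i F) x := by
  obtain ⟨p, r, hp⟩ := hf
  obtain ⟨r', hr'0, hr'r⟩ := ENNReal.lt_iff_exists_nnreal_btwn.1 hp.r_pos
  have hr'pos : 0 < r' := by exact_mod_cast hr'0
  have hrad : (r' : ENNReal) < p.radius := hr'r.trans_le hp.r_le
  obtain ⟨C, hC, hpC⟩ := p.norm_mul_pow_le_of_lt_radius hrad
  let ρ : ℝ := r' / (2 * (k + 1))
  have hρ : 0 < ρ := by
    have : (0 : ℝ) < r' := by exact_mod_cast hr'pos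
    positivity
  have hs : Summable (fun b : Wd k => |wco p b| * ρ ^ b.1) := by
    rw [summable_sigma_of_nonneg (fun b => by positivity)]
    refine ⟨fun n => Summable.of_finite, ?_⟩
    have hgeo : Summable (fun n : ℕ => C * (1 / 2 : ℝ) ^ n) :=
      (summable_geometric_of_lt_one (by norm_num) (by norm_num)).mul_left C
    refine hgeo.of_nonneg_of_le (fun n => tsum_nonneg (fun s => by positivity)) (fun n => ?_)
    rw [tsum_fintype]
    calc ∑ s : Fin n → Fin k, |wco p ⟨n, s⟩| * ρ ^ n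
        ≤ ∑ _s : Fin n → Fin k, ‖p n‖ * ρ ^ n := by
          apply Finset.sum_le_sum
          intro s _
          exact mul_le_mul_of_nonneg_right (wco_le p ⟨n, s⟩) (by positivity)
      _ = (k : ℝ) ^ n * (‖p n‖ * ρ ^ n) := by
          rw [Finset.sum_const, nsmul_eq_mul, Finset.card_univ, Fintype.card_fun]
          simp
      _ = (‖p n‖ * (r' : ℝ) ^ n) * ((k : ℝ) / (2 * (k + 1))) ^ n := by
          simp only [ρ, div_pow, mul_pow]
          ring
      _ ≤ C * (1 / 2 : ℝ) ^ n := by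
          apply mul_le_mul (hpC n) _ (by positivity) hC.le
          apply pow_le_pow_left₀ (by positivity)
          rw [div_le_div_iff₀ (by positivity) (by norm_num)]
          linarith
  have hconv := wser_conv p hρ hs
  refine ⟨wser p, ⟨ρ, hρ, hconv⟩, ?_⟩
  -- the value
  have hval : ∀ᶠ x in 𝓝 (0 : Fin k → ℝ), f x = ev (wser p) x := by
    have h1 : ∀ᶠ x in 𝓝 (0 : Fin k → ℝ), ‖x‖ < ρ := by
      have := Metric.ball_mem_nhds (0 : Fin k → ℝ) hρ
      filter_upwards [this] with x hx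
      rwa [mem_ball_zero_iff] at hx
    have h2 : ∀ᶠ x in 𝓝 (0 : Fin k → ℝ), x ∈ Metric.eball (0 : Fin k → ℝ) r :=
      Metric.eball_mem_nhds _ hp.r_pos
    filter_upwards [h1, h2] with x hx1 hx2
    have h3 := hp.hasSum hx2
    rw [zero_add] at h3
    rw [wser_ev p hρ hs x (fun i => ?_), h3.tsum_eq]
    exact ((norm_le_pi_norm x i).trans hx1.le)
  have hval2 := hval.eventually_nhds
  have h1 : ∀ᶠ x in 𝓝 (0 : Fin k → ℝ), ‖x‖ < ρ / 2 := by
    have := Metric.ball_mem_nhds (0 : Fin k → ℝ) (by positivity : 0 < ρ / 2)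
    filter_upwards [this] with x hx
    rwa [mem_ball_zero_iff] at hx
  have hf0 : AnalyticAt ℝ f 0 := ⟨p, r, hp⟩
  have h2 : ∀ᶠ x in 𝓝 (0 : Fin k → ℝ), AnalyticAt ℝ f x :=
    hf0.eventually_analyticAt
  filter_upwards [hval, hval2, h1, h2] with x hx1 hx2 hx3 hx4
  refine ⟨hx1, fun i => ?_⟩
  have d1 : HasDerivAt (fun z : ℝ => ev (wser p) (Function.update x i z))
      (ev (MvPowerSeries.pderiv ℝ i (wser p)) x) (x i) := by
    apply ev_hasDeriv (wser p) hρ hconv x
    intro j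
    exact lt_of_le_of_lt (norm_le_pi_norm x j) hx3
  have d2 : HasDerivAt (fun z : ℝ => f (Function.update x i z))
      (fderiv ℝ f x (Pi.single i 1)) (x i) := by
    have e1 : HasFDerivAt f (fderiv ℝ f x) (Function.update x i (x i)) := by
      rw [Function.update_eq_self]
      exact hx4.differentiableAt.hasFDerivAt
    exact e1.comp_hasDerivAt (x i) (hasDerivAt_update x i (x i))
  have hev : (fun z : ℝ => f (Function.update x i z)) =ᶠ[𝓝 (x i)]
      (fun z : ℝ => ev (wser p) (Function.update x i z)) := by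
    have ht : Tendsto (fun z : ℝ => Function.update x i z) (𝓝 (x i)) (𝓝 x) := by
      have := (hasDerivAt_update x i (x i)).continuousAt.tendsto
      rwa [Function.update_eq_self] at this
    exact ht.eventually hx2
  exact d2.unique (d1.congr_of_eventuallyEq hev)


end Pool.Agent.Helper420.QI.F5
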