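import Mathlib
set_option autoImplicit false
set_option linter.unusedSectionVars false
set_option linter.unusedVariables false


namespace Pool.Agent.Helper420.QI.R1

theorem max_pow_le {A : Type*} [CommRing A] [IsDomain A] [IsNoetherianRing A] [IsLocalRing A]
    {f : A} (hf : f ≠ 0) (h : ∀ I : Ideal A, I ≠ ⊥ → ∃ n : ℕ, f ^ n ∈ I) :
    ∃ N : ℕ, IsLocalRing.maximalIdeal A ^ N ≤ Ideal.span {f} := by
  refine Ideal.exists_pow_le_of_le_radical_of_fg ?_ (IsNoetherian.noetherian _)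
  rw [Ideal.radical_eq_sInf]
  refine le_sInf ?_
  rintro P ⟨hfP, hPprime⟩
  by_contra hmP
  have hPm : P ≤ IsLocalRing.maximalIdeal A := IsLocalRing.le_maximalIdeal hPprime.ne_top
  have hMfin : (Ideal.span {f} : Ideal A).minimalPrimes.Finite :=
    Ideal.finite_minimalPrimes_of_isNoetherianRing A _
  have h1 : ¬ ∃ p ∈ (Ideal.span {f} : Ideal A).minimalPrimes,
      IsLocalRing.maximalIdeal A ≤ p := by
    rintro ⟨p, hp, hmp⟩
    exact hmP (hmp.trans (hp.2 ⟨hPprime, hfP⟩ (hPm.trans hmp)))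
  have h2 : ¬ ((IsLocalRing.maximalIdeal A : Set A) ⊆
      ⋃ p ∈ (Ideal.span {f} : Ideal A).minimalPrimes, (p : Set A)) := by
    intro hsub
    apply h1
    have := (Ideal.subset_union_prime_finite (s := (Ideal.span {f} : Ideal A).minimalPrimes)
      hMfin (f := fun p => p) ⊥ ⊥ (fun i hi _ _ => hi.1.1)
      (I := IsLocalRing.maximalIdeal A)).1 hsub
    exact this
  obtain ⟨y, hym, hy⟩ := Set.not_subset.1 h2
  have hy' : ∀ p ∈ (Ideal.span {f} : Ideal A).minimalPrimes, y ∉ p := by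
    intro p hp hyp
    exact hy (Set.mem_biUnion hp hyp)
  haveI := hPprime
  obtain ⟨p0, hp0, -⟩ := Ideal.exists_minimalPrimes_le hfP
  have hy0 : y ≠ 0 := by
    rintro rfl
    exact hy' p0 hp0 (zero_mem _)
  have hspan : (Ideal.span {y} : Ideal A) ≤ IsLocalRing.maximalIdeal A := by
    rw [Ideal.span_singleton_le_iff_mem]; exact hym
  obtain ⟨q, hq, -⟩ := Ideal.exists_minimalPrimes_le hspan
  haveI hqp : q.IsPrime := hq.1.1
  have hyq : y ∈ q := hq.1.2 (Ideal.mem_span_singleton_self y)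
  have hqbot : q ≠ ⊥ := by
    rintro rfl
    exact hy0 ((Submodule.mem_bot A).1 hyq)
  obtain ⟨n, hn⟩ := h q hqbot
  have hfq : f ∈ q := hqp.mem_of_pow_mem n hn
  have hfq' : (Ideal.span {f} : Ideal A) ≤ q := by
    rw [Ideal.span_singleton_le_iff_mem]; exact hfq
  obtain ⟨p, hp, hpq⟩ := Ideal.exists_minimalPrimes_le hfq'
  haveI hpp : p.IsPrime := hp.1.1
  have hfp : f ∈ p := hp.1.2 (Ideal.mem_span_singleton_self f)
  have hlt : p < q := by
    refine lt_of_le_of_ne hpq ?_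
    rintro rfl
    exact hy' p hp hyq
  have hbot : (⊥ : Ideal A) < p := by
    refine bot_lt_iff_ne_bot.2 ?_
    rintro rfl
    exact hf ((Submodule.mem_bot A).1 hfp)
  have e1 : (⊥ : Ideal A).height + 1 ≤ p.height := Ideal.height_add_one_le_of_lt_of_isPrime hbot
  have e2 : p.height + 1 ≤ q.height := Ideal.height_add_one_le_of_lt_of_isPrime hlt
  have e3 : q.height ≤ 1 :=
    Ideal.height_le_one_of_isPrincipal_of_mem_minimalPrimes (Ideal.span {y}) q hq
  rw [Ideal.height_bot, zero_add] at e1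
  have e4 : (1 : ℕ∞) + 1 ≤ 1 := (add_le_add_left e1 1).trans (e2.trans e3)
  exact absurd e4 (by norm_num)


end Pool.Agent.Helper420.QI.R1
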