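import Mathlib
set_option autoImplicit false
set_option linter.unusedSectionVars false
set_option linter.unusedVariables false


namespace Pool.Agent.Helper420.QI.R2

theorem R2_mem {k : ℕ} {b : MvPowerSeries (Fin k) ℝ}
    (hb : MvPowerSeries.constantCoeff b = 0) :
    b ∈ IsLocalRing.maximalIdeal (MvPowerSeries (Fin k) ℝ) := by
  rw [IsLocalRing.mem_maximalIdeal, mem_nonunits_iff, MvPowerSeries.isUnit_iff_constantCoeff, hb]
  exact not_isUnit_zero

theorem R2_span {k : ℕ} (N : ℕ) :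
    ∃ (n : ℕ) (v : Fin n → MvPowerSeries (Fin k) ℝ), ∀ g : MvPowerSeries (Fin k) ℝ,
      ∃ c : Fin n → ℝ, g - ∑ j, MvPowerSeries.C (c j) * v j ∈
        IsLocalRing.maximalIdeal (MvPowerSeries (Fin k) ℝ) ^ N := by
  induction N with
  | zero => exact ⟨0, Fin.elim0, fun g => ⟨Fin.elim0, by simp⟩⟩
  | succ N ih =>
    obtain ⟨n, v, hv⟩ := ih
    obtain ⟨m, w, hw⟩ := Submodule.fg_iff_exists_fin_generating_family.1
      (IsNoetherian.noetherian (IsLocalRing.maximalIdeal (MvPowerSeries (Fin k) ℝ) ^ N))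
    have hwm : ∀ j, w j ∈ IsLocalRing.maximalIdeal (MvPowerSeries (Fin k) ℝ) ^ N := by
      intro j
      rw [← hw]
      exact Submodule.subset_span ⟨j, rfl⟩
    refine ⟨n + m, Fin.append v w, fun g => ?_⟩
    obtain ⟨c, hc⟩ := hv g
    rw [← hw] at hc
    obtain ⟨b, hb⟩ := (Submodule.mem_span_range_iff_exists_fun _).1 hc
    refine ⟨Fin.append c (fun j => MvPowerSeries.constantCoeff (b j)), ?_⟩
    rw [Fin.sum_univ_add]
    simp only [Fin.append_left, Fin.append_right]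
    have h1 : g - (∑ j, MvPowerSeries.C (c j) * v j +
        ∑ j, MvPowerSeries.C (MvPowerSeries.constantCoeff (b j)) * w j) =
        ∑ j, w j * (b j - MvPowerSeries.C (MvPowerSeries.constantCoeff (b j))) := by
      rw [← sub_sub, ← hb, ← Finset.sum_sub_distrib]
      refine Finset.sum_congr rfl fun j _ => ?_
      rw [smul_eq_mul]
      ring
    rw [h1]
    refine Ideal.sum_mem _ fun j _ => ?_
    rw [pow_succ]
    refine Ideal.mul_mem_mul (hwm j) (R2_mem ?_)
    simp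

theorem R2_krull {k : ℕ} (Q : Ideal (MvPowerSeries (Fin k) ℝ)) (hQ : Q ≠ ⊤)
    (x : MvPowerSeries (Fin k) ℝ)
    (hx : ∀ J : ℕ, x ∈ Q ⊔ IsLocalRing.maximalIdeal (MvPowerSeries (Fin k) ℝ) ^ J) : x ∈ Q := by
  have : Nontrivial (MvPowerSeries (Fin k) ℝ ⧸ Q) := Ideal.Quotient.nontrivial_iff.2 hQ
  have : IsLocalRing (MvPowerSeries (Fin k) ℝ ⧸ Q) :=
    IsLocalRing.of_surjective' (Ideal.Quotient.mk Q) Ideal.Quotient.mk_surjective
  set I : Ideal (MvPowerSeries (Fin k) ℝ ⧸ Q) :=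
    (IsLocalRing.maximalIdeal (MvPowerSeries (Fin k) ℝ)).map (Ideal.Quotient.mk Q) with hI
  have hI1 : I ≠ ⊤ := by
    have hle : Q ≤ IsLocalRing.maximalIdeal (MvPowerSeries (Fin k) ℝ) :=
      IsLocalRing.le_maximalIdeal hQ
    intro h
    have h1 : (1 : MvPowerSeries (Fin k) ℝ ⧸ Q) ∈ I := by rw [h]; trivial
    rw [hI, Ideal.mem_map_iff_of_surjective _ Ideal.Quotient.mk_surjective] at h1
    obtain ⟨y, hy, hy1⟩ := h1
    rw [← map_one (Ideal.Quotient.mk Q), Ideal.Quotient.eq] at hy1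
    have h3 : (1 : MvPowerSeries (Fin k) ℝ) ∈
        IsLocalRing.maximalIdeal (MvPowerSeries (Fin k) ℝ) := by
      have := Ideal.sub_mem _ hy (hle hy1)
      rwa [sub_sub_cancel] at this
    exact (Ideal.ne_top_iff_one _).1 (IsLocalRing.maximalIdeal.isMaximal _).ne_top h3
  have h2 := Ideal.iInf_pow_eq_bot_of_isLocalRing I hI1
  rw [← Ideal.Quotient.eq_zero_iff_mem, ← Ideal.mem_bot, ← h2, Ideal.mem_iInf]
  intro J
  rw [hI, ← Ideal.map_pow]
  obtain ⟨a, ha, b, hb, rfl⟩ := Submodule.mem_sup.1 (hx J)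
  rw [map_add, Ideal.Quotient.eq_zero_iff_mem.2 ha, zero_add]
  exact Ideal.mem_map_of_mem _ hb

theorem finite_over {k : ℕ} (Q : Ideal (MvPowerSeries (Fin k) ℝ)) (hQ : Q ≠ ⊤)
    (f : MvPowerSeries (Fin k) ℝ) (hf : MvPowerSeries.constantCoeff f = 0) (N : ℕ)
    (hN : IsLocalRing.maximalIdeal (MvPowerSeries (Fin k) ℝ) ^ N ≤ Ideal.span {f} ⊔ Q) :
    ∃ (n : ℕ) (v : Fin n → MvPowerSeries (Fin k) ℝ), ∀ g : MvPowerSeries (Fin k) ℝ,
      ∃ φ : Fin n → PowerSeries ℝ, g - ∑ j, PowerSeries.subst f (φ j) * v j ∈ Q := by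
  obtain ⟨n, v, hv⟩ := R2_span (k := k) N
  refine ⟨n, v, ?_⟩
  have hsub : PowerSeries.HasSubst f := PowerSeries.HasSubst.of_constantCoeff_zero hf
  have hstep : ∀ g : MvPowerSeries (Fin k) ℝ, ∃ (c : Fin n → ℝ) (h : MvPowerSeries (Fin k) ℝ),
      g - ∑ j, MvPowerSeries.C (c j) * v j - f * h ∈ Q := by
    intro g
    obtain ⟨c, hc⟩ := hv g
    obtain ⟨a, ha, b, hb, hab⟩ := Submodule.mem_sup.1 (hN hc)
    obtain ⟨h, rfl⟩ := Ideal.mem_span_singleton'.1 ha
    refine ⟨c, h, ?_⟩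
    rw [← hab]
    have : h * f + b - f * h = b := by ring
    rw [this]
    exact hb
  choose c h hch using hstep
  let G : MvPowerSeries (Fin k) ℝ → ℕ → MvPowerSeries (Fin k) ℝ := fun g j => h^[j] g
  let Φ : MvPowerSeries (Fin k) ℝ → Fin n → PowerSeries ℝ :=
    fun g i => PowerSeries.mk (fun j => c (G g j) i)
  have hΦ : ∀ g i, Φ g i = PowerSeries.X * Φ (h g) i + PowerSeries.C (c g i) := by
    intro g i
    have h0 := PowerSeries.eq_X_mul_shift_add_const (Φ g i)
    rw [h0]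
    congr 2
    · ext p
      simp [Φ, G]
  have hsubst : ∀ g i, PowerSeries.subst f (Φ g i) =
      f * PowerSeries.subst f (Φ (h g) i) + MvPowerSeries.C (c g i) := by
    intro g i
    rw [hΦ g i, PowerSeries.subst_add hsub, PowerSeries.subst_mul hsub, PowerSeries.subst_X hsub]
    congr 1
    exact PowerSeries.subst_C _
  have hD : ∀ (J : ℕ) (g : MvPowerSeries (Fin k) ℝ),
      g - ∑ j, PowerSeries.subst f (Φ g j) * v j ∈
        Q ⊔ IsLocalRing.maximalIdeal (MvPowerSeries (Fin k) ℝ) ^ J := by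
    intro J
    induction J with
    | zero => intro g; simp
    | succ J ih =>
      intro g
      have h1 : g - ∑ j, PowerSeries.subst f (Φ g j) * v j =
          (g - ∑ j, MvPowerSeries.C (c g j) * v j - f * h g) +
          f * (h g - ∑ j, PowerSeries.subst f (Φ (h g) j) * v j) := by
        have h2 : ∑ j, PowerSeries.subst f (Φ g j) * v j =
            f * ∑ j, PowerSeries.subst f (Φ (h g) j) * v j +
            ∑ j, MvPowerSeries.C (c g j) * v j := by
          rw [Finset.mul_sum, ← Finset.sum_add_distrib]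
          refine Finset.sum_congr rfl fun j _ => ?_
          rw [hsubst g j]
          ring
        rw [h2]
        ring
      rw [h1]
      obtain ⟨a, ha, b, hb, hab⟩ := Submodule.mem_sup.1 (ih (h g))
      rw [← hab, mul_add, ← add_assoc]
      refine Submodule.mem_sup.2 ⟨_, Q.add_mem (hch g) (Q.mul_mem_left f ha), f * b, ?_, rfl⟩
      rw [pow_succ']
      exact Ideal.mul_mem_mul (R2_mem hf) hb
  intro g
  exact ⟨Φ g, R2_krull Q hQ _ fun J => hD J g⟩


end Pool.Agent.Helper420.QI.R2
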