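import Mathlib
set_option autoImplicit false
set_option linter.unusedSectionVars false
set_option linter.unusedVariables false


namespace Pool.Agent.Helper420.QI.R3

open TensorProduct in
theorem ext_deriv {B A : Type} [CommRing B] [IsDomain B] [CommRing A] [IsDomain A] [Algebra ℝ B]
    [Algebra ℝ A] [Algebra B A] [IsScalarTower ℝ B A] [Module.Finite B A]
    (hinj : Function.Injective (algebraMap B A)) (d : Derivation ℝ B B) :
    ∃ D : Derivation ℝ (FractionRing A) (FractionRing A),
      ∀ b : B, D (algebraMap B (FractionRing A) b) = algebraMap B (FractionRing A) (d b) := by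
  have hinjK : Function.Injective (algebraMap B (FractionRing A)) := by
    rw [IsScalarTower.algebraMap_eq B A (FractionRing A)]
    exact (IsFractionRing.injective A (FractionRing A)).comp hinj
  have : FaithfulSMul B (FractionRing A) := (faithfulSMul_iff_algebraMap_injective _ _).mpr hinjK
  let _ := FractionRing.liftAlgebra B (FractionRing A)
  have h1 : Algebra.IsAlgebraic B A := inferInstance
  have h2 : Algebra.IsAlgebraic B (FractionRing A) :=
    (IsFractionRing.isAlgebraic_iff' B A (FractionRing A)).mp h1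
  have h3 : Algebra.IsAlgebraic (FractionRing B) (FractionRing A) :=
    (IsFractionRing.comap_isAlgebraic_iff (A := B)).mp h2
  have : CharZero (FractionRing B) :=
    charZero_of_injective_algebraMap (algebraMap ℝ (FractionRing B)).injective
  have : Algebra.IsSeparable (FractionRing B) (FractionRing A) := inferInstance
  have : Algebra.FormallyEtale (FractionRing B) (FractionRing A) :=
    Algebra.FormallyEtale.of_isSeparable _ _
  have : Algebra.FormallyEtale B (FractionRing B) :=
    Algebra.FormallyEtale.of_isLocalization (nonZeroDivisors B)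
  have : Algebra.FormallyEtale B (FractionRing A) :=
    Algebra.FormallyEtale.comp B (FractionRing B) (FractionRing A)
  let e := KaehlerDifferential.tensorKaehlerEquivOfFormallyEtale ℝ B (FractionRing A)
  let d' : Derivation ℝ B (FractionRing A) := (Algebra.linearMap B (FractionRing A)).compDer d
  let l := LinearMap.liftBaseChange (FractionRing A) d'.liftKaehlerDifferential
  refine ⟨(l.comp e.symm.toLinearMap).compDer (KaehlerDifferential.D ℝ (FractionRing A)), ?_⟩
  intro b
  show l (e.symm (KaehlerDifferential.D ℝ (FractionRing A) (algebraMap B (FractionRing A) b))) = _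
  rw [KaehlerDifferential.tensorKaehlerEquivOfFormallyEtale_symm_D_algebraMap]
  rw [LinearMap.liftBaseChange_tmul, one_smul, Derivation.liftKaehlerDifferential_comp_D]
  rfl

open MvPowerSeries in
/-- power series without constant term lie in the ideal generated by the variables -/
theorem mem_span_X {k : ℕ} (g : MvPowerSeries (Fin k) ℝ) (hg : constantCoeff g = 0) :
    g ∈ Ideal.span (Set.range (fun i : Fin k => (X i : MvPowerSeries (Fin k) ℝ))) := by
  classical
  -- choice of an index for every nonzero exponent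
  have hch : ∀ e : Fin k →₀ ℕ, e ≠ 0 → ∃ i, e i ≠ 0 := by
    intro e he
    by_contra hcon
    push Not at hcon
    exact he (Finsupp.ext hcon)
  let c : (Fin k →₀ ℕ) → Option (Fin k) := fun e =>
    if he : e ≠ 0 then some (hch e he).choose else none
  have hc : ∀ e i, c e = some i → e i ≠ 0 := by
    intro e i h
    by_cases he : e ≠ 0
    · have h1 : c e = some (hch e he).choose := dif_pos he
      rw [h1] at h
      rw [← Option.some.inj h]
      exact (hch e he).choose_spec
    · have h1 : c e = none := dif_neg he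
      rw [h1] at h
      exact absurd h (by simp)
  have hc' : ∀ e, e ≠ 0 → ∃ i, c e = some i := fun e he => ⟨_, dif_pos he⟩
  let q : Fin k → MvPowerSeries (Fin k) ℝ := fun i d =>
    if c (d + Finsupp.single i 1) = some i then coeff (d + Finsupp.single i 1) g else 0
  have hq : ∀ i d, coeff d (q i) =
      if c (d + Finsupp.single i 1) = some i then coeff (d + Finsupp.single i 1) g else 0 :=
    fun i d => rfl
  have hsum : g = ∑ i, X i * q i := by
    ext e
    rw [map_sum]
    have hterm : ∀ i, coeff e (X i * q i) = if c e = some i then coeff e g else 0 := by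
      intro i
      by_cases hi : e i = 0
      · have h1 : c e ≠ some i := fun h => hc e i h hi
        rw [if_neg h1, X, coeff_monomial_mul, if_neg]
        intro hle
        have := hle i
        rw [Finsupp.single_eq_same, hi] at this
        omega
      · have hle : Finsupp.single i 1 ≤ e := by
          rw [Finsupp.single_le_iff]
          omega
        rw [X, coeff_monomial_mul, if_pos hle, one_mul, hq, tsub_add_cancel_of_le hle]
    rw [Finset.sum_congr rfl (fun i _ => hterm i)]
    by_cases he : e = 0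
    · subst he
      have h0 : coeff (0 : Fin k →₀ ℕ) g = 0 := by
        rw [coeff_zero_eq_constantCoeff]; exact hg
      rw [h0]
      simp
    · obtain ⟨i, hi⟩ := hc' e he
      rw [Finset.sum_eq_single i]
      · rw [if_pos hi]
      · intro j _ hj
        rw [if_neg]
        rw [hi]
        intro h
        exact hj (Option.some.inj h).symm
      · intro h
        exact absurd (Finset.mem_univ i) h
  rw [hsum]
  exact Ideal.sum_mem _ (fun i _ => Ideal.mul_mem_right _ _ (Ideal.subset_span ⟨i, rfl⟩))

open MvPowerSeries in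
theorem trunc_dec {k : ℕ} (J : ℕ) (g : MvPowerSeries (Fin k) ℝ) :
    ∃ p : MvPolynomial (Fin k) ℝ, g - (p : MvPowerSeries (Fin k) ℝ) ∈
      (Ideal.span (Set.range (fun i : Fin k => (X i : MvPowerSeries (Fin k) ℝ)))) ^ J := by
  induction J generalizing g with
  | zero => exact ⟨0, by simp⟩
  | succ J ih =>
    have h1 : g - C (constantCoeff g) ∈
        Ideal.span (Set.range (fun i : Fin k => (X i : MvPowerSeries (Fin k) ℝ))) := by
      apply mem_span_X
      simp
    rw [Ideal.mem_span_range_iff_exists_fun] at h1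
    obtain ⟨c, hc⟩ := h1
    choose p hp using fun i => ih (c i)
    refine ⟨MvPolynomial.C (constantCoeff g) + ∑ i, p i * MvPolynomial.X i, ?_⟩
    have h2 : g - ((MvPolynomial.C (constantCoeff g) + ∑ i, p i * MvPolynomial.X i :
        MvPolynomial (Fin k) ℝ) : MvPowerSeries (Fin k) ℝ) =
        ∑ i, (c i - (p i : MvPowerSeries (Fin k) ℝ)) * X i := by
      have h3 : g = C (constantCoeff g) + ∑ i, c i * X i := by
        rw [hc]; ring
      have h4 : ((∑ i, p i * MvPolynomial.X i : MvPolynomial (Fin k) ℝ) :
          MvPowerSeries (Fin k) ℝ) = ∑ i, (p i : MvPowerSeries (Fin k) ℝ) * X i := by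
        rw [← MvPolynomial.coeToMvPowerSeries.ringHom_apply, map_sum]
        apply Finset.sum_congr rfl
        intro i _
        rw [map_mul]
        simp
      rw [MvPolynomial.coe_add, MvPolynomial.coe_C, h4]
      conv_lhs => rw [h3]
      simp only [sub_mul, Finset.sum_sub_distrib]
      simp only [map_add, constantCoeff_C]
      have h5 : constantCoeff (∑ i, c i * (X i : MvPowerSeries (Fin k) ℝ)) = 0 := by
        rw [map_sum]
        apply Finset.sum_eq_zero
        intro i _
        rw [map_mul, constantCoeff_X, mul_zero]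
      rw [h5]
      simp
    rw [h2, pow_succ]
    exact Ideal.sum_mem _ (fun i _ => Ideal.mul_mem_mul (hp i) (Ideal.subset_span ⟨i, rfl⟩))

open MvPowerSeries in
theorem core {A : Type} [CommRing A] [IsDomain A] [Algebra ℝ A] {k n : ℕ}
    (π : MvPowerSeries (Fin k) ℝ →ₐ[ℝ] A) (hπ : Function.Surjective π)
    (f : MvPowerSeries (Fin k) ℝ) (hf : constantCoeff f = 0) (hfQ : π f ≠ 0)
    (v : Fin n → A)
    (hv : ∀ a : A, ∃ φ : Fin n → PowerSeries ℝ, a = ∑ j, π (PowerSeries.subst f (φ j)) * v j)
    (hd : ∀ i : Fin k, π (pderiv ℝ i f) = 0) : False := by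
  classical
  have hs : PowerSeries.HasSubst f := PowerSeries.HasSubst.of_constantCoeff_zero hf
  let σ : PowerSeries ℝ →ₐ[ℝ] A := π.comp (PowerSeries.substAlgHom hs)
  have hσ : ∀ φ, σ φ = π (PowerSeries.subst f φ) := by
    intro φ
    show π (PowerSeries.substAlgHom hs φ) = _
    rw [PowerSeries.coe_substAlgHom]
  have hσX : σ PowerSeries.X = π f := by
    rw [hσ, PowerSeries.subst_X hs]
  letI : Algebra (PowerSeries ℝ) A := σ.toRingHom.toAlgebra
  have halg : ∀ φ, algebraMap (PowerSeries ℝ) A φ = σ φ := fun φ => rfl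
  haveI : IsScalarTower ℝ (PowerSeries ℝ) A := IsScalarTower.of_algebraMap_eq (fun r => by
    rw [halg]; exact (σ.commutes r).symm)
  have hinj : Function.Injective (algebraMap (PowerSeries ℝ) A) := by
    rw [injective_iff_map_eq_zero]
    intro φ hφ
    by_contra hne
    obtain ⟨m, u, hu⟩ := IsDiscreteValuationRing.associated_pow_irreducible hne
      (PowerSeries.X_prime (R := ℝ)).irreducible
    have h1 : σ (PowerSeries.X ^ m) = 0 := by
      rw [← hu, map_mul]
      rw [halg] at hφ
      rw [hφ, zero_mul]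
    rw [map_pow, hσX] at h1
    exact pow_ne_zero m hfQ h1
  haveI : Module.Finite (PowerSeries ℝ) A := by
    refine ⟨⟨Finset.univ.image v, ?_⟩⟩
    rw [eq_top_iff]
    intro a _
    obtain ⟨φ, hφ⟩ := hv a
    rw [hφ]
    apply Submodule.sum_mem
    intro j _
    have h1 : π (PowerSeries.subst f (φ j)) * v j = φ j • v j := by
      rw [Algebra.smul_def, halg, hσ]
    rw [h1]
    apply Submodule.smul_mem
    apply Submodule.subset_span
    simp
  obtain ⟨D, hD⟩ := ext_deriv hinj (PowerSeries.derivative ℝ)
  let ι : A →+* FractionRing A := algebraMap A (FractionRing A)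
  have hι : Function.Injective ι := IsFractionRing.injective A (FractionRing A)
  have hιπ : ∀ r : ℝ, ι (π (C r)) = algebraMap ℝ (FractionRing A) r := by
    intro r
    have h1 : π (C r) = algebraMap ℝ A r := by
      have := π.commutes r
      rwa [MvPowerSeries.algebraMap_apply, Algebra.algebraMap_self, RingHom.id_apply] at this
    rw [h1]
    exact (IsScalarTower.algebraMap_apply ℝ A (FractionRing A) r).symm
  have hDσ : ∀ φ : PowerSeries ℝ, D (ι (σ φ)) = ι (σ (PowerSeries.derivative ℝ φ)) := by
    intro φ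
    have h1 := hD φ
    rw [IsScalarTower.algebraMap_apply (PowerSeries ℝ) A (FractionRing A),
      IsScalarTower.algebraMap_apply (PowerSeries ℝ) A (FractionRing A)] at h1
    exact h1
  -- common denominator
  obtain ⟨c, hc⟩ := IsLocalization.exist_integer_multiples_of_finset (nonZeroDivisors A)
    ((Finset.univ.image (fun j => D (ι (v j)))) ∪
      (Finset.univ.image (fun i : Fin k => D (ι (π (X i))))))
  have hc0 : ι (c : A) ≠ 0 := by
    intro h
    have h1 : (c : A) = 0 := hι (by rw [h, map_zero])
    exact nonZeroDivisors.ne_zero c.2 h1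
  have hcv : ∀ j, ∃ a, ι a = ι c * D (ι (v j)) := by
    intro j
    obtain ⟨a, ha⟩ := hc (D (ι (v j))) (Finset.mem_union_left _ (Finset.mem_image_of_mem _ (Finset.mem_univ j)))
    exact ⟨a, by rw [show ι a = _ from ha]; exact Algebra.smul_def _ _⟩
  have hcx : ∀ i : Fin k, ∃ a, ι a = ι c * D (ι (π (X i))) := by
    intro i
    obtain ⟨a, ha⟩ := hc (D (ι (π (X i)))) (Finset.mem_union_right _ (Finset.mem_image_of_mem _ (Finset.mem_univ i)))
    exact ⟨a, by rw [show ι a = _ from ha]; exact Algebra.smul_def _ _⟩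
  have hcD : ∀ a : A, ∃ a', ι a' = ι c * D (ι a) := by
    intro a
    obtain ⟨φ, hφ⟩ := hv a
    choose w hw using hcv
    refine ⟨∑ j, (σ (φ j) * w j + c * (v j * σ (PowerSeries.derivative ℝ (φ j)))), ?_⟩
    rw [hφ, map_sum, map_sum, map_sum, Finset.mul_sum]
    apply Finset.sum_congr rfl
    intro j _
    rw [← hσ, map_mul, Derivation.leibniz, hDσ, map_add, map_mul, map_mul, map_mul, hw,
      smul_eq_mul, smul_eq_mul]
    ring
  choose x hx using hcx
  let δ : MvPowerSeries (Fin k) ℝ → FractionRing A := fun g =>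
    D (ι (π g)) - ∑ i, D (ι (π (X i))) * ι (π (pderiv ℝ i g))
  have hδ : ∀ g, δ g = D (ι (π g)) - ∑ i, D (ι (π (X i))) * ι (π (pderiv ℝ i g)) := fun g => rfl
  have hδadd : ∀ g h, δ (g + h) = δ g + δ h := by
    intro g h
    simp only [hδ, map_add, mul_add, Finset.sum_add_distrib]
    ring
  have hδsub : ∀ g h, δ (g - h) = δ g - δ h := by
    intro g h
    simp only [hδ, map_sub, mul_sub, Finset.sum_sub_distrib]
    ring
  have hδmul : ∀ g h, δ (g * h) = ι (π g) * δ h + ι (π h) * δ g := by
    intro g h
    simp only [hδ, map_mul, Derivation.leibniz, smul_eq_mul, map_add, mul_add, mul_sub,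
      Finset.sum_add_distrib, Finset.mul_sum]
    have h1 : ∀ i : Fin k, D (ι (π (X i))) * (ι (π g) * ι (π (pderiv ℝ i h))) =
        ι (π g) * (D (ι (π (X i))) * ι (π (pderiv ℝ i h))) := fun i => by ring
    have h2 : ∀ i : Fin k, D (ι (π (X i))) * (ι (π h) * ι (π (pderiv ℝ i g))) =
        ι (π h) * (D (ι (π (X i))) * ι (π (pderiv ℝ i g))) := fun i => by ring
    rw [Finset.sum_congr rfl (fun i _ => h1 i), Finset.sum_congr rfl (fun i _ => h2 i)]
    ring
  have hδC : ∀ r : ℝ, δ (C r) = 0 := by
    intro r
    rw [hδ, hιπ, Derivation.map_algebraMap]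
    simp
  have hδX : ∀ i, δ (X i) = 0 := by
    intro i
    rw [hδ, Finset.sum_eq_single i]
    · rw [pderiv_X_self, map_one, map_one, mul_one, sub_self]
    · intro j _ hj
      rw [pderiv_X_of_ne (Ne.symm hj), map_zero, map_zero, mul_zero]
    · intro h
      exact absurd (Finset.mem_univ i) h
  have hδp : ∀ p : MvPolynomial (Fin k) ℝ, δ (p : MvPowerSeries (Fin k) ℝ) = 0 := by
    intro p
    induction p using MvPolynomial.induction_on with
    | C r => rw [MvPolynomial.coe_C]; exact hδC r
    | add p q hp hq => rw [MvPolynomial.coe_add, hδadd, hp, hq, add_zero]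
    | mul_X p i hp =>
      rw [MvPolynomial.coe_mul, MvPolynomial.coe_X, hδmul, hp, hδX, mul_zero, mul_zero, add_zero]
  have hcδ : ∀ g, ∃ a, ι a = ι c * δ g := by
    intro g
    obtain ⟨a, ha⟩ := hcD (π g)
    refine ⟨a - ∑ i, x i * π (pderiv ℝ i g), ?_⟩
    rw [map_sub, ha, map_sum, hδ, mul_sub, Finset.mul_sum]
    congr 1
    apply Finset.sum_congr rfl
    intro i _
    rw [map_mul, hx]
    ring
  let m : Ideal (MvPowerSeries (Fin k) ℝ) :=
    Ideal.span (Set.range (fun i : Fin k => (X i : MvPowerSeries (Fin k) ℝ)))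
  let I : Ideal A := m.map π
  have hstep : ∀ J : ℕ, ∀ h ∈ m ^ (J + 1), ∃ a ∈ I ^ J, ι a = ι c * δ h := by
    intro J
    induction J with
    | zero =>
      intro h _
      obtain ⟨a, ha⟩ := hcδ h
      exact ⟨a, by simp, ha⟩
    | succ J ih =>
      intro h hh
      rw [pow_succ] at hh
      refine Submodule.mul_induction_on hh ?_ ?_
      · intro r hr s hs
        obtain ⟨a1, ha1⟩ := hcδ s
        obtain ⟨a2, ha2m, ha2⟩ := ih r hr
        refine ⟨π r * a1 + π s * a2, ?_, ?_⟩
        · apply Ideal.add_mem
          · apply Ideal.mul_mem_right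
            have h1 : π r ∈ (m ^ (J+1)).map π := Ideal.mem_map_of_mem π hr
            rwa [Ideal.map_pow] at h1
          · rw [pow_succ, mul_comm (π s) a2]
            exact Ideal.mul_mem_mul ha2m (Ideal.mem_map_of_mem π hs)
        · rw [map_add, map_mul, map_mul, ha1, ha2, hδmul]
          ring
      · intro r s hr hs
        obtain ⟨a1, ha1m, ha1⟩ := hr
        obtain ⟨a2, ha2m, ha2⟩ := hs
        exact ⟨a1 + a2, Ideal.add_mem _ ha1m ha2m, by rw [map_add, ha1, ha2, hδadd, mul_add]⟩
  have hItop : I ≠ ⊤ := by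
    intro h
    have h1 : (1 : A) ∈ m.map π := by
      show (1 : A) ∈ I
      rw [h]; trivial
    rw [Ideal.mem_map_iff_of_surjective π hπ] at h1
    obtain ⟨y, hy, hy1⟩ := h1
    have h2 : constantCoeff y = 0 := by
      have h3 : m ≤ RingHom.ker (constantCoeff (σ := Fin k) (R := ℝ)) := by
        rw [Ideal.span_le]
        rintro _ ⟨i, rfl⟩
        exact constantCoeff_X i
      exact h3 hy
    have h4 : IsUnit (1 - y) := by
      rw [isUnit_iff_constantCoeff, map_sub, map_one, h2, sub_zero]
      exact isUnit_one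
    have h5 : π (1 - y) = 0 := by rw [map_sub, map_one, hy1, sub_self]
    have h6 := h4.map π
    rw [h5] at h6
    exact not_isUnit_zero h6
  haveI : IsNoetherianRing A := isNoetherianRing_of_surjective _ _ π.toRingHom hπ
  have hkrull := Ideal.iInf_pow_eq_bot_of_isDomain I hItop
  have hδ0 : ∀ g, δ g = 0 := by
    intro g
    obtain ⟨a, ha⟩ := hcδ g
    have h1 : a ∈ (⨅ J : ℕ, I ^ J) := by
      rw [Ideal.mem_iInf]
      intro J
      obtain ⟨p, hp⟩ := trunc_dec (J+1) g
      obtain ⟨a', ha'm, ha'⟩ := hstep J _ hp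
      rw [hδsub, hδp, sub_zero] at ha'
      have : a = a' := hι (by rw [ha, ha'])
      rw [this]
      exact ha'm
    rw [hkrull, Ideal.mem_bot] at h1
    rw [h1, map_zero] at ha
    rcases mul_eq_zero.mp ha.symm with h | h
    · exact absurd h hc0
    · exact h
  have hf1 : D (ι (π f)) = 1 := by
    rw [← hσX, hDσ]
    have h1 : PowerSeries.derivative ℝ (PowerSeries.X : PowerSeries ℝ) = 1 := by
      simp
    rw [h1, map_one, map_one]
  have hf2 := hδ0 f
  rw [hδ, hf1] at hf2
  have hf3 : ∑ i, D (ι (π (X i))) * ι (π (pderiv ℝ i f)) = 0 :=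
    Finset.sum_eq_zero (fun i _ => by rw [hd i, map_zero, mul_zero])
  rw [hf3, sub_zero] at hf2
  exact one_ne_zero hf2

theorem deriv_contra {k : ℕ} (Q : Ideal (MvPowerSeries (Fin k) ℝ)) [Q.IsPrime]
    (f : MvPowerSeries (Fin k) ℝ) (hf : MvPowerSeries.constantCoeff f = 0) (hfQ : f ∉ Q)
    (n : ℕ) (v : Fin n → MvPowerSeries (Fin k) ℝ)
    (hv : ∀ g : MvPowerSeries (Fin k) ℝ,
      ∃ φ : Fin n → PowerSeries ℝ, g - ∑ j, PowerSeries.subst f (φ j) * v j ∈ Q)
    (hd : ∀ i : Fin k, MvPowerSeries.pderiv ℝ i f ∈ Q) : False := by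
  refine core (Ideal.Quotient.mkₐ ℝ Q) Ideal.Quotient.mk_surjective f hf
    (fun h => hfQ (Ideal.Quotient.eq_zero_iff_mem.mp h)) (fun j => Ideal.Quotient.mk Q (v j)) ?_
    (fun i => Ideal.Quotient.eq_zero_iff_mem.mpr (hd i))
  intro a
  obtain ⟨g, rfl⟩ := Ideal.Quotient.mk_surjective a
  obtain ⟨φ, hφ⟩ := hv g
  refine ⟨φ, ?_⟩
  have h1 := Ideal.Quotient.eq.mpr hφ
  rw [h1, map_sum]
  apply Finset.sum_congr rfl
  intro j _
  rw [map_mul]
  rfl


end Pool.Agent.Helper420.QI.R3
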