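import Pool.Agent.Helper420.QI.K3
import Pool.Agent.Helper420.QI.F5
import Pool.Agent.Helper420.QI.R1
import Pool.Agent.Helper420.QI.R2
import Pool.Agent.Helper420.QI.R3
set_option autoImplicit false
set_option linter.unusedSectionVars false
set_option linter.unusedVariables false
open Filter Topology

namespace Pool.Agent.Helper420.QI.Loja

/-- a power series without constant term is nilpotent modulo its partial derivatives -/
theorem formal_radical {k : ℕ} (f : MvPowerSeries (Fin k) ℝ)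
    (hf : MvPowerSeries.constantCoeff f = 0) :
    ∃ N : ℕ, f ^ N ∈ Ideal.span (Set.range fun i : Fin k => MvPowerSeries.pderiv ℝ i f) := by
  by_contra hcon
  push Not at hcon
  set I := Ideal.span (Set.range fun i : Fin k => MvPowerSeries.pderiv ℝ i f) with hI
  set S : Set (Ideal (MvPowerSeries (Fin k) ℝ)) := {J | I ≤ J ∧ ∀ n : ℕ, f ^ n ∉ J} with hS
  have hne : S.Nonempty := ⟨I, le_rfl, hcon⟩
  obtain ⟨Q, hQS, hQmax⟩ := (wellFounded_gt (α := Ideal (MvPowerSeries (Fin k) ℝ))).has_min S hne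
  have hQp : Q.IsPrime := by
    apply Ideal.isPrime_of_maximally_disjoint Q (Submonoid.powers f)
    · rw [Set.disjoint_left]
      rintro x hx ⟨n, rfl⟩
      exact hQS.2 n hx
    · intro J hJ hdis
      apply hQmax J ⟨hQS.1.trans hJ.le, fun n hn => ?_⟩ hJ
      rw [Set.disjoint_left] at hdis
      exact hdis hn ⟨n, rfl⟩
  have hQt : Q ≠ ⊤ := hQp.ne_top
  have hfQ : f ∉ Q := by
    have := hQS.2 1
    rwa [pow_one] at this
  have hnt : Nontrivial (MvPowerSeries (Fin k) ℝ ⧸ Q) := Ideal.Quotient.nontrivial_iff.mpr hQt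
  have hloc : IsLocalRing (MvPowerSeries (Fin k) ℝ ⧸ Q) :=
    IsLocalRing.of_surjective' (Ideal.Quotient.mk Q) Ideal.Quotient.mk_surjective
  have hdom : IsDomain (MvPowerSeries (Fin k) ℝ ⧸ Q) := Ideal.Quotient.isDomain Q
  have hf0 : (Ideal.Quotient.mk Q f) ≠ 0 := by
    rw [Ne, Ideal.Quotient.eq_zero_iff_mem]
    exact hfQ
  obtain ⟨N, hN⟩ := R1.max_pow_le hf0 (by
    intro J hJ
    have h1 : Q < J.comap (Ideal.Quotient.mk Q) := by
      refine lt_of_le_of_ne ?_ ?_
      · intro x hx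
        rw [Ideal.mem_comap, Ideal.Quotient.eq_zero_iff_mem.mpr hx]
        exact J.zero_mem
      · intro heq
        apply hJ
        rw [eq_bot_iff]
        intro y hy
        obtain ⟨x, rfl⟩ := Ideal.Quotient.mk_surjective y
        have h2 : x ∈ J.comap (Ideal.Quotient.mk Q) := hy
        rw [← heq] at h2
        rw [Ideal.mem_bot]
        exact Ideal.Quotient.eq_zero_iff_mem.mpr h2
    by_contra hno
    push Not at hno
    apply hQmax (J.comap (Ideal.Quotient.mk Q)) ⟨hQS.1.trans h1.le, fun n hn => ?_⟩ h1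
    apply hno n
    rw [Ideal.mem_comap, map_pow] at hn
    exact hn)
  have hN' : IsLocalRing.maximalIdeal (MvPowerSeries (Fin k) ℝ) ^ N ≤ Ideal.span {f} ⊔ Q := by
    intro x hx
    have h1 : Ideal.map (Ideal.Quotient.mk Q) (IsLocalRing.maximalIdeal (MvPowerSeries (Fin k) ℝ)) ≤
        IsLocalRing.maximalIdeal (MvPowerSeries (Fin k) ℝ ⧸ Q) := by
      rw [Ideal.map_le_iff_le_comap]
      intro y hy
      rw [Ideal.mem_comap, IsLocalRing.mem_maximalIdeal, mem_nonunits_iff]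
      intro hu
      obtain ⟨z, hz⟩ := hu.exists_right_inv
      obtain ⟨z, rfl⟩ := Ideal.Quotient.mk_surjective z
      rw [← map_mul, ← map_one (Ideal.Quotient.mk Q), Ideal.Quotient.eq] at hz
      have h2 := IsLocalRing.le_maximalIdeal hQt hz
      have h3 : y * z ∈ IsLocalRing.maximalIdeal (MvPowerSeries (Fin k) ℝ) := Ideal.mul_mem_right _ _ hy
      have h4 : (1 : MvPowerSeries (Fin k) ℝ) ∈ IsLocalRing.maximalIdeal (MvPowerSeries (Fin k) ℝ) := by
        have := Ideal.sub_mem _ h3 h2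
        rwa [sub_sub_cancel] at this
      exact (Ideal.ne_top_iff_one _).mp (IsLocalRing.maximalIdeal.isMaximal _).ne_top h4
    have h2 : Ideal.Quotient.mk Q x ∈ Ideal.span {Ideal.Quotient.mk Q f} := by
      apply hN
      apply Ideal.pow_right_mono h1 N
      rw [← Ideal.map_pow]
      exact Ideal.mem_map_of_mem _ hx
    rw [Ideal.mem_span_singleton'] at h2
    obtain ⟨a, ha⟩ := h2
    obtain ⟨a, rfl⟩ := Ideal.Quotient.mk_surjective a
    rw [← map_mul] at ha
    have h3 := (Ideal.Quotient.eq.mp ha.symm)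
    have h4 : x = a * f + (x - a * f) := by ring
    rw [h4]
    exact Submodule.add_mem_sup (Ideal.mem_span_singleton'.mpr ⟨a, rfl⟩) h3
  obtain ⟨n, v, hv⟩ := R2.finite_over Q hQt f hf N hN'
  exact R3.deriv_contra Q f hf hfQ n v hv fun i => hQS.1 (Ideal.subset_span ⟨i, rfl⟩)

theorem isConv_C {k : ℕ} (c : ℝ) : IsConv (MvPowerSeries.C (σ := Fin k) c) := by
  refine ⟨1, one_pos, ?_⟩
  apply summable_of_ne_finset_zero (s := {0})
  intro α hα
  have : α ≠ 0 := by simpa using hα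
  rw [MvPowerSeries.coeff_C, if_neg this]
  simp

theorem ev_C {k : ℕ} (c : ℝ) (x : Fin k → ℝ) : ev (MvPowerSeries.C (σ := Fin k) c) x = c := by
  unfold ev
  rw [tsum_eq_single 0]
  · simp
  · intro α hα
    rw [MvPowerSeries.coeff_C, if_neg hα, zero_mul]

theorem ev_at_zero {k : ℕ} (F : MvPowerSeries (Fin k) ℝ) :
    ev F 0 = MvPowerSeries.constantCoeff F := by
  unfold ev
  rw [tsum_eq_single 0]
  · simp
  · intro α hα
    obtain ⟨i, hi⟩ : ∃ i, α i ≠ 0 := by
      by_contra h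
      push Not at h
      exact hα (Finsupp.ext h)
    rw [Finset.prod_eq_zero (Finset.mem_univ i) (by simp [hi]), mul_zero]

theorem ev_pow {k : ℕ} {F : MvPowerSeries (Fin k) ℝ} (hF : IsConv F) (N : ℕ) :
    IsConv (F ^ N) ∧ ∀ᶠ x in 𝓝 (0 : Fin k → ℝ), ev (F ^ N) x = (ev F x) ^ N := by
  induction N with
  | zero =>
    have h1 : (F ^ 0 : MvPowerSeries (Fin k) ℝ) = MvPowerSeries.C (σ := Fin k) 1 := by simp
    rw [h1]
    exact ⟨isConv_C 1, Eventually.of_forall fun x => by rw [ev_C, pow_zero]⟩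
  | succ N ih =>
    have h1 := F6.conv_alg (F ^ N) F ih.1 hF
    rw [pow_succ]
    refine ⟨h1.2.1, ?_⟩
    filter_upwards [ih.2, h1.2.2] with x e1 e2
    rw [e2.2, e1, pow_succ]

theorem ev_sum {k : ℕ} {ι : Type} (s : Finset ι) (a : ι → MvPowerSeries (Fin k) ℝ)
    (ha : ∀ i, IsConv (a i)) :
    IsConv (∑ i ∈ s, a i) ∧ ∀ᶠ x in 𝓝 (0 : Fin k → ℝ), ev (∑ i ∈ s, a i) x = ∑ i ∈ s, ev (a i) x := by
  classical
  induction s using Finset.induction_on with
  | empty =>
    have h1 : (∑ i ∈ (∅ : Finset ι), a i) = MvPowerSeries.C (σ := Fin k) 0 := by simp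
    rw [h1]
    exact ⟨isConv_C 0, Eventually.of_forall fun x => by rw [ev_C]; simp⟩
  | insert i s his ih =>
    have h1 := F6.conv_alg (a i) (∑ i ∈ s, a i) (ha i) ih.1
    rw [Finset.sum_insert his]
    refine ⟨h1.1, ?_⟩
    filter_upwards [ih.2, h1.2.2] with x e1 e2
    rw [e2.1, e1, Finset.sum_insert his]

/-- critical points of an analytic function near a point lie on the level of that point -/
theorem loja {k : ℕ} {f : (Fin k → ℝ) → ℝ} (hf : AnalyticAt ℝ f 0) :
    ∀ᶠ x in 𝓝 (0 : Fin k → ℝ), fderiv ℝ f x = 0 → f x = f 0 := by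
  obtain ⟨F, hF, hev⟩ := F5.analytic_conv hf
  set c := MvPowerSeries.constantCoeff F with hc
  set F' := F + MvPowerSeries.C (σ := Fin k) (-c) with hF'
  have hF'c : IsConv F' := (F6.conv_alg F _ hF (isConv_C (-c))).1
  have hF'0 : MvPowerSeries.constantCoeff F' = 0 := by
    rw [hF', map_add, MvPowerSeries.constantCoeff_C, ← hc]; ring
  have hpd : ∀ i, MvPowerSeries.pderiv ℝ i F' = MvPowerSeries.pderiv ℝ i F := by
    intro i
    rw [hF', map_add]
    have : MvPowerSeries.pderiv ℝ i (MvPowerSeries.C (σ := Fin k) (-c)) = 0 := by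
      have h1 := (MvPowerSeries.pderiv ℝ i : Derivation ℝ (MvPowerSeries (Fin k) ℝ) (MvPowerSeries (Fin k) ℝ)).map_algebraMap (-c)
      exact h1
    rw [this, add_zero]
  obtain ⟨N, hN⟩ := formal_radical F' hF'0
  have hN1 : F' ^ (N + 1) ∈ Ideal.span (Set.range fun i : Fin k => MvPowerSeries.pderiv ℝ i F') := by
    rw [pow_succ]
    exact Ideal.mul_mem_right _ _ hN
  obtain ⟨a, ha, hsum⟩ := K3.conv_mem (fun i : Fin k => MvPowerSeries.pderiv ℝ i F')
    (fun i => F6.conv_pderiv F' i hF'c) (F' ^ (N + 1)) (ev_pow hF'c (N + 1)).1 hN1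
  have hprod : ∀ i : Fin k, IsConv (a i * MvPowerSeries.pderiv ℝ i F') ∧
      ∀ᶠ x in 𝓝 (0 : Fin k → ℝ), ev (a i * MvPowerSeries.pderiv ℝ i F') x =
        ev (a i) x * ev (MvPowerSeries.pderiv ℝ i F') x := by
    intro i
    have h1 := F6.conv_alg (a i) (MvPowerSeries.pderiv ℝ i F') (ha i) (F6.conv_pderiv F' i hF'c)
    exact ⟨h1.2.1, h1.2.2.mono fun x hx => hx.2⟩
  have hall : ∀ᶠ x in 𝓝 (0 : Fin k → ℝ), ∀ i : Fin k, ev (a i * MvPowerSeries.pderiv ℝ i F') x =
        ev (a i) x * ev (MvPowerSeries.pderiv ℝ i F') x :=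
    eventually_all.mpr fun i => (hprod i).2
  have hf0 : f 0 = c := by
    have := hev.self_of_nhds.1
    rw [this, ev_at_zero]
  filter_upwards [hev, (ev_pow hF'c (N + 1)).2,
    (ev_sum Finset.univ (fun i => a i * MvPowerSeries.pderiv ℝ i F') fun i => (hprod i).1).2,
    hall, (F6.conv_alg F _ hF (isConv_C (-c))).2.2] with x e1 e2 e3 e4 e5 hx
  have e6 : ev F' x = 0 := by
    have e7 : (ev F' x) ^ (N + 1) = 0 := by
      rw [← e2, hsum, e3]
      apply Finset.sum_eq_zero
      intro i _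
      rw [e4 i, hpd i, ← e1.2 i, hx]
      simp
    exact pow_eq_zero_iff (Nat.succ_ne_zero N) |>.mp e7
  have e8 : ev F' x = ev F x - c := by
    rw [hF', e5.1, ev_C]; ring
  rw [hf0, e1.1]
  linarith

end Pool.Agent.Helper420.QI.Loja
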