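import Mathlib
set_option autoImplicit false
open Filter Topology

namespace Pool.Agent.Helper420.QI

/-- convergent power series -/
def IsConv {k : ℕ} (g : MvPowerSeries (Fin k) ℝ) : Prop :=
  ∃ ρ : ℝ, 0 < ρ ∧ Summable (fun α : Fin k →₀ ℕ => |MvPowerSeries.coeff α g| * ρ ^ α.degree)

/-- value of a power series at a point -/
noncomputable def ev {k : ℕ} (g : MvPowerSeries (Fin k) ℝ) (x : Fin k → ℝ) : ℝ :=
  ∑' α : Fin k →₀ ℕ, MvPowerSeries.coeff α g * ∏ i, x i ^ α i

end Pool.Agent.Helper420.QI
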