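import Mathlib
set_option autoImplicit false
open Filter Topology Set
open scoped InnerProductSpace

namespace Pool.Agent.Helper420.QI

/-- a substitute for weak sequential compactness -/
theorem exists_weak_limit {H : Type*} [NormedAddCommGroup H] [InnerProductSpace ℝ H] [CompleteSpace H]
    (w : ℕ → H) {R : ℝ} (hR : ∀ n, ‖w n‖ ≤ R) :
    ∃ z : H, ∀ K, z ∈ closure (convexHull ℝ (w '' Ici K)) := by
  set C : ℕ → Set H := fun K => closure (convexHull ℝ (w '' Ici K)) with hC
  have hCne : ∀ K, (C K).Nonempty := fun K =>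
    ⟨w K, subset_closure (subset_convexHull ℝ _ ⟨K, mem_Ici.mpr le_rfl, rfl⟩)⟩
  have hCc : ∀ K, IsComplete (C K) := fun K => isClosed_closure.isComplete
  have hCv : ∀ K, Convex ℝ (C K) := fun K => (convex_convexHull ℝ _).closure
  have hmono : ∀ K L, K ≤ L → C L ⊆ C K := fun K L h =>
    closure_mono (convexHull_mono (image_mono (Ici_subset_Ici.mpr h)))
  have hball : ∀ K, C K ⊆ Metric.closedBall 0 R := by
    intro K
    apply closure_minimal _ Metric.isClosed_closedBall
    apply convexHull_min _ (convex_closedBall _ _)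
    rintro _ ⟨n, _, rfl⟩
    simpa using hR n
  choose p hpC hp using fun K => exists_norm_eq_iInf_of_complete_convex (hCne K) (hCc K) (hCv K) (0 : H)
  have hmin : ∀ K, ∀ y ∈ C K, ‖p K‖ ≤ ‖y‖ := by
    intro K y hy
    have h1 := hp K
    simp only [zero_sub, norm_neg] at h1
    rw [h1]
    have hb : BddBelow (range fun w : C K => ‖(w : H)‖) := ⟨0, by rintro _ ⟨z, rfl⟩; positivity⟩
    exact ciInf_le hb ⟨y, hy⟩
  have hm : Monotone fun K => ‖p K‖ ^ 2 := by
    intro K L h
    have := hmin K (p L) (hmono K L h (hpC L))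
    dsimp only
    gcongr
  have hbdd : ∀ K, ‖p K‖ ^ 2 ≤ R ^ 2 := by
    intro K
    have := hball K (hpC K)
    simp only [Metric.mem_closedBall, dist_zero_right] at this
    gcongr
  have hconv : ∃ l, Tendsto (fun K => ‖p K‖ ^ 2) atTop (𝓝 l) :=
    ⟨_, tendsto_atTop_ciSup hm ⟨R ^ 2, by rintro _ ⟨K, rfl⟩; exact hbdd K⟩⟩
  obtain ⟨l, hl⟩ := hconv
  have hpar : ∀ K L, K ≤ L → ‖p K - p L‖ ^ 2 ≤ 2 * (‖p L‖ ^ 2 - ‖p K‖ ^ 2) := by
    intro K L h
    have h1 : (1/2 : ℝ) • p K + (1/2 : ℝ) • p L ∈ C K :=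
      hCv K (hpC K) (hmono K L h (hpC L)) (by norm_num) (by norm_num) (by norm_num)
    have h2 := hmin K _ h1
    have h3 : ‖(1/2 : ℝ) • p K + (1/2 : ℝ) • p L‖ = (1/2) * ‖p K + p L‖ := by
      rw [← smul_add, norm_smul]; norm_num
    rw [h3] at h2
    have h4 : ‖p K + p L‖ ^ 2 + ‖p K - p L‖ ^ 2 = 2 * (‖p K‖ ^ 2 + ‖p L‖ ^ 2) := by
      have := parallelogram_law_with_norm ℝ (p K) (p L)
      nlinarith
    have h5 : (2 * ‖p K‖) ^ 2 ≤ ‖p K + p L‖ ^ 2 := by
      have : 2 * ‖p K‖ ≤ ‖p K + p L‖ := by linarith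
      gcongr
    nlinarith
  have hcau : CauchySeq p := by
    rw [Metric.cauchySeq_iff']
    intro ε hε
    have h1 := (hl.const_sub l).const_mul 2
    simp only [sub_self, mul_zero] at h1
    have h2 := (Metric.tendsto_atTop.mp h1) (ε ^ 2) (by positivity)
    obtain ⟨K, hK⟩ := h2
    refine ⟨K, fun n hn => ?_⟩
    have h3 := hK K le_rfl
    rw [Real.dist_eq, sub_zero] at h3
    have h4 : ‖p n‖ ^ 2 ≤ l := ge_of_tendsto hl (by
      filter_upwards [eventually_ge_atTop n] with m hmn
      exact hm hmn)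
    have h5 := hpar K n hn
    have h6 := le_abs_self (2 * (l - ‖p K‖ ^ 2))
    have h7 : ‖p K - p n‖ ^ 2 < ε ^ 2 := by nlinarith
    rw [dist_comm, dist_eq_norm]
    exact lt_of_pow_lt_pow_left₀ 2 hε.le h7
  obtain ⟨z, hz⟩ := cauchySeq_tendsto_of_complete hcau
  refine ⟨z, fun K => ?_⟩
  apply isClosed_closure.mem_of_tendsto hz
  filter_upwards [eventually_ge_atTop K] with n hn
  exact hmono K n hn (hpC n)

/-- closed convex conditions pass to the weak limit -/
theorem weak_limit_mem {H : Type*} [NormedAddCommGroup H] [InnerProductSpace ℝ H]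
    {w : ℕ → H} {z : H} (hz : ∀ K, z ∈ closure (convexHull ℝ (w '' Ici K)))
    {F : H → ℝ} (hF : ConvexOn ℝ univ F) (hFc : Continuous F) {c : ℝ}
    (h : ∀ ε > 0, ∀ᶠ n in atTop, F (w n) ≤ c + ε) : F z ≤ c := by
  apply le_of_forall_pos_le_add
  intro ε hε
  obtain ⟨K, hK⟩ := eventually_atTop.mp (h ε hε)
  have h1 : closure (convexHull ℝ (w '' Ici K)) ⊆ {y | F y ≤ c + ε} := by
    apply closure_minimal
    · apply convexHull_min
      · rintro _ ⟨n, hn, rfl⟩
        exact hK n hn
      · have := hF.convex_le (c + ε)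
        simpa using this
    · exact isClosed_le hFc continuous_const
  exact h1 (hz K)

/-- images under continuous linear maps of the weak limit -/
theorem weak_limit_map {H Y : Type*} [NormedAddCommGroup H] [InnerProductSpace ℝ H]
    [NormedAddCommGroup Y] [NormedSpace ℝ Y]
    {w : ℕ → H} {z : H} (hz : ∀ K, z ∈ closure (convexHull ℝ (w '' Ici K)))
    (L : H →L[ℝ] Y) {y : Y} (h : Tendsto (fun n => L (w n)) atTop (𝓝 y)) : L z = y := by
  have h1 : ‖L z - y‖ ≤ 0 := by
    apply weak_limit_mem hz (F := fun x => ‖L x - y‖)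
    · have h2 : ConvexOn ℝ univ (fun v : Y => ‖v - y‖) := by
        have := (convexOn_norm (convex_univ (𝕜 := ℝ) (E := Y))).translate_left (-y)
        simpa [sub_eq_add_neg, Function.comp_def] using this
      exact h2.comp_linearMap L.toLinearMap
    · fun_prop
    · intro ε hε
      have h3 := (tendsto_iff_norm_sub_tendsto_zero.mp h)
      filter_upwards [h3.eventually (gt_mem_nhds hε)] with n hn
      linarith
  have h2 := norm_le_zero_iff.mp h1
  exact sub_eq_zero.mp h2

end Pool.Agent.Helper420.QI
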