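import Pool.Agent.Helper420.QI.Sob3
import Pool.Agent.Helper420.QI.Weak
set_option autoImplicit false
set_option linter.unusedSectionVars false
open MeasureTheory Metric Set Filter Topology
open scoped ENNReal NNReal InnerProductSpace

namespace Pool.Agent.Helper420.QI.Conc

open Pool.Agent.Helper420.QI.QEig Pool.Agent.Helper420.QI.Sob

variable {N : ℕ}

/-- square integrable functions -/
abbrev L2f (N : ℕ) : Type := Lp ℝ 2 (volume : Measure (EuclideanSpace ℝ (Fin N)))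

/-- square integrable vector fields -/
abbrev L2v (N : ℕ) : Type := Lp (EuclideanSpace ℝ (Fin N)) 2 (volume : Measure (EuclideanSpace ℝ (Fin N)))

/-- graph of the gradient on test functions -/
noncomputable def PS (Ω : Set (EuclideanSpace ℝ (Fin N))) : Submodule ℝ (L2f N × L2v N) where
  carrier := {p | ∃ φ : EuclideanSpace ℝ (Fin N) → ℝ, IsTest Ω φ ∧
    (p.1 : EuclideanSpace ℝ (Fin N) → ℝ) =ᵐ[volume] φ ∧
    (p.2 : EuclideanSpace ℝ (Fin N) → EuclideanSpace ℝ (Fin N)) =ᵐ[volume] gradient φ}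
  add_mem' := by
    rintro a b ⟨φ, hφ, h1, h2⟩ ⟨ψ, hψ, h3, h4⟩
    refine ⟨fun x => φ x + ψ x, isTest_add hφ hψ, ?_, ?_⟩
    · rw [Prod.fst_add]
      filter_upwards [Lp.coeFn_add a.1 b.1, h1, h3] with x e1 e2 e3
      rw [e1, Pi.add_apply, e2, e3]
    · rw [Prod.snd_add, gradient_add' hφ hψ]
      filter_upwards [Lp.coeFn_add a.2 b.2, h2, h4] with x e1 e2 e3
      rw [e1, Pi.add_apply, e2, e3]
  zero_mem' := by
    refine ⟨fun _ => 0, isTest_zero, ?_, ?_⟩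
    · rw [Prod.fst_zero]
      filter_upwards [Lp.coeFn_zero ℝ 2 (volume : Measure (EuclideanSpace ℝ (Fin N)))] with x e1
      rw [e1, Pi.zero_apply]
    · rw [Prod.snd_zero]
      filter_upwards [Lp.coeFn_zero (EuclideanSpace ℝ (Fin N)) 2
        (volume : Measure (EuclideanSpace ℝ (Fin N)))] with x e1
      rw [e1, Pi.zero_apply, gradient]
      simp
  smul_mem' := by
    rintro c a ⟨φ, hφ, h1, h2⟩
    refine ⟨fun x => c * φ x, isTest_smul hφ c, ?_, ?_⟩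
    · rw [Prod.smul_fst]
      filter_upwards [Lp.coeFn_smul c a.1, h1] with x e1 e2
      rw [e1, Pi.smul_apply, e2, smul_eq_mul]
    · rw [Prod.smul_snd, gradient_smul' hφ]
      filter_upwards [Lp.coeFn_smul c a.2, h2] with x e1 e2
      rw [e1, Pi.smul_apply, e2]

/-- closure of the graph -/
noncomputable def DD (Ω : Set (EuclideanSpace ℝ (Fin N))) : Submodule ℝ (L2f N × L2v N) :=
  (PS Ω).topologicalClosure

/-- the class of a test function -/
noncomputable def fL {Ω : Set (EuclideanSpace ℝ (Fin N))} {φ : EuclideanSpace ℝ (Fin N) → ℝ}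
    (hφ : IsTest Ω φ) : L2f N := (memLp_test hφ 2).toLp φ

/-- the class of the gradient of a test function -/
noncomputable def gL {Ω : Set (EuclideanSpace ℝ (Fin N))} {φ : EuclideanSpace ℝ (Fin N) → ℝ}
    (hφ : IsTest Ω φ) : L2v N := (memLp_grad hφ 2).toLp (gradient φ)

theorem fL_coe {Ω : Set (EuclideanSpace ℝ (Fin N))} {φ : EuclideanSpace ℝ (Fin N) → ℝ}
    (hφ : IsTest Ω φ) : fL hφ =ᵐ[volume] φ := MemLp.coeFn_toLp _

theorem gL_coe {Ω : Set (EuclideanSpace ℝ (Fin N))} {φ : EuclideanSpace ℝ (Fin N) → ℝ}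
    (hφ : IsTest Ω φ) : gL hφ =ᵐ[volume] gradient φ := MemLp.coeFn_toLp _

theorem mem_PS {Ω : Set (EuclideanSpace ℝ (Fin N))} {φ : EuclideanSpace ℝ (Fin N) → ℝ}
    (hφ : IsTest Ω φ) : (fL hφ, gL hφ) ∈ PS Ω := ⟨φ, hφ, fL_coe hφ, gL_coe hφ⟩

theorem PS_eq {Ω : Set (EuclideanSpace ℝ (Fin N))} {p : L2f N × L2v N} (hp : p ∈ PS Ω) :
    ∃ (φ : EuclideanSpace ℝ (Fin N) → ℝ) (hφ : IsTest Ω φ), p = (fL hφ, gL hφ) := by
  obtain ⟨φ, hφ, h1, h2⟩ := hp
  refine ⟨φ, hφ, ?_⟩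
  apply Prod.ext
  · exact Lp.ext (h1.trans (fL_coe hφ).symm)
  · exact Lp.ext (h2.trans (gL_coe hφ).symm)

theorem DD_induction {Ω : Set (EuclideanSpace ℝ (Fin N))} {P : L2f N × L2v N → Prop}
    (hcl : IsClosed {p | P p})
    (h : ∀ (φ : EuclideanSpace ℝ (Fin N) → ℝ) (hφ : IsTest Ω φ), P (fL hφ, gL hφ))
    {p : L2f N × L2v N} (hp : p ∈ DD Ω) : P p := by
  have : ((PS Ω).topologicalClosure : Set (L2f N × L2v N)) ⊆ {p | P p} := by
    rw [Submodule.topologicalClosure_coe]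
    apply closure_minimal _ hcl
    intro p hp
    obtain ⟨φ, hφ, rfl⟩ := PS_eq hp
    exact h φ hφ
  exact this hp

theorem DD_closed (Ω : Set (EuclideanSpace ℝ (Fin N))) : IsClosed (DD Ω : Set (L2f N × L2v N)) :=
  Submodule.isClosed_topologicalClosure _

theorem DD_seq {Ω : Set (EuclideanSpace ℝ (Fin N))} {p : L2f N × L2v N} (hp : p ∈ DD Ω) :
    ∃ (φ : ℕ → EuclideanSpace ℝ (Fin N) → ℝ) (hφ : ∀ n, IsTest Ω (φ n)),
      Tendsto (fun n => fL (hφ n)) atTop (𝓝 p.1) ∧ Tendsto (fun n => gL (hφ n)) atTop (𝓝 p.2) := by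
  have hcl : p ∈ closure (PS Ω : Set (L2f N × L2v N)) := by
    rw [← Submodule.topologicalClosure_coe]; exact hp
  rw [mem_closure_iff_seq_limit] at hcl
  obtain ⟨P, hP, hPl⟩ := hcl
  choose φ hφ he using fun n => PS_eq (hP n)
  refine ⟨φ, hφ, ?_, ?_⟩
  · have := (continuous_fst.tendsto p).comp hPl
    refine this.congr fun n => ?_
    simp only [Function.comp_apply, he n]
  · have := (continuous_snd.tendsto p).comp hPl
    refine this.congr fun n => ?_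
    simp only [Function.comp_apply, he n]

theorem norm_fL {Ω : Set (EuclideanSpace ℝ (Fin N))} {φ : EuclideanSpace ℝ (Fin N) → ℝ}
    (hφ : IsTest Ω φ) : ‖fL hφ‖ = (eLpNorm φ 2 volume).toReal := Lp.norm_toLp φ (memLp_test hφ 2)

theorem norm_gL {Ω : Set (EuclideanSpace ℝ (Fin N))} {φ : EuclideanSpace ℝ (Fin N) → ℝ}
    (hφ : IsTest Ω φ) : ‖gL hφ‖ = (eLpNorm (fderiv ℝ φ) 2 volume).toReal := by
  rw [← eLpNorm_gradient]
  exact Lp.norm_toLp (gradient φ) (memLp_grad hφ 2)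

theorem eLpNorm_eq_gL {Ω : Set (EuclideanSpace ℝ (Fin N))} {φ : EuclideanSpace ℝ (Fin N) → ℝ}
    (hφ : IsTest Ω φ) : eLpNorm (fderiv ℝ φ) 2 volume = ENNReal.ofReal ‖gL hφ‖ := by
  rw [norm_gL, ENNReal.ofReal_toReal (eLpNorm_fderiv_lt_top hφ 2).ne]

/-- Poincare -/
theorem poinc {Ω : Set (EuclideanSpace ℝ (Fin N))} (hN : 2 ≤ N) (hΩ : Bornology.IsBounded Ω) :
    ∃ C : ℝ, 0 ≤ C ∧ ∀ p ∈ DD Ω, ‖p.1‖ ≤ C * ‖p.2‖ := by
  obtain ⟨C, hC⟩ := sobolev (q := 2) hN hΩ (by norm_num) (by push_cast; linarith)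
  refine ⟨C, C.2, fun p hp => ?_⟩
  apply DD_induction (P := fun p => ‖p.1‖ ≤ C * ‖p.2‖) _ _ hp
  · exact isClosed_le (by fun_prop) (by fun_prop)
  · intro φ hφ
    have h1 := hC φ (hφ.1.of_le (by simp)) ((subset_tsupport φ).trans hφ.2.2)
    rw [eLpNorm_eq_gL hφ] at h1
    have h2 := ENNReal.toReal_mono (by finiteness) h1
    rw [ENNReal.toReal_mul, ENNReal.coe_toReal, ENNReal.toReal_ofReal (norm_nonneg _)] at h2
    simpa [norm_fL] using h2

/-- the Hilbert space: gradients -/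
noncomputable def HS (Ω : Set (EuclideanSpace ℝ (Fin N))) : Submodule ℝ (L2v N) :=
  (DD Ω).map (LinearMap.snd ℝ (L2f N) (L2v N))

theorem mem_HS {Ω : Set (EuclideanSpace ℝ (Fin N))} {G : L2v N} :
    G ∈ HS Ω ↔ ∃ U : L2f N, (U, G) ∈ DD Ω := by
  unfold HS
  rw [Submodule.mem_map]
  constructor
  · rintro ⟨p, hp, rfl⟩
    exact ⟨p.1, hp⟩
  · rintro ⟨U, hU⟩
    exact ⟨(U, G), hU, rfl⟩

theorem HS_closed {Ω : Set (EuclideanSpace ℝ (Fin N))} (hN : 2 ≤ N) (hΩ : Bornology.IsBounded Ω) :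
    IsClosed (HS Ω : Set (L2v N)) := by
  obtain ⟨C, hC0, hC⟩ := poinc hN hΩ
  apply IsSeqClosed.isClosed
  intro G g hG hg
  choose U hU using fun n => mem_HS.mp (hG n)
  have hcau : CauchySeq U := by
    have h1 := hg.cauchySeq
    rw [Metric.cauchySeq_iff'] at h1 ⊢
    intro ε hε
    obtain ⟨n0, hn0⟩ := h1 (ε / (C + 1)) (by positivity)
    refine ⟨n0, fun n hn => ?_⟩
    have h2 := hC _ ((DD Ω).sub_mem (hU n) (hU n0))
    simp only [Prod.fst_sub, Prod.snd_sub] at h2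
    have h3 := hn0 n hn
    rw [dist_eq_norm] at h3 ⊢
    calc ‖U n - U n0‖ ≤ C * ‖G n - G n0‖ := h2
      _ ≤ (C + 1) * ‖G n - G n0‖ := by gcongr; linarith
      _ < (C + 1) * (ε / (C + 1)) := by gcongr
      _ = ε := by field_simp
  obtain ⟨u, hu⟩ := cauchySeq_tendsto_of_complete hcau
  exact mem_HS.mpr ⟨u, (DD_closed Ω).mem_of_tendsto (hu.prodMk_nhds hg) (Eventually.of_forall hU)⟩

theorem DD_unique {Ω : Set (EuclideanSpace ℝ (Fin N))} (hN : 2 ≤ N) (hΩ : Bornology.IsBounded Ω)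
    {U V : L2f N} {G : L2v N} (h1 : (U, G) ∈ DD Ω) (h2 : (V, G) ∈ DD Ω) : U = V := by
  obtain ⟨C, hC0, hC⟩ := poinc hN hΩ
  have h3 := hC _ ((DD Ω).sub_mem h1 h2)
  simp only [Prod.fst_sub, Prod.snd_sub, sub_self, norm_zero, mul_zero] at h3
  exact sub_eq_zero.mp (norm_le_zero_iff.mp h3)

/-- the primitive of a gradient -/
noncomputable def prim {Ω : Set (EuclideanSpace ℝ (Fin N))} (G : HS Ω) : L2f N :=
  Classical.choose (mem_HS.mp G.2)

theorem prim_mem {Ω : Set (EuclideanSpace ℝ (Fin N))} (G : HS Ω) : (prim G, (G : L2v N)) ∈ DD Ω :=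
  Classical.choose_spec (mem_HS.mp G.2)

theorem prim_add {Ω : Set (EuclideanSpace ℝ (Fin N))} (hN : 2 ≤ N) (hΩ : Bornology.IsBounded Ω)
    (a b : HS Ω) : prim (a + b) = prim a + prim b := by
  apply DD_unique hN hΩ (prim_mem (a + b))
  have := (DD Ω).add_mem (prim_mem a) (prim_mem b)
  rwa [Prod.mk_add_mk, ← Submodule.coe_add] at this

theorem prim_smul {Ω : Set (EuclideanSpace ℝ (Fin N))} (hN : 2 ≤ N) (hΩ : Bornology.IsBounded Ω)
    (c : ℝ) (a : HS Ω) : prim (c • a) = c • prim a := by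
  apply DD_unique hN hΩ (prim_mem (c • a))
  have := (DD Ω).smul_mem c (prim_mem a)
  rwa [Prod.smul_mk, ← Submodule.coe_smul] at this

/-- the embedding into square integrable functions -/
noncomputable def primL {Ω : Set (EuclideanSpace ℝ (Fin N))} (hN : 2 ≤ N) (hΩ : Bornology.IsBounded Ω) :
    HS Ω →ₗ[ℝ] L2f N where
  toFun := prim
  map_add' := prim_add hN hΩ
  map_smul' := prim_smul hN hΩ

theorem exists_J0 {Ω : Set (EuclideanSpace ℝ (Fin N))} (hN : 2 ≤ N) (hΩ : Bornology.IsBounded Ω) :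
    ∃ J0 : HS Ω →L[ℝ] L2f N, ∀ G : HS Ω, J0 G = prim G := by
  obtain ⟨C, hC0, hC⟩ := poinc hN hΩ
  have hb : ∀ G : HS Ω, ‖primL hN hΩ G‖ ≤ C * ‖G‖ := by
    intro G
    have := hC _ (prim_mem G)
    exact this
  exact ⟨LinearMap.mkContinuous (primL hN hΩ) C hb, fun G => rfl⟩

end Pool.Agent.Helper420.QI.Conc
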