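import Pool.Agent.Helper420.QI.Conc
set_option autoImplicit false
set_option linter.unusedSectionVars false
open MeasureTheory Metric Set Filter Topology
open scoped ENNReal NNReal InnerProductSpace

namespace Pool.Agent.Helper420.QI.Conc

open Pool.Agent.Helper420.QI.QEig Pool.Agent.Helper420.QI.Sob

variable {N : ℕ} {Ω : Set (EuclideanSpace ℝ (Fin N))}

/-- test gradients as elements of the Hilbert space -/
noncomputable def gH {φ : EuclideanSpace ℝ (Fin N) → ℝ} (hφ : IsTest Ω φ) : HS Ω :=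
  ⟨gL hφ, mem_HS.mpr ⟨fL hφ, subset_closure (mem_PS hφ)⟩⟩

theorem gH_coe {φ : EuclideanSpace ℝ (Fin N) → ℝ} (hφ : IsTest Ω φ) :
    ((gH hφ : HS Ω) : L2v N) = gL hφ := rfl

theorem prim_gH (hN : 2 ≤ N) (hΩ : Bornology.IsBounded Ω) {φ : EuclideanSpace ℝ (Fin N) → ℝ}
    (hφ : IsTest Ω φ) : prim (gH hφ) = fL hφ :=
  DD_unique hN hΩ (prim_mem (gH hφ)) (subset_closure (mem_PS hφ))

theorem exists_seq (G : HS Ω) :
    ∃ (φ : ℕ → EuclideanSpace ℝ (Fin N) → ℝ) (hφ : ∀ n, IsTest Ω (φ n)),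
      Tendsto (fun n => gH (hφ n)) atTop (𝓝 G) ∧ Tendsto (fun n => fL (hφ n)) atTop (𝓝 (prim G)) := by
  obtain ⟨φ, hφ, h1, h2⟩ := DD_seq (prim_mem G)
  refine ⟨φ, hφ, ?_, h1⟩
  rw [tendsto_subtype_rng]
  exact h2

theorem prim_off (hΩo : IsOpen Ω) (G : HS Ω) : prim G =ᵐ[volume.restrict Ωᶜ] 0 := by
  obtain ⟨φ, hφ, -, h2⟩ := exists_seq G
  set L := LpToLpRestrictCLM (EuclideanSpace ℝ (Fin N)) ℝ ℝ volume 2 Ωᶜ with hL
  have h3 : ∀ n, L (fL (hφ n)) = 0 := by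
    intro n
    apply Lp.ext
    refine (LpToLpRestrictCLM_coeFn ℝ Ωᶜ (fL (hφ n))).trans ?_
    have h6 : fL (hφ n) =ᵐ[volume.restrict Ωᶜ] φ n := ae_restrict_of_ae (fL_coe (hφ n))
    refine (h6.trans ?_).trans (Lp.coeFn_zero ℝ 2 _).symm
    rw [Filter.EventuallyEq, ae_restrict_iff' hΩo.measurableSet.compl]
    refine Eventually.of_forall fun x hx => ?_
    by_contra hne
    exact hx ((hφ n).2.2 (subset_tsupport _ hne))
  have h4 : L (prim G) = 0 := by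
    have := (L.continuous.tendsto (prim G)).comp h2
    refine tendsto_nhds_unique this ?_
    simp only [Function.comp_def, h3]
    exact tendsto_const_nhds
  have h5 := LpToLpRestrictCLM_coeFn ℝ Ωᶜ (prim G)
  rw [← hL, h4] at h5
  exact h5.symm.trans (Lp.coeFn_zero ℝ 2 _)

theorem prim_sob (hN : 2 ≤ N) (hΩ : Bornology.IsBounded Ω) {r : ℝ≥0} (hr : 1 ≤ r)
    (hr' : ((N : ℝ) - 2) * r < 2 * N) :
    ∃ C : ℝ, 0 < C ∧ ∀ G : HS Ω, eLpNorm (prim G) r volume ≤ ENNReal.ofReal (C * ‖G‖) := by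
  obtain ⟨C, hC⟩ := sobolev hN hΩ hr hr'
  refine ⟨C + 1, by positivity, fun G => ?_⟩
  obtain ⟨φ, hφ, h1, h2⟩ := exists_seq G
  have h3 := (tendstoInMeasure_of_tendsto_Lp h2).exists_seq_tendsto_ae
  obtain ⟨ns, hns, hae⟩ := h3
  have hb : ∀ n, eLpNorm (fL (hφ n)) r volume ≤ ENNReal.ofReal ((C + 1) * ‖gH (hφ n)‖) := by
    intro n
    rw [eLpNorm_congr_ae (fL_coe (hφ n))]
    refine (hC (φ n) ((hφ n).1.of_le (by simp)) ((subset_tsupport _).trans (hφ n).2.2)).trans ?_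
    rw [eLpNorm_eq_gL (hφ n), ENNReal.ofReal_mul (by positivity)]
    have e1 : ‖gH (hφ n)‖ = ‖gL (hφ n)‖ := rfl
    rw [e1]
    gcongr
    rw [← ENNReal.ofReal_coe_nnreal]
    exact ENNReal.ofReal_le_ofReal (by linarith)
  have h4 := Lp.eLpNorm_lim_le_liminf_eLpNorm (p := (r : ℝ≥0∞))
    (fun n => (Lp.aestronglyMeasurable (fL (hφ (ns n))))) (prim G) hae
  refine h4.trans ?_
  have h5 : Tendsto (fun n => ENNReal.ofReal ((C + 1) * ‖gH (hφ (ns n))‖)) atTop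
      (𝓝 (ENNReal.ofReal ((C + 1) * ‖G‖))) := by
    apply (ENNReal.continuous_ofReal.tendsto _).comp
    exact (h1.norm.comp hns.tendsto_atTop).const_mul _
  rw [← h5.liminf_eq]
  exact liminf_le_liminf (Eventually.of_forall fun n => hb (ns n))

theorem prim_totallyBounded (hN : 2 ≤ N) (hΩ : Bornology.IsBounded Ω) :
    TotallyBounded (prim '' {G : HS Ω | ‖G‖ ≤ 1}) := by
  rw [Metric.totallyBounded_iff]
  intro ε hε
  obtain ⟨T, hTf, hT, hTc⟩ := rellich hN hΩ 2 (show 0 < ε / 3 by positivity)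
  classical
  set Θ : (EuclideanSpace ℝ (Fin N) → ℝ) → L2f N :=
    fun φ => if h : IsTest Ω φ then fL h else 0 with hΘ
  refine ⟨Θ '' T, hTf.image Θ, ?_⟩
  rintro _ ⟨G, hG, rfl⟩
  rw [mem_iUnion₂]
  obtain ⟨φ, hφ, h1, h2⟩ := exists_seq G
  have e1 := (tendsto_iff_norm_sub_tendsto_zero.mp h2).eventually (gt_mem_nhds (show 0 < ε / 3 by positivity))
  have e2 := (h1.norm).eventually (gt_mem_nhds (show ‖G‖ < 2 by
    have : ‖G‖ ≤ 1 := hG
    linarith))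
  obtain ⟨n, hn1, hn2⟩ := (e1.and e2).exists
  have h3 : eLpNorm (fderiv ℝ (φ n)) 2 volume ≤ (2 : ℝ≥0) := by
    rw [eLpNorm_eq_gL (hφ n)]
    have : ‖gL (hφ n)‖ ≤ 2 := hn2.le
    calc ENNReal.ofReal ‖gL (hφ n)‖ ≤ ENNReal.ofReal 2 := ENNReal.ofReal_le_ofReal this
      _ = _ := by norm_num
  obtain ⟨ψ, hψT, hψ⟩ := hTc (φ n) (hφ n) h3
  refine ⟨Θ ψ, ⟨ψ, hψT, rfl⟩, ?_⟩
  have hψt := (hT ψ hψT).1
  have e3 : Θ ψ = fL hψt := by simp only [hΘ, dif_pos hψt]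
  rw [e3, mem_ball, dist_eq_norm]
  have h4 : ‖fL (hφ n) - fL hψt‖ ≤ ε / 3 := by
    rw [fL, fL, ← MemLp.toLp_sub, Lp.norm_toLp]
    exact ENNReal.toReal_le_of_le_ofReal (by positivity) hψ
  calc ‖prim G - fL hψt‖ ≤ ‖prim G - fL (hφ n)‖ + ‖fL (hφ n) - fL hψt‖ := norm_sub_le_norm_sub_add_norm_sub _ _ _
    _ < ε := by
      rw [norm_sub_rev (prim G)]
      linarith

end Pool.Agent.Helper420.QI.Conc
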