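import Pool.Agent.Helper420.QI.Conc2
set_option autoImplicit false
set_option linter.unusedSectionVars false
open MeasureTheory Metric Set Filter Topology
open scoped ENNReal NNReal InnerProductSpace

namespace Pool.Agent.Helper420.QI.Conc

open Pool.Agent.Helper420.QI.QEig Pool.Agent.Helper420.QI.Sob

variable {N : ℕ} {Ω : Set (EuclideanSpace ℝ (Fin N))}

theorem norm_le_add_const {α : Type*} [MeasurableSpace α] {μ : Measure α} [IsFiniteMeasure μ]
    (f A : Lp ℝ 2 μ) {c : ℝ} (hc : 0 ≤ c) (h : ∀ᵐ x ∂μ, |f x| ≤ |A x| + c) :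
    ‖f‖ ≤ ‖A‖ + c * μ.real Set.univ ^ (1 / (2 : ℝ≥0∞).toReal) := by
  have h1 : ‖f‖ ≤ ‖|A| + Lp.const 2 μ c‖ := by
    apply Lp.norm_le_norm_of_ae_le
    filter_upwards [h, Lp.coeFn_add |A| (Lp.const 2 μ c), Lp.coeFn_abs A, Lp.coeFn_const 2 μ c]
      with x e1 e2 e3 e4
    rw [e2, Pi.add_apply, e3, e4, Real.norm_eq_abs, Real.norm_eq_abs]
    exact e1.trans (le_abs_self _)
  refine h1.trans ((norm_add_le _ _).trans ?_)
  rw [norm_abs_eq_norm]
  have h2 := Lp.norm_const_le (p := 2) (μ := μ) (c := c)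
  rw [Real.norm_eq_abs, abs_of_nonneg hc] at h2
  linarith

theorem inner_gL {φ ψ : EuclideanSpace ℝ (Fin N) → ℝ} (hφ : IsTest Ω φ) (hψ : IsTest Ω ψ) :
    ⟪gL hφ, gL hψ⟫_ℝ = ∫ x, ⟪gradient φ x, gradient ψ x⟫_ℝ := by
  rw [L2.inner_def]
  apply integral_congr_ae
  filter_upwards [gL_coe hφ, gL_coe hψ] with x e1 e2
  rw [e1, e2]

theorem integrable_inner {φ ψ : EuclideanSpace ℝ (Fin N) → ℝ} (hφ : IsTest Ω φ) (hψ : IsTest Ω ψ) :
    Integrable (fun x => ⟪gradient φ x, gradient ψ x⟫_ℝ) volume := by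
  apply Continuous.integrable_of_hasCompactSupport
  · exact (gradient_cont hφ).inner (gradient_cont hψ)
  · have h1 : HasCompactSupport (gradient φ) := gradient_hcs hφ
    refine h1.mono ?_
    intro x hx h0
    apply hx
    simp only [h0, inner_zero_left]

/-- truncated test functions -/
theorem isTest_cut {φ : EuclideanSpace ℝ (Fin N) → ℝ} (hφ : IsTest Ω φ) {ε k : ℝ} (hε : 0 < ε)
    (hk : 0 ≤ k) : IsTest Ω (fun x => hsm ε (φ x - k)) := by
  have hsup : Function.support (fun x => hsm ε (φ x - k)) ⊆ Function.support φ := by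
    intro x hx h0
    apply hx
    simp only
    rw [h0]
    exact hsm_nonpos hε (by linarith)
  refine ⟨(hsm_contDiff ε).comp (hφ.1.sub contDiff_const), hφ.2.1.mono hsup, ?_⟩
  exact (closure_mono hsup).trans hφ.2.2

theorem gradient_cut {φ : EuclideanSpace ℝ (Fin N) → ℝ} (hφ : IsTest Ω φ) (ε k : ℝ)
    (x : EuclideanSpace ℝ (Fin N)) :
    gradient (fun x => hsm ε (φ x - k)) x = Real.smoothTransition ((φ x - k) / ε) • gradient φ x := by
  have h1 : HasFDerivAt (fun x => φ x - k) (fderiv ℝ φ x) x :=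
    ((hφ.1.differentiable (by simp)) x).hasFDerivAt.sub_const k
  have h2 := ((hsm_deriv ε (φ x - k)).comp_hasFDerivAt x h1).fderiv
  rw [gradient, gradient, ← map_smul]
  congr 1

/-- the energy inequality for truncated test functions -/
theorem cut_ineq {φ : EuclideanSpace ℝ (Fin N) → ℝ} (hφ : IsTest Ω φ) {ε k : ℝ} (hε : 0 < ε)
    (hk : 0 ≤ k) : ‖gL (isTest_cut hφ hε hk)‖ ^ 2 ≤ ⟪gL hφ, gL (isTest_cut hφ hε hk)⟫_ℝ := by
  rw [← real_inner_self_eq_norm_sq, inner_gL, inner_gL]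
  have hc := isTest_cut hφ hε hk
  apply integral_mono (integrable_inner hc hc) (integrable_inner hφ hc)
  intro x
  simp only [gradient_cut hφ ε k x, inner_smul_left, inner_smul_right, RCLike.conj_to_real]
  set s := Real.smoothTransition ((φ x - k) / ε) with hs
  have h0 : 0 ≤ s := Real.smoothTransition.nonneg _
  have h1 : s ≤ 1 := Real.smoothTransition.le_one _
  have h2 : 0 ≤ ⟪gradient φ x, gradient φ x⟫_ℝ := real_inner_self_nonneg
  nlinarith [mul_nonneg h0 h2]

/-- truncated test functions -/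
theorem isTest_sab {φ : EuclideanSpace ℝ (Fin N) → ℝ} (hφ : IsTest Ω φ) (ε : ℝ) :
    IsTest Ω (fun x => hsm ε (φ x) + hsm ε (-φ x)) :=
  isTest_add (isTest_hsm hφ ε) (isTest_hsm (isTest_neg hφ) ε)

theorem sab_ineq {φ : EuclideanSpace ℝ (Fin N) → ℝ} (hφ : IsTest Ω φ) {ε : ℝ} (hε : 0 < ε) :
    ‖gL (isTest_sab hφ ε)‖ ^ 2 ≤ ‖gL hφ‖ ^ 2 := by
  rw [← real_inner_self_eq_norm_sq, ← real_inner_self_eq_norm_sq, inner_gL, inner_gL]
  have hc := isTest_sab hφ ε
  apply integral_mono (integrable_inner hc hc) (integrable_inner hφ hφ)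
  intro x
  have hd : HasFDerivAt φ (fderiv ℝ φ x) x := ((hφ.1.differentiable (by simp)) x).hasFDerivAt
  have h1 := (hsm_deriv ε (φ x)).comp_hasFDerivAt x hd
  have h2 := (hsm_deriv ε (-φ x)).comp_hasFDerivAt x hd.neg
  have h3 : fderiv ℝ (fun x => hsm ε (φ x) + hsm ε (-φ x)) x =
      (Real.smoothTransition (φ x / ε) - Real.smoothTransition (-φ x / ε)) • fderiv ℝ φ x := by
    have := (h1.add h2).fderiv
    refine Eq.trans this ?_
    rw [smul_neg, sub_smul, sub_eq_add_neg]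
  have h4 : gradient (fun x => hsm ε (φ x) + hsm ε (-φ x)) x =
      (Real.smoothTransition (φ x / ε) - Real.smoothTransition (-φ x / ε)) • gradient φ x := by
    rw [gradient, gradient, ← map_smul, h3]
  simp only [h4, inner_smul_left, inner_smul_right, RCLike.conj_to_real]
  set s := Real.smoothTransition (φ x / ε) with hs
  set t := Real.smoothTransition (-φ x / ε) with ht
  have e0 : 0 ≤ s := Real.smoothTransition.nonneg _
  have e1 : s ≤ 1 := Real.smoothTransition.le_one _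
  have e2 : 0 ≤ t := Real.smoothTransition.nonneg _
  have e3 : t ≤ 1 := Real.smoothTransition.le_one _
  have e4 : 0 ≤ ⟪gradient φ x, gradient φ x⟫_ℝ := real_inner_self_nonneg
  have e5 : (s - t) * (s - t) ≤ 1 := by nlinarith
  calc (s - t) * ((s - t) * ⟪gradient φ x, gradient φ x⟫_ℝ)
      = ((s - t) * (s - t)) * ⟪gradient φ x, gradient φ x⟫_ℝ := by ring
    _ ≤ 1 * ⟪gradient φ x, gradient φ x⟫_ℝ := by gcongr
    _ = _ := one_mul _

/-- abstract limiting procedure -/
theorem limit_proc {α : Type*} [MeasurableSpace α] {ν : Measure α} [IsFiniteMeasure ν]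
    {H : Type*} [NormedAddCommGroup H] [InnerProductSpace ℝ H]
    (J : H →L[ℝ] Lp ℝ 2 ν) (T : ℝ → ℝ) (hT : LipschitzWith 1 T) (a b : ℕ → H) (G : H)
    (ha : Tendsto a atTop (𝓝 G))
    (happ : ∀ n : ℕ, ∀ᵐ x ∂ν, |J (b n) x - T (J (a n) x)| ≤ 1 / ((n : ℝ) + 1))
    {w : H} (hw : ∀ K, w ∈ closure (convexHull ℝ (b '' Ici K))) :
    J w =ᵐ[ν] fun x => T (J G x) := by
  have hmem : MemLp (fun x => T (J G x)) 2 ν := by
    have h0 : MemLp (fun x => |J G x|) 2 ν := (Lp.memLp (J G)).abs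
    have h1 : MemLp (fun x => |J G x| + |T 0|) 2 ν := h0.add (memLp_const (|T 0|))
    have h2 : AEStronglyMeasurable (fun x => T (J G x)) ν :=
      hT.continuous.comp_aestronglyMeasurable (Lp.aestronglyMeasurable (J G))
    refine h1.mono h2 ?_
    refine Eventually.of_forall fun x => ?_
    have h3 := hT.dist_le_mul (J G x) 0
    simp only [NNReal.coe_one, one_mul, Real.dist_eq, sub_zero] at h3
    rw [Real.norm_eq_abs, Real.norm_eq_abs, abs_of_nonneg (by positivity : 0 ≤ |J G x| + |T 0|)]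
    have h4 := abs_sub_abs_le_abs_sub (T (J G x)) (T 0)
    linarith
  set K : ℝ := ν.real Set.univ ^ (1 / (2 : ℝ≥0∞).toReal) with hK
  have hconv : Tendsto (fun n => J (b n)) atTop (𝓝 (hmem.toLp (fun x => T (J G x)))) := by
    rw [tendsto_iff_norm_sub_tendsto_zero]
    have hb : ∀ n : ℕ, ‖J (b n) - hmem.toLp (fun x => T (J G x))‖ ≤
        ‖J (a n - G)‖ + (1 / ((n : ℝ) + 1)) * K := by
      intro n
      apply norm_le_add_const _ _ (by positivity)
      rw [map_sub]
      filter_upwards [Lp.coeFn_sub (J (b n)) (hmem.toLp (fun x => T (J G x))),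
        Lp.coeFn_sub (J (a n)) (J G), MemLp.coeFn_toLp hmem, happ n] with x e1 e2 e3 h4
      rw [e1, Pi.sub_apply, e2, Pi.sub_apply, e3]
      have h3 := hT.dist_le_mul (J (a n) x) (J G x)
      simp only [NNReal.coe_one, one_mul, Real.dist_eq] at h3
      have h5 : J (b n) x - T (J G x) = (J (b n) x - T (J (a n) x)) + (T (J (a n) x) - T (J G x)) := by
        ring
      rw [h5]
      have h6 := abs_add_le (J (b n) x - T (J (a n) x)) (T (J (a n) x) - T (J G x))
      linarith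
    have hlim : Tendsto (fun n : ℕ => ‖J (a n - G)‖ + (1 / ((n : ℝ) + 1)) * K) atTop (𝓝 0) := by
      have l1 : Tendsto (fun n : ℕ => ‖J (a n - G)‖) atTop (𝓝 0) := by
        have := (J.continuous.tendsto (G - G)).comp (ha.sub_const G)
        have := this.norm
        simpa using this
      have l2 : Tendsto (fun n : ℕ => (1 / ((n : ℝ) + 1)) * K) atTop (𝓝 (0 * K)) :=
        tendsto_one_div_add_atTop_nhds_zero_nat.mul_const K
      simpa using l1.add l2
    exact squeeze_zero (fun n => norm_nonneg _) hb hlim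
  rw [weak_limit_map hw J hconv]
  exact MemLp.coeFn_toLp hmem

end Pool.Agent.Helper420.QI.Conc
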