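import Mathlib
set_option autoImplicit false
open MeasureTheory Filter Topology Set
open scoped ENNReal NNReal InnerProductSpace

namespace Pool.Agent.Helper420.QI

/-- abstract Dirichlet space: `J` embeds the Hilbert space `H` into the square integrable functions -/
structure Dir {α : Type*} [MeasurableSpace α] (μ : Measure α)
    {H : Type*} [NormedAddCommGroup H] [InnerProductSpace ℝ H]
    (J : H →L[ℝ] Lp ℝ 2 μ) (q r : ℝ) : Prop where
  two_lt : 2 < q
  q_lt : q < r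
  cut : ∀ (u : H) (k : ℝ), 0 ≤ k → ∃ w : H,
    (J w =ᵐ[μ] fun x => max (J u x - k) 0) ∧ ‖w‖ ^ 2 ≤ ⟪u, w⟫_ℝ
  sob : ∃ C : ℝ, 0 < C ∧ ∀ u : H, eLpNorm (J u) (ENNReal.ofReal r) μ ≤ ENNReal.ofReal (C * ‖u‖)
  comp : IsCompactOperator J

end Pool.Agent.Helper420.QI
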