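import Pool.Agent.Helper420.QI.Conc3
import Pool.Agent.Helper420.QI.Dir
set_option autoImplicit false
set_option linter.unusedSectionVars false
open MeasureTheory Metric Set Filter Topology
open scoped ENNReal NNReal InnerProductSpace

namespace Pool.Agent.Helper420.QI.Conc

open Pool.Agent.Helper420.QI.QEig Pool.Agent.Helper420.QI.Sob

variable {N : ℕ} {Ω : Set (EuclideanSpace ℝ (Fin N))}

/-- restriction to `Ω` -/
noncomputable abbrev RL (Ω : Set (EuclideanSpace ℝ (Fin N))) :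
    L2f N →L[ℝ] Lp ℝ 2 ((volume : Measure (EuclideanSpace ℝ (Fin N))).restrict Ω) :=
  LpToLpRestrictCLM (EuclideanSpace ℝ (Fin N)) ℝ ℝ volume 2 Ω

theorem RL_coe (U : L2f N) : RL Ω U =ᵐ[volume.restrict Ω] U := LpToLpRestrictCLM_coeFn ℝ Ω U

theorem convexOn_F {H : Type*} [NormedAddCommGroup H] [InnerProductSpace ℝ H] (u : H) :
    ConvexOn ℝ univ (fun y : H => ‖y‖ ^ 2 - ⟪u, y⟫_ℝ) := by
  have h1 : ConvexOn ℝ univ (fun y : H => ‖y‖ ^ 2) :=
    (convexOn_norm (convex_univ (𝕜 := ℝ) (E := H))).pow (fun _ _ => norm_nonneg _) 2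
  have h2 : ConcaveOn ℝ univ (fun y : H => ⟪u, y⟫_ℝ) :=
    ((innerSL ℝ u).toLinearMap).concaveOn (convex_univ (𝕜 := ℝ) (E := H))
  exact h1.sub h2

theorem J_gH (hN : 2 ≤ N) (hΩ : Bornology.IsBounded Ω)
    (J0 : HS Ω →L[ℝ] L2f N) (hJ0 : ∀ G, J0 G = prim G) {φ : EuclideanSpace ℝ (Fin N) → ℝ}
    (hφ : IsTest Ω φ) : (RL Ω ∘L J0) (gH hφ) =ᵐ[volume.restrict Ω] φ := by
  rw [ContinuousLinearMap.comp_apply, hJ0, prim_gH hN hΩ]
  have a1 : fL hφ =ᵐ[volume.restrict Ω] φ := ae_restrict_of_ae (fL_coe hφ)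
  exact (RL_coe _).trans a1

theorem hs_cut (hN : 2 ≤ N) (hΩ : Bornology.IsBounded Ω)
    (J0 : HS Ω →L[ℝ] L2f N) (hJ0 : ∀ G, J0 G = prim G) (hc : CompleteSpace (HS Ω))
    (u : HS Ω) (k : ℝ) (hk : 0 ≤ k) :
    ∃ w : HS Ω, ((RL Ω ∘L J0) w =ᵐ[volume.restrict Ω] fun x => max ((RL Ω ∘L J0) u x - k) 0) ∧
      ‖w‖ ^ 2 ≤ ⟪u, w⟫_ℝ := by
  have hfin : IsFiniteMeasure ((volume : Measure (EuclideanSpace ℝ (Fin N))).restrict Ω) :=
    ⟨by rw [Measure.restrict_apply_univ]; exact hΩ.measure_lt_top⟩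
  obtain ⟨φ, hφ, h1, h2⟩ := exists_seq u
  have he : ∀ n : ℕ, 0 < 1 / ((n : ℝ) + 1) := fun n => by positivity
  set a : ℕ → HS Ω := fun n => gH (hφ n) with ha
  set b : ℕ → HS Ω := fun n => gH (isTest_cut (hφ n) (he n) hk) with hb
  have hin : ∀ n, ‖b n‖ ^ 2 ≤ ⟪a n, b n⟫_ℝ := fun n => cut_ineq (hφ n) (he n) hk
  have hle : ∀ n, ‖b n‖ ≤ ‖a n‖ := by
    intro n
    have e1 := hin n
    have e2 := real_inner_le_norm (a n) (b n)
    by_contra hcon
    push Not at hcon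
    have e3 : 0 ≤ ‖a n‖ := norm_nonneg _
    nlinarith
  obtain ⟨R, hR⟩ : ∃ R, ∀ n, ‖a n‖ ≤ R := by
    obtain ⟨R, hR⟩ := (h1.norm).bddAbove_range
    exact ⟨R, fun n => hR ⟨n, rfl⟩⟩
  obtain ⟨w, hw⟩ := exists_weak_limit b (R := R) fun n => (hle n).trans (hR n)
  refine ⟨w, ?_, ?_⟩
  · apply limit_proc (RL Ω ∘L J0) (fun t => max (t - k) 0) _ a b u h1 _ hw
    · apply LipschitzWith.of_dist_le_mul
      intro s t
      rw [NNReal.coe_one, one_mul, Real.dist_eq, Real.dist_eq]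
      have := abs_max_sub_max_le_abs (s - k) (t - k) 0
      simpa using this
    · intro n
      filter_upwards [J_gH hN hΩ J0 hJ0 (hφ n), J_gH hN hΩ J0 hJ0 (isTest_cut (hφ n) (he n) hk)]
        with x e1 e2
      rw [e1, e2]
      exact hsm_abs (he n)
  · have h5 : ‖w‖ ^ 2 - ⟪u, w⟫_ℝ ≤ 0 := by
      apply weak_limit_mem hw (F := fun y : HS Ω => ‖y‖ ^ 2 - ⟪u, y⟫_ℝ) (convexOn_F u)
      · fun_prop
      · intro ε hε
        have e1 : Tendsto (fun n => ‖a n - u‖ * R) atTop (𝓝 (0 * R)) :=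
          (tendsto_iff_norm_sub_tendsto_zero.mp h1).mul_const R
        rw [zero_mul] at e1
        filter_upwards [e1.eventually (gt_mem_nhds hε)] with n hn
        have e2 := hin n
        have e3 : ⟪a n, b n⟫_ℝ - ⟪u, b n⟫_ℝ = ⟪a n - u, b n⟫_ℝ := by rw [inner_sub_left]
        have e4 := real_inner_le_norm (a n - u) (b n)
        have e5 : ‖a n - u‖ * ‖b n‖ ≤ ‖a n - u‖ * R := by
          gcongr
          exact (hle n).trans (hR n)
        linarith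
    linarith

theorem hs_abs (hN : 2 ≤ N) (hΩ : Bornology.IsBounded Ω)
    (J0 : HS Ω →L[ℝ] L2f N) (hJ0 : ∀ G, J0 G = prim G) (hc : CompleteSpace (HS Ω))
    (u : HS Ω) :
    ∃ w : HS Ω, ((RL Ω ∘L J0) w =ᵐ[volume.restrict Ω] fun x => |(RL Ω ∘L J0) u x|) ∧
      ‖w‖ ≤ ‖u‖ := by
  have hfin : IsFiniteMeasure ((volume : Measure (EuclideanSpace ℝ (Fin N))).restrict Ω) :=
    ⟨by rw [Measure.restrict_apply_univ]; exact hΩ.measure_lt_top⟩
  obtain ⟨φ, hφ, h1, h2⟩ := exists_seq u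
  have he : ∀ n : ℕ, 0 < 1 / ((n : ℝ) + 1) / 2 := fun n => by positivity
  set a : ℕ → HS Ω := fun n => gH (hφ n) with ha
  set b : ℕ → HS Ω := fun n => gH (isTest_sab (hφ n) (1 / ((n : ℝ) + 1) / 2)) with hb
  have hle : ∀ n, ‖b n‖ ≤ ‖a n‖ := by
    intro n
    exact le_of_sq_le_sq (sab_ineq (hφ n) (he n)) (norm_nonneg _)
  obtain ⟨R, hR⟩ : ∃ R, ∀ n, ‖a n‖ ≤ R := by
    obtain ⟨R, hR⟩ := (h1.norm).bddAbove_range
    exact ⟨R, fun n => hR ⟨n, rfl⟩⟩
  obtain ⟨w, hw⟩ := exists_weak_limit b (R := R) fun n => (hle n).trans (hR n)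
  refine ⟨w, ?_, ?_⟩
  · apply limit_proc (RL Ω ∘L J0) (fun t => |t|) _ a b u h1 _ hw
    · apply LipschitzWith.of_dist_le_mul
      intro s t
      rw [NNReal.coe_one, one_mul, Real.dist_eq, Real.dist_eq]
      exact abs_abs_sub_abs_le _ _
    · intro n
      filter_upwards [J_gH hN hΩ J0 hJ0 (hφ n),
        J_gH hN hΩ J0 hJ0 (isTest_sab (hφ n) (1 / ((n : ℝ) + 1) / 2))] with x e1 e2
      rw [e1, e2]
      have e3 := hsm_abs (t := φ n x) (he n)
      have e4 := hsm_abs (t := -φ n x) (he n)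
      rw [abs_le] at e3 e4 ⊢
      rcases le_total 0 (φ n x) with h | h
      · rw [max_eq_left h] at e3
        rw [max_eq_right (by linarith)] at e4
        rw [abs_of_nonneg h]
        constructor <;> linarith
      · rw [max_eq_right h] at e3
        rw [max_eq_left (by linarith)] at e4
        rw [abs_of_nonpos h]
        constructor <;> linarith
  · apply weak_limit_mem hw (F := fun y : HS Ω => ‖y‖) (convexOn_norm convex_univ) continuous_norm
    intro ε hε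
    filter_upwards [(h1.norm).eventually (gt_mem_nhds (show ‖u‖ < ‖u‖ + ε by linarith))] with n hn
    exact (hle n).trans hn.le

theorem hs_comp (hN : 2 ≤ N) (hΩ : Bornology.IsBounded Ω)
    (J0 : HS Ω →L[ℝ] L2f N) (hJ0 : ∀ G, J0 G = prim G) : IsCompactOperator (RL Ω ∘L J0) := by
  have h1 : IsCompactOperator J0 := by
    rw [isCompactOperator_iff_exists_mem_nhds_isCompact_closure_image]
    refine ⟨ball 0 1, ball_mem_nhds _ one_pos, ?_⟩
    have h2 : J0 '' ball 0 1 ⊆ prim '' {G : HS Ω | ‖G‖ ≤ 1} := by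
      rintro _ ⟨G, hG, rfl⟩
      rw [mem_ball_zero_iff] at hG
      exact ⟨G, hG.le, (hJ0 G).symm⟩
    have h3 := ((prim_totallyBounded hN hΩ).subset h2).closure
    exact h3.isCompact_of_isClosed isClosed_closure
  exact h1.clm_comp (RL Ω)

theorem exists_dir (hN : 2 ≤ N) (hΩ : IsOpen Ω)
    (hb : Bornology.IsBounded Ω) {q : ℝ} (hq : 2 < q) (hq' : ((N : ℝ) - 2) * q < 2 * (N : ℝ)) :
    ∃ (H : Type) (_ : NormedAddCommGroup H) (_ : InnerProductSpace ℝ H) (_ : CompleteSpace H)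
      (J : H →L[ℝ] Lp ℝ 2 (volume.restrict Ω)) (D : H →ₗᵢ[ℝ] Lp (EuclideanSpace ℝ (Fin N)) 2 volume)
      (r : ℝ), Dir (volume.restrict Ω) J q r ∧
      (∀ u : H, ∃ v : H, (J v =ᵐ[volume.restrict Ω] fun x => |J u x|) ∧ ‖v‖ ≤ ‖u‖) ∧
      (∀ (u : EuclideanSpace ℝ (Fin N) → ℝ) (G : EuclideanSpace ℝ (Fin N) → EuclideanSpace ℝ (Fin N)),
        (MemLp u 2 volume ∧ MemLp G 2 volume ∧
          ∃ φ : ℕ → EuclideanSpace ℝ (Fin N) → ℝ,
            (∀ n, ContDiff ℝ (⊤ : ℕ∞) (φ n) ∧ HasCompactSupport (φ n) ∧ tsupport (φ n) ⊆ Ω) ∧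
            Tendsto (fun n => eLpNorm (fun x => φ n x - u x) 2 volume) atTop (𝓝 0) ∧
            Tendsto (fun n => eLpNorm (fun x => gradient (φ n) x - G x) 2 volume) atTop (𝓝 0)) ↔
        (u =ᵐ[volume.restrict Ωᶜ] 0 ∧ ∃ w : H, u =ᵐ[volume.restrict Ω] J w ∧ G =ᵐ[volume] D w)) ∧
      (∀ (w : H) (ε : ℝ), 0 < ε → ∃ (ψ : EuclideanSpace ℝ (Fin N) → ℝ) (h : H),
        (ContDiff ℝ (⊤ : ℕ∞) ψ ∧ HasCompactSupport ψ ∧ tsupport ψ ⊆ Ω) ∧
        J h =ᵐ[volume.restrict Ω] ψ ∧ D h =ᵐ[volume] gradient ψ ∧ ‖w - h‖ < ε) := by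
  have hc : CompleteSpace (HS Ω) := (HS_closed hN hb).completeSpace_coe
  obtain ⟨J0, hJ0⟩ := exists_J0 hN hb
  -- the larger exponent
  have hq0 : (0 : ℝ) ≤ q := by linarith
  obtain ⟨r, hr1, hr2⟩ := exists_exponent (q := q.toNNReal) hN (by rwa [Real.coe_toNNReal _ hq0])
  have hqr : q < r := by
    have := NNReal.coe_lt_coe.mpr hr1
    rwa [Real.coe_toNNReal _ hq0] at this
  refine ⟨HS Ω, inferInstance, inferInstance, hc, RL Ω ∘L J0, (HS Ω).subtypeₗᵢ, r, ?_, ?_, ?_, ?_⟩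
  · refine ⟨hq, hqr, hs_cut hN hb J0 hJ0 hc, ?_, hs_comp hN hb J0 hJ0⟩
    obtain ⟨C, hC0, hC⟩ := prim_sob hN hb (r := r) (by
      rw [← NNReal.coe_le_coe]; push_cast; linarith) hr2
    refine ⟨C, hC0, fun u => ?_⟩
    rw [ENNReal.ofReal_coe_nnreal, ContinuousLinearMap.comp_apply, eLpNorm_congr_ae (RL_coe _), hJ0]
    exact (eLpNorm_mono_measure _ Measure.restrict_le_self).trans (hC u)
  · exact hs_abs hN hb J0 hJ0 hc
  · intro u G
    have hJw : ∀ w : HS Ω, (RL Ω ∘L J0) w =ᵐ[volume.restrict Ω] prim w := by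
      intro w
      rw [ContinuousLinearMap.comp_apply, hJ0]
      exact RL_coe _
    constructor
    · rintro ⟨hu, hG, φ, hφ, h1, h2⟩
      have hφ' : ∀ n, IsTest Ω (φ n) := hφ
      have e1 : Tendsto (fun n => fL (hφ' n)) atTop (𝓝 (hu.toLp u)) :=
        (Lp.tendsto_Lp_iff_tendsto_eLpNorm'' _ (fun n => memLp_test (hφ' n) 2) _ hu).mpr h1
      have e2 : Tendsto (fun n => gL (hφ' n)) atTop (𝓝 (hG.toLp G)) :=
        (Lp.tendsto_Lp_iff_tendsto_eLpNorm'' _ (fun n => memLp_grad (hφ' n) 2) _ hG).mpr h2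
      have e3 : (hu.toLp u, hG.toLp G) ∈ DD Ω :=
        (DD_closed Ω).mem_of_tendsto (e1.prodMk_nhds e2)
          (Eventually.of_forall fun n => subset_closure (mem_PS (hφ' n)))
      set w : HS Ω := ⟨hG.toLp G, mem_HS.mpr ⟨_, e3⟩⟩ with hw
      have e4 : prim w = hu.toLp u := DD_unique hN hb (prim_mem w) e3
      have e5 : u =ᵐ[volume] prim w := by rw [e4]; exact hu.coeFn_toLp.symm
      refine ⟨?_, w, ?_, ?_⟩
      · have e6 : u =ᵐ[volume.restrict Ωᶜ] prim w := ae_restrict_of_ae e5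
        exact e6.trans (prim_off hΩ w)
      · have e6 : u =ᵐ[volume.restrict Ω] prim w := ae_restrict_of_ae e5
        exact e6.trans (hJw w).symm
      · exact hG.coeFn_toLp.symm
    · rintro ⟨hu0, w, huw, hGw⟩
      have e1 : u =ᵐ[volume] prim w := by
        have e6 : u =ᵐ[volume.restrict Ωᶜ] prim w := hu0.trans (prim_off hΩ w).symm
        have e7 : u =ᵐ[volume.restrict Ω] prim w := huw.trans (hJw w)
        rw [Filter.EventuallyEq, ae_restrict_iff' hΩ.measurableSet] at e7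
        rw [Filter.EventuallyEq, ae_restrict_iff' hΩ.measurableSet.compl] at e6
        filter_upwards [e6, e7] with x a1 a2
        by_cases hx : x ∈ Ω
        · exact a2 hx
        · exact a1 hx
      have hu : MemLp u 2 volume := (memLp_congr_ae e1).mpr (Lp.memLp (prim w))
      have hG : MemLp G 2 volume := (memLp_congr_ae hGw).mpr (Lp.memLp ((HS Ω).subtypeₗᵢ w))
      obtain ⟨φ, hφ, h1, h2⟩ := exists_seq w
      refine ⟨hu, hG, φ, hφ, ?_, ?_⟩
      · have e2 : prim w = hu.toLp u := Lp.ext (e1.symm.trans hu.coeFn_toLp.symm)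
        rw [e2] at h2
        exact (Lp.tendsto_Lp_iff_tendsto_eLpNorm'' _ (fun n => memLp_test (hφ n) 2) _ hu).mp h2
      · have e2 : (w : L2v N) = hG.toLp G := Lp.ext (hGw.symm.trans hG.coeFn_toLp.symm)
        have e3 : Tendsto (fun n => gL (hφ n)) atTop (𝓝 (hG.toLp G)) := by
          rw [← e2]
          exact (continuous_subtype_val.tendsto w).comp h1
        exact (Lp.tendsto_Lp_iff_tendsto_eLpNorm'' _ (fun n => memLp_grad (hφ n) 2) _ hG).mp e3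
  · intro w ε hε
    obtain ⟨φ, hφ, h1, h2⟩ := exists_seq w
    have e1 := (tendsto_iff_norm_sub_tendsto_zero.mp h1).eventually (gt_mem_nhds hε)
    obtain ⟨n, hn⟩ := e1.exists
    refine ⟨φ n, gH (hφ n), hφ n, J_gH hN hb J0 hJ0 (hφ n), gL_coe (hφ n), ?_⟩
    rw [norm_sub_rev]
    exact hn

end Pool.Agent.Helper420.QI.Conc
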