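import Pool.Agent.Helper420.QI.Dir
set_option autoImplicit false
set_option linter.unusedSectionVars false
set_option linter.unusedVariables false
open MeasureTheory Filter Topology Set
open scoped ENNReal NNReal InnerProductSpace

namespace Pool.Agent.Helper420.QI.W2

variable {α : Type*} [MeasurableSpace α] {μ : Measure α} [IsFiniteMeasure μ]
  {H : Type*} [NormedAddCommGroup H] [InnerProductSpace ℝ H] [CompleteSpace H]
  {J : H →L[ℝ] Lp ℝ 2 μ} {q r : ℝ}

omit [IsFiniteMeasure μ] [CompleteSpace H] in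
theorem star_comp (hD : Dir μ J q r) (z : H)
    (h : ∀ w : H, 0 ≤ᵐ[μ] J w → (∀ᵐ x ∂μ, J z x ≤ 0 → J w x = 0) → ⟪z, w⟫_ℝ ≤ 0) :
    ∀ᵐ x ∂μ, J z x ≤ 0 := by
  obtain ⟨w, hw1, hw2⟩ := hD.cut z 0 le_rfl
  have h0 : 0 ≤ᵐ[μ] J w := by
    filter_upwards [hw1] with x hx
    rw [hx]
    exact le_max_right _ _
  have h1 := h w h0 (by
    filter_upwards [hw1] with x hx hz
    rw [hx, sub_zero]
    exact max_eq_right hz)
  have h2 : w = 0 := by
    have : ‖w‖ ^ 2 ≤ 0 := hw2.trans h1
    have h3 : ‖w‖ = 0 := by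
      have := sq_nonneg ‖w‖
      exact pow_eq_zero_iff (two_ne_zero) |>.1 (le_antisymm ‹‖w‖ ^ 2 ≤ 0› this)
    exact norm_eq_zero.1 h3
  rw [h2, map_zero] at hw1
  filter_upwards [hw1, Lp.coeFn_zero ℝ 2 μ] with x hx hx0
  rw [hx0] at hx
  have : max (J z x - 0) 0 = 0 := hx.symm
  have h4 := le_max_left (J z x - 0) 0
  rw [this, sub_zero] at h4
  exact h4

omit [IsFiniteMeasure μ] in
theorem star_G {F : α → ℝ} (hF : MemLp F 2 μ) (J : H →L[ℝ] Lp ℝ 2 μ) :
    ∃ g : H, ∀ φ : H, ⟪g, φ⟫_ℝ = ∫ x, F x * J φ x ∂μ := by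
  refine ⟨ContinuousLinearMap.adjoint J (hF.toLp F), fun φ => ?_⟩
  rw [ContinuousLinearMap.adjoint_inner_left, L2.inner_def]
  apply integral_congr_ae
  filter_upwards [hF.coeFn_toLp] with x hx
  rw [hx]
  simp [mul_comm]

omit [CompleteSpace H] in
theorem star_int {F : α → ℝ} (hF : Measurable F) {C : ℝ} (hC : ∀ᵐ x ∂μ, |F x| ≤ C)
    (J : H →L[ℝ] Lp ℝ 2 μ) (φ : H) : Integrable (fun x => F x * J φ x) μ := by
  have h1 : Integrable (J φ) μ := (Lp.memLp (J φ)).integrable (by norm_num)
  exact h1.bdd_mul hF.aestronglyMeasurable hC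

theorem star (hD : Dir μ J q r)
    (ht : ∃ (t : H) (B : ℝ), (∀ φ : H, ⟪t, φ⟫_ℝ = ∫ x, J φ x ∂μ) ∧ ∀ᵐ x ∂μ, J t x ≤ B)
    {v : H} (hv0 : 0 ≤ᵐ[μ] J v) {M0 : ℝ} (hvM : ∀ᵐ x ∂μ, J v x ≤ M0)
    (hsup : ∀ φ : H, 0 ≤ᵐ[μ] J φ → 0 ≤ ⟪v, φ⟫_ℝ) {θ : ℝ} (hθ : 0 < θ) :
    ∃ (C : ℝ) (g : H), 0 ≤ C ∧ (∀ φ : H, ⟪g, φ⟫_ℝ = ∫ x, (J v x) ^ (1 + θ) * J φ x ∂μ) ∧
      0 ≤ᵐ[μ] J g ∧ ∀ᵐ x ∂μ, J g x ≤ C * J v x := by
  classical
  obtain ⟨t, B', htφ, hB'⟩ := ht
  set B : ℝ := max B' 0 with hBdef
  have hB0 : 0 ≤ B := le_max_right _ _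
  have hB : ∀ᵐ x ∂μ, J t x ≤ B := by
    filter_upwards [hB'] with x hx
    exact hx.trans (le_max_left _ _)
  set M : ℝ := max M0 1 with hMdef
  have hM0 : 0 < M := lt_of_lt_of_le one_pos (le_max_right _ _)
  have hM : ∀ᵐ x ∂μ, J v x ≤ M := by
    filter_upwards [hvM] with x hx
    exact hx.trans (le_max_left _ _)
  -- the functions
  obtain ⟨V, hV⟩ : ∃ V : α → ℝ, V = fun x => J v x := ⟨_, rfl⟩
  have hVm : Measurable V := by rw [hV]; exact (Lp.stronglyMeasurable (J v)).measurable
  have hVx : ∀ x, J v x = V x := fun x => by rw [hV]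
  simp only [hVx] at hM
  have hv0 : ∀ᵐ x ∂μ, 0 ≤ V x := by
    filter_upwards [hv0] with x hx
    rw [← hVx]
    exact hx
  simp only [hVx]
  set P : α → ℝ := fun x => (V x) ^ (1 + θ) with hP
  have hPm : Measurable P := hVm.pow_const _
  have hPb : ∀ᵐ x ∂μ, |P x| ≤ M ^ (1 + θ) := by
    filter_upwards [hv0, hM] with x h0 h1
    have h0' : 0 ≤ V x := h0
    rw [abs_of_nonneg (Real.rpow_nonneg h0' _)]
    exact Real.rpow_le_rpow h0' h1 (by linarith)
  obtain ⟨g, hg⟩ := star_G (MemLp.of_bound hPm.aestronglyMeasurable (M ^ (1 + θ)) hPb) J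
  set f : ℕ → α → ℝ := fun k x => if (M / 2 ^ (k + 1) < V x ∧ V x ≤ M / 2 ^ k) then V x else 0
    with hf
  have hfm : ∀ k, Measurable (f k) := by
    intro k
    exact Measurable.ite ((measurableSet_lt measurable_const hVm).inter
      (measurableSet_le hVm measurable_const)) hVm measurable_const
  have hfb : ∀ k, ∀ x, |f k x| ≤ M / 2 ^ k := by
    intro k x
    simp only [hf]
    have hp : 0 < M / 2 ^ (k + 1) := by positivity
    have hp' : 0 ≤ M / 2 ^ k := by positivity
    split_ifs with h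
    · rw [abs_of_pos (hp.trans h.1)]
      exact h.2
    · simpa using hp'
  have hexG : ∀ k, ∃ gk : H, ∀ φ : H, ⟪gk, φ⟫_ℝ = ∫ x, f k x * J φ x ∂μ := fun k =>
    star_G (MemLp.of_bound (hfm k).aestronglyMeasurable (M / 2 ^ k)
      (Eventually.of_forall (hfb k))) J
  choose G hG using hexG
  have hJsub : ∀ a b : H, ∀ᵐ x ∂μ, J (a - b) x = J a x - J b x := by
    intro a b
    rw [map_sub]
    exact Lp.coeFn_sub (J a) (J b)
  have hJadd : ∀ a b : H, ∀ᵐ x ∂μ, J (a + b) x = J a x + J b x := by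
    intro a b
    rw [map_add]
    exact Lp.coeFn_add (J a) (J b)
  have hJsmul : ∀ (c : ℝ) (a : H), ∀ᵐ x ∂μ, J (c • a) x = c * J a x := by
    intro c a
    rw [map_smul]
    exact Lp.coeFn_smul c (J a)
  have hint1 : ∀ φ : H, Integrable (fun x => J φ x) μ := fun φ =>
    (Lp.memLp (J φ)).integrable (by norm_num)
  -- bound of G k by the torsion
  have hGB : ∀ k, ∀ᵐ x ∂μ, J (G k) x ≤ M / 2 ^ k * B := by
    intro k
    have h1 := star_comp hD (G k - (M / 2 ^ k) • t) (by
      intro w hw _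
      rw [inner_sub_left, inner_smul_left, hG, htφ]
      simp only [conj_trivial]
      rw [← integral_const_mul, ← integral_sub (star_int (hfm k)
        (Eventually.of_forall (hfb k)) J w) ((hint1 w).const_mul _)]
      apply integral_nonpos_of_ae
      filter_upwards [hw] with x hx
      have hx' : 0 ≤ J w x := hx
      have := (abs_le.1 (hfb k x)).2
      show f k x * J w x - M / 2 ^ k * J w x ≤ 0
      nlinarith)
    filter_upwards [h1, hJsub (G k) ((M / 2 ^ k) • t), hJsmul (M / 2 ^ k) t, hB]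
      with x a1 a2 a3 a4
    rw [a2, a3] at a1
    have : M / 2 ^ k * J t x ≤ M / 2 ^ k * B := mul_le_mul_of_nonneg_left a4 (by positivity)
    linarith
  have hGV : ∀ k, ∀ᵐ x ∂μ, J (G k) x ≤ 2 * B * V x := by
    intro k
    have hJz : ∀ᵐ x ∂μ, J (G k - (2 * B) • v) x = J (G k) x - 2 * B * V x := by
      filter_upwards [hJsub (G k) ((2 * B) • v), hJsmul (2 * B) v] with x a1 a2
      rw [a1, a2, hVx]
    have h1 := star_comp hD (G k - (2 * B) • v) (by
      intro w hw hwz
      rw [inner_sub_left, inner_smul_left, hG]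
      simp only [conj_trivial]
      have h2 : ∫ x, f k x * J w x ∂μ = 0 := by
        rw [← integral_zero α ℝ]
        apply integral_congr_ae
        filter_upwards [hwz, hJz, hGB k] with x a1 a2 a3
        by_cases hx : (M / 2 ^ (k + 1) < V x ∧ V x ≤ M / 2 ^ k)
        · have : J w x = 0 := by
            apply a1
            rw [a2]
            have e : M / 2 ^ k = 2 * (M / 2 ^ (k + 1)) := by
              rw [pow_succ]; field_simp
            rw [e] at a3
            nlinarith [hx.1]
          rw [this, mul_zero]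
        · simp only [hf]
          rw [if_neg hx, zero_mul]
      rw [h2]
      have := hsup w hw
      nlinarith)
    filter_upwards [h1, hJz] with x a1 a2
    linarith
  -- nonnegativity of g
  have hg0 : 0 ≤ᵐ[μ] J g := by
    have h1 := star_comp hD (-g) (by
      intro w hw _
      rw [inner_neg_left, hg, neg_nonpos]
      apply integral_nonneg_of_ae
      filter_upwards [hw, hv0] with x hx hx0
      have hx' : 0 ≤ J w x := hx
      have hx0' : 0 ≤ V x := hx0
      exact mul_nonneg (Real.rpow_nonneg hx0' _) hx')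
    have h2 : ∀ᵐ x ∂μ, J (-g) x = - J g x := by
      rw [map_neg]
      exact Lp.coeFn_neg (J g)
    filter_upwards [h1, h2] with x a1 a2
    rw [a2] at a1
    show (0:ℝ) ≤ J g x
    linarith
  -- the finite sums
  set c : ℕ → ℝ := fun k => (M / 2 ^ k) ^ θ with hc
  have hc0 : ∀ k, 0 ≤ c k := fun k => Real.rpow_nonneg (by positivity) _
  set ρ : ℝ := (2:ℝ) ^ (-θ) with hρ
  have hρ0 : 0 < ρ := Real.rpow_pos_of_pos (by norm_num) _
  have hρ1 : ρ < 1 := by
    rw [hρ]
    exact Real.rpow_lt_one_of_one_lt_of_neg (by norm_num) (by linarith)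
  have hcρ : ∀ k, c k = M ^ θ * ρ ^ k := by
    intro k
    simp only [hc, hρ]
    rw [Real.div_rpow hM0.le (by positivity), ← Real.rpow_natCast (2:ℝ) k, ← Real.rpow_mul (by norm_num),
      ← Real.rpow_natCast ((2:ℝ) ^ (-θ)) k, ← Real.rpow_mul (by norm_num), div_eq_mul_inv,
      ← Real.rpow_neg (by norm_num)]
    congr 2
    ring
  have hcsum : ∀ K, ∑ k ∈ Finset.range K, c k ≤ M ^ θ / (1 - ρ) := by
    intro K
    have h1 : ∑ k ∈ Finset.range K, c k = M ^ θ * ∑ k ∈ Finset.range K, ρ ^ k := by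
      rw [Finset.mul_sum]
      exact Finset.sum_congr rfl (fun k _ => hcρ k)
    have h2 : ∑ k ∈ Finset.range K, ρ ^ k ≤ 1 / (1 - ρ) := by
      rw [geom_sum_eq hρ1.ne, ← neg_div_neg_eq]
      apply div_le_div_of_nonneg_right _ (by linarith) |>.trans_eq' _
      · exact 1 - ρ ^ K
      · have := pow_nonneg hρ0.le K
        linarith
      · congr 1 <;> ring
    rw [h1, div_eq_mul_one_div]
    exact mul_le_mul_of_nonneg_left h2 (Real.rpow_nonneg hM0.le _)
  have hSV : ∀ K, ∀ᵐ x ∂μ, J (∑ k ∈ Finset.range K, c k • G k) x ≤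
      (∑ k ∈ Finset.range K, c k) * (2 * B * V x) := by
    intro K
    induction K with
    | zero =>
      simp only [Finset.range_zero, Finset.sum_empty, map_zero, zero_mul]
      filter_upwards [Lp.coeFn_zero ℝ 2 μ] with x hx
      rw [hx]
      simp
    | succ K ih =>
      simp only [Finset.sum_range_succ]
      filter_upwards [ih, hJadd (∑ k ∈ Finset.range K, c k • G k) (c K • G K), hJsmul (c K) (G K),
        hGV K] with x a1 a2 a3 a4
      rw [a2, a3]
      have := mul_le_mul_of_nonneg_left a4 (hc0 K)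
      linarith
  have hpt : ∀ K : ℕ, ∀ x, 0 ≤ V x → V x ≤ M →
      P x ≤ ∑ k ∈ Finset.range K, c k * f k x + (M / 2 ^ K) ^ (1 + θ) := by
    intro K x h0 h1
    have hfn : ∀ k, 0 ≤ f k x := by
      intro k
      simp only [hf]
      split_ifs
      · exact h0
      · exact le_rfl
    induction K with
    | zero =>
      simp only [Finset.range_zero, Finset.sum_empty, pow_zero, div_one, zero_add]
      exact Real.rpow_le_rpow h0 h1 (by linarith)
    | succ K ih =>
      by_cases hx : V x ≤ M / 2 ^ (K + 1)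
      · have : 0 ≤ ∑ k ∈ Finset.range (K + 1), c k * f k x :=
          Finset.sum_nonneg (fun k _ => mul_nonneg (hc0 k) (hfn k))
        have h2 : P x ≤ (M / 2 ^ (K + 1)) ^ (1 + θ) := Real.rpow_le_rpow h0 hx (by linarith)
        linarith
      · push Not at hx
        have hpos : 0 < V x := lt_of_le_of_lt (by positivity) hx
        have hpos2 : 0 ≤ (M / 2 ^ (K + 1)) ^ (1 + θ) := Real.rpow_nonneg (by positivity) _
        -- find k
        have hex : ∃ k, k < K + 1 ∧ M / 2 ^ (k + 1) < V x ∧ V x ≤ M / 2 ^ k := by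
          have hE : ∃ k, M / 2 ^ (k + 1) < V x := ⟨K, hx⟩
          refine ⟨Nat.find hE, ?_, Nat.find_spec hE, ?_⟩
          · have := Nat.find_le (h := hE) hx
            omega
          · rcases Nat.eq_zero_or_pos (Nat.find hE) with h | h
            · rw [h]; simpa using h1
            · have := Nat.find_min hE (m := Nat.find hE - 1) (by omega)
              rw [Nat.sub_add_cancel h] at this
              exact not_lt.1 this
        obtain ⟨k, hk, hk1, hk2⟩ := hex
        have h2 : c k * f k x ≤ ∑ k ∈ Finset.range (K + 1), c k * f k x :=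
          Finset.single_le_sum (f := fun k => c k * f k x)
            (fun k _ => mul_nonneg (hc0 k) (hfn k)) (Finset.mem_range.2 hk)
        have h3 : P x ≤ c k * f k x := by
          simp only [hP, hc, hf]
          rw [if_pos ⟨hk1, hk2⟩, add_comm, Real.rpow_add hpos, Real.rpow_one]
          exact mul_le_mul_of_nonneg_right (Real.rpow_le_rpow h0 hk2 hθ.le) h0
        linarith
  have hmain : ∀ K : ℕ, ∀ᵐ x ∂μ, J g x ≤ M ^ θ / (1 - ρ) * (2 * B * V x) +
      (M / 2 ^ K) ^ (1 + θ) * B := by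
    intro K
    set ε : ℝ := (M / 2 ^ K) ^ (1 + θ) with hε
    have hε0 : 0 ≤ ε := Real.rpow_nonneg (by positivity) _
    set S : H := ∑ k ∈ Finset.range K, c k • G k with hS
    have h1 := star_comp hD (g - (S + ε • t)) (by
      intro w hw _
      have e1 : ⟪S, w⟫_ℝ = ∫ x, (∑ k ∈ Finset.range K, c k * f k x) * J w x ∂μ := by
        rw [hS, sum_inner]
        have : ∀ k, ⟪c k • G k, w⟫_ℝ = ∫ x, c k * f k x * J w x ∂μ := by
          intro k
          rw [inner_smul_left, hG]
          simp only [conj_trivial]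
          rw [← integral_const_mul]
          simp only [mul_assoc]
        simp only [this, Finset.sum_mul]
        rw [integral_finsetSum]
        intro k _
        have := (star_int (hfm k) (Eventually.of_forall (hfb k)) J w).const_mul (c k)
        simpa only [mul_assoc] using this
      have i1 : Integrable (fun x => P x * J w x) μ := star_int hPm hPb J w
      have i2 : Integrable (fun x => (∑ k ∈ Finset.range K, c k * f k x) * J w x) μ := by
        simp only [Finset.sum_mul]
        apply integrable_finsetSum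
        intro k _
        have := (star_int (hfm k) (Eventually.of_forall (hfb k)) J w).const_mul (c k)
        simpa only [mul_assoc] using this
      have i3 : Integrable (fun x => ε * J w x) μ := (hint1 w).const_mul _
      rw [inner_sub_left, inner_add_left, inner_smul_left, hg, e1, htφ]
      simp only [conj_trivial]
      have i23 : Integrable (fun x => (∑ k ∈ Finset.range K, c k * f k x) * J w x + ε * J w x) μ :=
        i2.add i3
      rw [← integral_const_mul, ← integral_add i2 i3, ← integral_sub i1 i23]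
      apply integral_nonpos_of_ae
      filter_upwards [hw, hv0, hM] with x hx h0 hMx
      have hx' : 0 ≤ J w x := hx
      have := hpt K x h0 hMx
      show P x * J w x - ((∑ k ∈ Finset.range K, c k * f k x) * J w x + ε * J w x) ≤ 0
      nlinarith)
    filter_upwards [h1, hJsub g (S + ε • t), hJadd S (ε • t), hJsmul ε t, hB, hSV K, hv0]
      with x a1 a2 a3 a4 a5 a6 a7
    rw [a2, a3, a4] at a1
    have a7' : 0 ≤ V x := a7
    have b1 : ε * J t x ≤ ε * B := mul_le_mul_of_nonneg_left a5 hε0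
    have b2 : (∑ k ∈ Finset.range K, c k) * (2 * B * V x) ≤ M ^ θ / (1 - ρ) * (2 * B * V x) :=
      mul_le_mul_of_nonneg_right (hcsum K) (by positivity)
    linarith
  refine ⟨M ^ θ / (1 - ρ) * (2 * B), g, ?_, hg, hg0, ?_⟩
  · have : 0 < 1 - ρ := by linarith
    have := Real.rpow_nonneg hM0.le θ
    positivity
  · filter_upwards [ae_all_iff.2 hmain] with x hx
    have hlim : Tendsto (fun K : ℕ => M ^ θ / (1 - ρ) * (2 * B * V x) +
        (M / 2 ^ K) ^ (1 + θ) * B) atTop (𝓝 (M ^ θ / (1 - ρ) * (2 * B * V x) + 0 * B)) := by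
      apply Tendsto.add tendsto_const_nhds
      apply Tendsto.mul_const
      have h1 : Tendsto (fun K : ℕ => M / 2 ^ K) atTop (𝓝 0) := by
        have := (tendsto_pow_atTop_nhds_zero_of_lt_one (r := (1/2:ℝ)) (by norm_num)
          (by norm_num)).const_mul M
        rw [mul_zero] at this
        refine this.congr (fun K => ?_)
        rw [one_div, inv_pow, div_eq_mul_inv]
      have h2 := h1.rpow_const (p := 1 + θ) (Or.inr (by linarith))
      rwa [Real.zero_rpow (by linarith)] at h2
    have := ge_of_tendsto' hlim hx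
    linarith


end Pool.Agent.Helper420.QI.W2
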