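import Pool.Agent.Helper420.QI.W1
import Pool.Agent.Helper420.QI.W2
set_option autoImplicit false
set_option linter.unusedSectionVars false
set_option linter.unusedVariables false
open MeasureTheory Filter Topology Set
open scoped ENNReal NNReal InnerProductSpace
open Pool.Agent.Helper420.QI.W1 Pool.Agent.Helper420.QI.W2

namespace Pool.Agent.Helper420.QI.W4

variable {α : Type*} [MeasurableSpace α] {μ : Measure α} [IsFiniteMeasure μ]
  {H : Type*} [NormedAddCommGroup H] [InnerProductSpace ℝ H] [CompleteSpace H]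
  {J : H →L[ℝ] Lp ℝ 2 μ} {q r : ℝ}

omit [CompleteSpace H] in
/-- every `J u` is in `L^q` -/
theorem memLpq (hD : Dir μ J q r) (u : H) : MemLp (J u) (ENNReal.ofReal q) μ := by
  obtain ⟨C, hC, h⟩ := hD.sob
  have h1 : MemLp (J u) (ENNReal.ofReal r) μ :=
    ⟨Lp.aestronglyMeasurable _, lt_of_le_of_lt (h u) ENNReal.ofReal_lt_top⟩
  exact h1.mono_exponent (ENNReal.ofReal_le_ofReal hD.q_lt.le)

omit [CompleteSpace H] in
theorem intq (hD : Dir μ J q r) (u : H) : Integrable (fun x => |J u x| ^ q) μ := by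
  have h := (memLpq hD u).integrable_norm_rpow (by
    have := hD.two_lt
    simp only [ne_eq, ENNReal.ofReal_eq_zero, not_le]; linarith) ENNReal.ofReal_ne_top
  rw [ENNReal.toReal_ofReal (by have := hD.two_lt; linarith)] at h
  simpa [Real.norm_eq_abs] using h

omit [CompleteSpace H] [IsFiniteMeasure μ] in
theorem aem (u : H) : AEStronglyMeasurable (fun x => J u x) μ := Lp.aestronglyMeasurable _

theorem young_simple {q a b : ℝ} (hq : 2 < q) (ha : 0 ≤ a) (hb : 0 ≤ b) :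
    a ^ (q - 1) * b ≤ a ^ q + b ^ q := by
  rcases le_total a b with h | h
  · have h1 : a ^ (q - 1) ≤ b ^ (q - 1) := Real.rpow_le_rpow ha h (by linarith)
    have h2 : b ^ (q - 1) * b = b ^ q := by
      rcases hb.eq_or_lt with h0 | h0
      · rw [← h0, Real.zero_rpow (by linarith : q ≠ 0)]; simp
      · rw [← Real.rpow_add_one h0.ne']; congr 1; ring
    have h3 : 0 ≤ a ^ q := Real.rpow_nonneg ha _
    nlinarith [mul_le_mul_of_nonneg_right h1 hb]
  · have h2 : a ^ (q - 1) * a = a ^ q := by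
      rcases ha.eq_or_lt with h0 | h0
      · rw [← h0, Real.zero_rpow (by linarith : q ≠ 0)]; simp
      · rw [← Real.rpow_add_one h0.ne']; congr 1; ring
    have h3 : 0 ≤ b ^ q := Real.rpow_nonneg hb _
    have h4 : 0 ≤ a ^ (q - 1) := Real.rpow_nonneg ha _
    nlinarith [mul_le_mul_of_nonneg_left h h4]

omit [CompleteSpace H] in
theorem int1 (hD : Dir μ J q r) (u φ : H) :
    Integrable (fun x => |J u x| ^ (q - 1) * J φ x) μ := by
  refine Integrable.mono ((intq hD u).add (intq hD φ)) ?_ ?_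
  · exact ((((aem (J := J) u).norm.aemeasurable.pow_const (q - 1)).aestronglyMeasurable).mul (aem φ))
  · filter_upwards with x
    simp only [Pi.add_apply, Real.norm_eq_abs, abs_mul]
    rw [abs_of_nonneg (Real.rpow_nonneg (abs_nonneg _) _)]
    rw [abs_of_nonneg (add_nonneg (Real.rpow_nonneg (abs_nonneg _) _)
      (Real.rpow_nonneg (abs_nonneg _) _))]
    exact young_simple hD.two_lt (abs_nonneg _) (abs_nonneg _)

omit [CompleteSpace H] in
theorem int0 (φ : H) : Integrable (fun x => J φ x) μ :=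
  (Lp.memLp (J φ)).integrable (by norm_num)

omit [CompleteSpace H] [IsFiniteMeasure μ] in
/-- comparison principle -/
theorem le_zero_of_cut (hD : Dir μ J q r) (z : H)
    (h : ∀ φ : H, 0 ≤ᵐ[μ] J φ → (J φ =ᵐ[μ] fun x => max (J z x) 0) → ⟪z, φ⟫_ℝ ≤ 0) :
    ∀ᵐ x ∂μ, J z x ≤ 0 := by
  obtain ⟨w, hw, hn⟩ := hD.cut z 0 le_rfl
  simp only [sub_zero] at hw
  have h1 : ⟪z, w⟫_ℝ ≤ 0 := h w (by
    filter_upwards [hw] with x hx
    simp only [Pi.zero_apply]
    rw [hx]; exact le_max_right _ _) hw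
  have h2 : w = 0 := by
    have : ‖w‖ ^ 2 ≤ 0 := hn.trans h1
    have h3 : ‖w‖ = 0 := by nlinarith [norm_nonneg w]
    exact norm_eq_zero.1 h3
  have h4 : J w =ᵐ[μ] 0 := by
    rw [h2, map_zero]; exact Lp.coeFn_zero _ _ _
  filter_upwards [hw, h4] with x hx hx4
  have : max (J z x) 0 = 0 := by rw [← hx, hx4]; rfl
  calc J z x ≤ max (J z x) 0 := le_max_left _ _
    _ = 0 := this

theorem bdd_u0 (hD : Dir μ J q r) (u0 : H)
    (hu0 : ∀ φ : H, ⟪u0, φ⟫_ℝ = ∫ x, |J u0 x| ^ (q - 2) * J u0 x * J φ x ∂μ) :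
    ∃ B : ℝ, 0 ≤ B ∧ ∀ᵐ x ∂μ, |J u0 x| ≤ B := by
  have hq := hD.two_lt
  have key : ∀ (a : ℝ), |(|a| ^ (q - 2) * a)| = |a| ^ (q - 1) := by
    intro a
    rw [abs_mul, abs_of_nonneg (Real.rpow_nonneg (abs_nonneg a) _)]
    rcases (abs_nonneg a).eq_or_lt with h0 | h0
    · rw [← h0, Real.zero_rpow (by linarith : q - 1 ≠ 0)]; simp
    · rw [← Real.rpow_add_one h0.ne']; congr 1; ring
  have hint : ∀ φ : H, Integrable (fun x => |J u0 x| ^ (q - 2) * J u0 x * J φ x) μ := by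
    intro φ
    refine (int1 hD u0 φ).norm.mono' ?_ ?_
    · exact ((((aem (J := J) u0).norm.aemeasurable.pow_const (q - 2)).aestronglyMeasurable).mul
        (aem u0)).mul (aem φ)
    · filter_upwards with x
      rw [Real.norm_eq_abs, Real.norm_eq_abs, abs_mul, key, abs_mul,
        abs_of_nonneg (Real.rpow_nonneg (abs_nonneg _) _)]
  have hint2 : ∀ φ : H, Integrable (fun x => (1 + |J u0 x| ^ (q - 1)) * J φ x) μ := by
    intro φ
    have := (int0 (J := J) φ).add (int1 hD u0 φ)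
    refine this.congr ?_
    filter_upwards with x
    simp only [Pi.add_apply]; ring
  obtain ⟨B1, hB1⟩ := stamp_bdd hD (M := 1) u0 (by
    intro φ hφ
    rw [hu0, one_mul]
    refine integral_mono_ae (hint φ) (hint2 φ) ?_
    filter_upwards [hφ] with x hx
    simp only [Pi.zero_apply] at hx
    refine mul_le_mul_of_nonneg_right ?_ hx
    calc |J u0 x| ^ (q - 2) * J u0 x ≤ |(|J u0 x| ^ (q - 2) * J u0 x)| := le_abs_self _
      _ = |J u0 x| ^ (q - 1) := key _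
      _ ≤ 1 + |J u0 x| ^ (q - 1) := by linarith)
  have hneg : ∀ᵐ x ∂μ, J (-u0) x = - J u0 x := by
    rw [map_neg]; exact Lp.coeFn_neg _
  obtain ⟨B2, hB2⟩ := stamp_bdd hD (M := 1) (-u0) (by
    intro φ hφ
    rw [inner_neg_left, hu0, one_mul, ← integral_neg]
    have : (∫ x, (1 + |J (-u0) x| ^ (q - 1)) * J φ x ∂μ) =
      ∫ x, (1 + |J u0 x| ^ (q - 1)) * J φ x ∂μ := by
      refine integral_congr_ae ?_
      filter_upwards [hneg] with x hx
      rw [hx, abs_neg]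
    rw [this]
    refine integral_mono_ae (hint φ).neg (hint2 φ) ?_
    filter_upwards [hφ] with x hx
    simp only [Pi.zero_apply] at hx
    rw [← neg_mul]
    refine mul_le_mul_of_nonneg_right ?_ hx
    calc -(|J u0 x| ^ (q - 2) * J u0 x) ≤ |(|J u0 x| ^ (q - 2) * J u0 x)| := neg_le_abs _
      _ = |J u0 x| ^ (q - 1) := key _
      _ ≤ 1 + |J u0 x| ^ (q - 1) := by linarith)
  refine ⟨max 0 (max B1 B2), le_max_left _ _, ?_⟩
  filter_upwards [hB1, hB2, hneg] with x h1 h2 h3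
  rw [h3] at h2
  exact abs_le.2 ⟨by have := (le_max_right B1 B2).trans (le_max_right 0 _); linarith,
    by have := (le_max_left B1 B2).trans (le_max_right 0 _); linarith⟩

theorem torsion (hD : Dir μ J q r) :
    ∃ (t : H) (B : ℝ), (∀ φ : H, ⟪t, φ⟫_ℝ = ∫ x, J φ x ∂μ) ∧ ∀ᵐ x ∂μ, J t x ≤ B := by
  have h1 : MemLp (fun _ : α => (1 : ℝ)) 2 μ := memLp_const 1
  let t : H := J.adjoint (h1.toLp _)
  have ht : ∀ φ : H, ⟪t, φ⟫_ℝ = ∫ x, J φ x ∂μ := by
    intro φ
    simp only [t]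
    rw [ContinuousLinearMap.adjoint_inner_left, L2.inner_def]
    refine integral_congr_ae ?_
    filter_upwards [h1.coeFn_toLp] with x hx
    rw [hx]; simp
  obtain ⟨B, hB⟩ := stamp_bdd hD (M := 1) t (by
    intro φ hφ
    rw [ht, one_mul]
    refine integral_mono_ae (int0 φ) ?_ ?_
    · refine ((int0 (J := J) φ).add (int1 hD t φ)).congr ?_
      filter_upwards with x
      simp only [Pi.add_apply]; ring
    · filter_upwards [hφ] with x hx
      simp only [Pi.zero_apply] at hx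
      have := Real.rpow_nonneg (abs_nonneg (J t x)) (q - 1)
      nlinarith [mul_nonneg this hx])
  exact ⟨t, B, ht, hB⟩

/-- measurability of the weight -/
theorem wmeas (u0 : H) (q : ℝ) :
    AEMeasurable (fun x => ENNReal.ofReal (|J u0 x| ^ q)) μ :=
  (((aem (J := J) u0).norm.aemeasurable.pow_const q)).ennreal_ofReal

theorem ae_of_m (u0 : H) {q : ℝ} {p : α → Prop}
    (h : ∀ᵐ x ∂(μ.withDensity fun x => ENNReal.ofReal (|J u0 x| ^ q)), p x) :
    ∀ᵐ x ∂μ, J u0 x ≠ 0 → p x := by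
  rw [ae_withDensity_iff' (wmeas u0 q)] at h
  filter_upwards [h] with x hx h0
  apply hx
  have : 0 < |J u0 x| ^ q := Real.rpow_pos_of_pos (abs_pos.2 h0) _
  simpa using this

theorem ae_to_m (u0 : H) {q : ℝ} (hq : 0 < q) {p : α → Prop}
    (h : ∀ᵐ x ∂μ, J u0 x ≠ 0 → p x) :
    ∀ᵐ x ∂(μ.withDensity fun x => ENNReal.ofReal (|J u0 x| ^ q)), p x := by
  rw [ae_withDensity_iff' (wmeas u0 q)]
  filter_upwards [h] with x hx h0
  apply hx
  rintro h1
  apply h0
  rw [h1, abs_zero, Real.zero_rpow hq.ne', ENNReal.ofReal_zero]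

theorem absU (hq : 2 < q) (a : ℝ) : |(|a| ^ (q - 2) * a)| = |a| ^ (q - 1) := by
  rw [abs_mul, abs_of_nonneg (Real.rpow_nonneg (abs_nonneg a) _)]
  rcases (abs_nonneg a).eq_or_lt with h0 | h0
  · rw [← h0, Real.zero_rpow (by linarith : q - 1 ≠ 0)]; simp
  · rw [← Real.rpow_add_one h0.ne']; congr 1; ring

theorem Fbound (hq : 2 < q) (u0 : H)
    (y : Lp ℝ ∞ (μ.withDensity fun x => ENNReal.ofReal (|J u0 x| ^ q))) :
    ∀ᵐ x ∂μ, |(|J u0 x| ^ (q - 2) * J u0 x * y x)| ≤ ‖y‖ * |J u0 x| ^ (q - 1) := by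
  have h : ∀ᵐ x ∂(μ.withDensity fun x => ENNReal.ofReal (|J u0 x| ^ q)), ‖y x‖ ≤ ‖y‖ := by
    have h1 := ae_le_eLpNormEssSup (f := y)
      (μ := (μ.withDensity fun x => ENNReal.ofReal (|J u0 x| ^ q)))
    filter_upwards [h1] with x hx
    have h2 : ‖y‖ = (eLpNormEssSup y
      (μ.withDensity fun x => ENNReal.ofReal (|J u0 x| ^ q))).toReal := by
      rw [Lp.norm_def, eLpNorm_exponent_top]
    have h3 : eLpNormEssSup y (μ.withDensity fun x => ENNReal.ofReal (|J u0 x| ^ q)) ≠ ∞ := by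
      rw [← eLpNorm_exponent_top]; exact (Lp.memLp y).2.ne
    rw [h2, ← toReal_enorm]
    exact (ENNReal.toReal_le_toReal (by simp) h3).2 hx
  filter_upwards [ae_of_m u0 h] with x hx
  rw [abs_mul, absU hq]
  by_cases h0 : J u0 x = 0
  · rw [h0, abs_zero, Real.zero_rpow (by linarith : q - 1 ≠ 0)]; simp
  · rw [mul_comm]
    exact mul_le_mul_of_nonneg_right (by simpa [Real.norm_eq_abs] using hx h0)
      (Real.rpow_nonneg (abs_nonneg _) _)

theorem Fmeas (u0 : H)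
    (y : Lp ℝ ∞ (μ.withDensity fun x => ENNReal.ofReal (|J u0 x| ^ q))) :
    AEStronglyMeasurable (fun x => |J u0 x| ^ (q - 2) * J u0 x * y x) μ :=
  (((((aem (J := J) u0).norm.aemeasurable.pow_const (q - 2)).aestronglyMeasurable).mul
        (aem u0))).mul (Lp.stronglyMeasurable y).aestronglyMeasurable

theorem Fint (hD : Dir μ J q r) (u0 : H)
    (y : Lp ℝ ∞ (μ.withDensity fun x => ENNReal.ofReal (|J u0 x| ^ q))) (φ : H) :
    Integrable (fun x => |J u0 x| ^ (q - 2) * J u0 x * y x * J φ x) μ := by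
  refine ((int1 hD u0 φ).norm.const_mul ‖y‖).mono' ((Fmeas u0 y).mul (aem φ)) ?_
  filter_upwards [Fbound hD.two_lt u0 y] with x hx
  rw [Real.norm_eq_abs, Real.norm_eq_abs, abs_mul, abs_mul (|J u0 x| ^ (q - 1)),
    abs_of_nonneg (Real.rpow_nonneg (abs_nonneg (J u0 x)) (q - 1)), ← mul_assoc]
  exact mul_le_mul_of_nonneg_right hx (abs_nonneg _)

theorem Gex (hD : Dir μ J q r) (u0 : H) {B : ℝ} (hB : ∀ᵐ x ∂μ, |J u0 x| ≤ B)
    (y : Lp ℝ ∞ (μ.withDensity fun x => ENNReal.ofReal (|J u0 x| ^ q))) :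
    ∃ g : H, ∀ φ : H, ⟪g, φ⟫_ℝ = ∫ x, |J u0 x| ^ (q - 2) * J u0 x * y x * J φ x ∂μ := by
  have hF : MemLp (fun x => |J u0 x| ^ (q - 2) * J u0 x * y x) 2 μ := by
    refine MemLp.of_bound (Fmeas u0 y) (‖y‖ * B ^ (q - 1)) ?_
    filter_upwards [Fbound hD.two_lt u0 y, hB] with x hx hb
    rw [Real.norm_eq_abs]
    refine hx.trans (mul_le_mul_of_nonneg_left ?_ (norm_nonneg _))
    exact Real.rpow_le_rpow (abs_nonneg _) hb (by have := hD.two_lt; linarith)
  refine ⟨J.adjoint (hF.toLp _), fun φ => ?_⟩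
  rw [ContinuousLinearMap.adjoint_inner_left, L2.inner_def]
  refine integral_congr_ae ?_
  filter_upwards [hF.coeFn_toLp] with x hx
  rw [hx]
  simp only [RCLike.inner_apply, conj_trivial]
  ring

/-- `|J (G y)| ≤ ‖y‖ V` -/
theorem Gbound (hD : Dir μ J q r) (u0 v0 : H)
    (hv0 : J v0 =ᵐ[μ] fun x => |J u0 x|)
    (hsup : ∀ φ : H, 0 ≤ᵐ[μ] J φ → ∫ x, (J v0 x) ^ (q - 1) * J φ x ∂μ ≤ ⟪v0, φ⟫_ℝ)
    (y : Lp ℝ ∞ (μ.withDensity fun x => ENNReal.ofReal (|J u0 x| ^ q))) (g : H)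
    (hg : ∀ φ : H, ⟪g, φ⟫_ℝ = ∫ x, |J u0 x| ^ (q - 2) * J u0 x * y x * J φ x ∂μ) :
    ∀ᵐ x ∂μ, |J g x| ≤ ‖y‖ * |J u0 x| := by
  have hV : ∀ φ : H, (∫ x, (J v0 x) ^ (q - 1) * J φ x ∂μ) =
      ∫ x, |J u0 x| ^ (q - 1) * J φ x ∂μ := by
    intro φ
    refine integral_congr_ae ?_
    filter_upwards [hv0] with x hx
    rw [hx]
  have hsub : ∀ (z : H), ∀ᵐ x ∂μ, J (z - ‖y‖ • v0) x = J z x - ‖y‖ * |J u0 x| := by
    intro z
    have h1 := Lp.coeFn_sub (J z) (J (‖y‖ • v0))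
    have h2 := Lp.coeFn_smul ‖y‖ (J v0)
    rw [← map_smul] at h2
    rw [← map_sub] at h1
    filter_upwards [h1, h2, hv0] with x h1 h2 h3
    rw [h1, Pi.sub_apply, h2, Pi.smul_apply, h3, smul_eq_mul]
  have hp : ∀ᵐ x ∂μ, J (g - ‖y‖ • v0) x ≤ 0 := by
    refine le_zero_of_cut hD _ fun φ hφ _ => ?_
    rw [inner_sub_left, inner_smul_left, hg, sub_nonpos]
    calc ∫ x, |J u0 x| ^ (q - 2) * J u0 x * y x * J φ x ∂μ
        ≤ ∫ x, ‖y‖ * (|J u0 x| ^ (q - 1) * J φ x) ∂μ := by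
          refine integral_mono_ae (Fint hD u0 y φ) ((int1 hD u0 φ).const_mul _) ?_
          filter_upwards [Fbound hD.two_lt u0 y, hφ] with x hx h0
          simp only [Pi.zero_apply] at h0
          rw [← mul_assoc]
          exact mul_le_mul_of_nonneg_right ((le_abs_self _).trans hx) h0
      _ = ‖y‖ * ∫ x, |J u0 x| ^ (q - 1) * J φ x ∂μ := integral_const_mul _ _
      _ ≤ _ := by
          rw [← hV]
          exact mul_le_mul_of_nonneg_left (hsup φ hφ) (norm_nonneg _)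
  have hm : ∀ᵐ x ∂μ, J (-g - ‖y‖ • v0) x ≤ 0 := by
    refine le_zero_of_cut hD _ fun φ hφ _ => ?_
    rw [inner_sub_left, inner_smul_left, inner_neg_left, hg, sub_nonpos, ← integral_neg]
    calc ∫ x, -(|J u0 x| ^ (q - 2) * J u0 x * y x * J φ x) ∂μ
        ≤ ∫ x, ‖y‖ * (|J u0 x| ^ (q - 1) * J φ x) ∂μ := by
          refine integral_mono_ae (Fint hD u0 y φ).neg ((int1 hD u0 φ).const_mul _) ?_
          filter_upwards [Fbound hD.two_lt u0 y, hφ] with x hx h0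
          simp only [Pi.zero_apply] at h0
          rw [← mul_assoc, ← neg_mul]
          exact mul_le_mul_of_nonneg_right ((neg_le_abs _).trans hx) h0
      _ = ‖y‖ * ∫ x, |J u0 x| ^ (q - 1) * J φ x ∂μ := integral_const_mul _ _
      _ ≤ _ := by
          rw [← hV]
          exact mul_le_mul_of_nonneg_left (hsup φ hφ) (norm_nonneg _)
  have hneg : ∀ᵐ x ∂μ, J (-g) x = - J g x := by
    rw [map_neg]; exact Lp.coeFn_neg _
  filter_upwards [hp, hm, hsub g, hsub (-g), hneg] with x h1 h2 h3 h4 h5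
  rw [h3] at h1
  rw [h4, h5] at h2
  exact abs_le.2 ⟨by linarith, by linarith⟩

theorem gnorm (hD : Dir μ J q r) (u0 v0 : H)
    (hv0 : J v0 =ᵐ[μ] fun x => |J u0 x|)
    (hsup : ∀ φ : H, 0 ≤ᵐ[μ] J φ → ∫ x, (J v0 x) ^ (q - 1) * J φ x ∂μ ≤ ⟪v0, φ⟫_ℝ)
    (y : Lp ℝ ∞ (μ.withDensity fun x => ENNReal.ofReal (|J u0 x| ^ q))) (g : H)
    (hg : ∀ φ : H, ⟪g, φ⟫_ℝ = ∫ x, |J u0 x| ^ (q - 2) * J u0 x * y x * J φ x ∂μ) :
    ‖g‖ ^ 2 ≤ ‖y‖ ^ 2 * ∫ x, |J u0 x| ^ q ∂μ := by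
  rw [← real_inner_self_eq_norm_sq, hg, ← integral_const_mul]
  refine integral_mono_ae (Fint hD u0 y g) ((intq hD u0).const_mul _) ?_
  filter_upwards [Fbound hD.two_lt u0 y, Gbound hD u0 v0 hv0 hsup y g hg] with x h1 h2
  have hq := hD.two_lt
  calc |J u0 x| ^ (q - 2) * J u0 x * y x * J g x
      ≤ |(|J u0 x| ^ (q - 2) * J u0 x * y x * J g x)| := le_abs_self _
    _ = |(|J u0 x| ^ (q - 2) * J u0 x * y x)| * |J g x| := abs_mul _ _
    _ ≤ (‖y‖ * |J u0 x| ^ (q - 1)) * (‖y‖ * |J u0 x|) :=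
        mul_le_mul h1 h2 (abs_nonneg _) (by positivity)
    _ = ‖y‖ ^ 2 * (|J u0 x| ^ (q - 1) * |J u0 x|) := by ring
    _ = ‖y‖ ^ 2 * |J u0 x| ^ q := by
        congr 1
        rcases (abs_nonneg (J u0 x)).eq_or_lt with h0 | h0
        · rw [← h0, Real.zero_rpow (by linarith : q ≠ 0)]; simp
        · rw [← Real.rpow_add_one h0.ne']; congr 1; ring

theorem smallOne (hD : Dir μ J q r) (u0 v0 : H) {B : ℝ} (hB0 : 0 ≤ B)
    (hB : ∀ᵐ x ∂μ, |J u0 x| ≤ B)
    (hv0 : J v0 =ᵐ[μ] fun x => |J u0 x|)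
    (hsup : ∀ φ : H, 0 ≤ᵐ[μ] J φ → ∫ x, (J v0 x) ^ (q - 1) * J φ x ∂μ ≤ ⟪v0, φ⟫_ℝ)
    {ε : ℝ} (hε : 0 < ε) :
    ∃ η > 0, ∀ (y : Lp ℝ ∞ (μ.withDensity fun x => ENNReal.ofReal (|J u0 x| ^ q))) (g : H),
      ‖y‖ ≤ 2 →
      (∀ φ : H, ⟪g, φ⟫_ℝ = ∫ x, |J u0 x| ^ (q - 2) * J u0 x * y x * J φ x ∂μ) →
      ‖J g‖ ≤ η → ∀ᵐ x ∂μ, J g x ≤ ε * |J u0 x| := by
  have hq := hD.two_lt
  have hsupp : ∀ φ : H, 0 ≤ᵐ[μ] J φ → 0 ≤ ⟪v0, φ⟫_ℝ := by
    intro φ hφ
    refine le_trans ?_ (hsup φ hφ)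
    refine integral_nonneg_of_ae ?_
    filter_upwards [hφ, hv0] with x h1 h2
    simp only [Pi.zero_apply] at h1 ⊢
    rw [h2]
    exact mul_nonneg (Real.rpow_nonneg (abs_nonneg _) _) h1
  have hθ : 0 < (q - 2) / 2 := by linarith
  obtain ⟨C, gs, hC, hgs, hgs0, hgsC⟩ := star hD (torsion hD) (v := v0)
    (by filter_upwards [hv0] with x hx; rw [hx]; exact abs_nonneg _)
    (M0 := B) (by filter_upwards [hv0, hB] with x hx hb; rw [hx]; exact hb) hsupp hθ
  set θ := (q - 2) / 2 with hθdef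
  have hqθ : q - 1 = θ + (1 + θ) := by rw [hθdef]; ring
  set δ : ℝ := (ε / (4 * (C + 1))) ^ (1 / θ) with hδdef
  have hbase : 0 < ε / (4 * (C + 1)) := by positivity
  have hδ : 0 < δ := Real.rpow_pos_of_pos hbase _
  have hδθ : δ ^ θ = ε / (4 * (C + 1)) := by
    rw [hδdef, ← Real.rpow_mul hbase.le, one_div_mul_cancel hθ.ne', Real.rpow_one]
  have hδC : 2 * δ ^ θ * C ≤ ε / 2 := by
    rw [hδθ]
    have : 2 * (ε / (4 * (C + 1))) * C = (ε / 2) * (C / (C + 1)) := by field_simp; ring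
    rw [this]
    have h1 : C / (C + 1) ≤ 1 := by rw [div_le_one (by linarith)]; linarith
    nlinarith
  set e : ℝ := ε * δ / 2 with hedef
  have he : 0 < e := by positivity
  have heδ : e / δ = ε / 2 := by rw [hedef]; field_simp
  set I : ℝ := ∫ x, |J u0 x| ^ q ∂μ with hI
  have hI0 : 0 ≤ I := integral_nonneg fun x => Real.rpow_nonneg (abs_nonneg _) _
  obtain ⟨η, hη, hst⟩ := stamp_small hD (2 * B ^ (q - 1)) (4 * I + 1) he
  refine ⟨η, hη, fun y g hy hg hJ => ?_⟩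
  have hy0 := norm_nonneg y
  have hgn : ‖g‖ ≤ 4 * I + 1 := by
    have h1 := gnorm hD u0 v0 hv0 hsup y g hg
    have h2 : ‖y‖ ^ 2 ≤ 4 := by nlinarith
    have h3 : ‖g‖ ^ 2 ≤ 4 * I := h1.trans (mul_le_mul_of_nonneg_right h2 hI0)
    nlinarith [norm_nonneg g, sq_nonneg (‖g‖ - 1)]
  have hFp : ∀ᵐ x ∂μ, |J u0 x| ^ (q - 2) * J u0 x * y x ≤ 2 * |J u0 x| ^ (q - 1) := by
    filter_upwards [Fbound hq u0 y] with x hx
    refine (le_abs_self _).trans (hx.trans ?_)
    exact mul_le_mul_of_nonneg_right hy (Real.rpow_nonneg (abs_nonneg _) _)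
  have hge : ∀ᵐ x ∂μ, J g x ≤ e := by
    refine hst g hgn hJ fun φ hφ => ?_
    rw [hg, ← integral_const_mul]
    refine integral_mono_ae (Fint hD u0 y φ) ?_ ?_
    · refine (((int0 (J := J) φ).add (int1 hD g φ)).const_mul (2 * B ^ (q - 1))).congr ?_
      filter_upwards with x
      simp only [Pi.add_apply]; ring
    · filter_upwards [hFp, hB, hφ] with x h1 h2 h3
      simp only [Pi.zero_apply] at h3
      have h4 : |J u0 x| ^ (q - 1) ≤ B ^ (q - 1) :=
        Real.rpow_le_rpow (abs_nonneg _) h2 (by linarith)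
      have h5 : 0 ≤ |J g x| ^ (q - 1) := Real.rpow_nonneg (abs_nonneg _) _
      have h6 : 0 ≤ B ^ (q - 1) := Real.rpow_nonneg hB0 _
      calc |J u0 x| ^ (q - 2) * J u0 x * y x * J φ x ≤ 2 * B ^ (q - 1) * J φ x :=
            mul_le_mul_of_nonneg_right (by linarith) h3
        _ ≤ 2 * B ^ (q - 1) * ((1 + |J g x| ^ (q - 1)) * J φ x) := by
            refine mul_le_mul_of_nonneg_left ?_ (by positivity)
            nlinarith [mul_nonneg h5 h3]
  -- comparison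
  have hz : ∀ᵐ x ∂μ, J (g - (e / δ) • v0 - (2 * δ ^ θ) • gs) x =
      J g x - e / δ * |J u0 x| - 2 * δ ^ θ * J gs x := by
    have h1 := Lp.coeFn_sub (J (g - (e / δ) • v0)) (J ((2 * δ ^ θ) • gs))
    have h2 := Lp.coeFn_sub (J g) (J ((e / δ) • v0))
    have h3 := Lp.coeFn_smul (e / δ) (J v0)
    have h4 := Lp.coeFn_smul (2 * δ ^ θ) (J gs)
    rw [← map_smul] at h3 h4
    rw [← map_sub] at h1 h2
    filter_upwards [h1, h2, h3, h4, hv0] with x h1 h2 h3 h4 h5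
    rw [h1, Pi.sub_apply, h2, Pi.sub_apply, h3, h4, Pi.smul_apply, Pi.smul_apply, h5,
      smul_eq_mul, smul_eq_mul]
  have hzle : ∀ᵐ x ∂μ, J (g - (e / δ) • v0 - (2 * δ ^ θ) • gs) x ≤ 0 := by
    refine le_zero_of_cut hD _ fun φ hφ hφz => ?_
    have hVint : Integrable (fun x => (J v0 x) ^ (1 + θ) * J φ x) μ := by
      refine ((int0 (J := J) φ).norm.const_mul (B ^ (1 + θ))).mono' ?_ ?_
      · exact (((aem (J := J) v0).aemeasurable.pow_const (1 + θ)).aestronglyMeasurable).mul (aem φ)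
      · filter_upwards [hv0, hB] with x h1 h2
        rw [norm_mul, h1, Real.norm_eq_abs (|J u0 x| ^ (1 + θ)),
          abs_of_nonneg (Real.rpow_nonneg (abs_nonneg _) _)]
        exact mul_le_mul_of_nonneg_right (Real.rpow_le_rpow (abs_nonneg _) h2 (by linarith))
          (norm_nonneg _)
    have hmain : ⟪g, φ⟫_ℝ ≤ 2 * δ ^ θ * ⟪gs, φ⟫_ℝ := by
      rw [hg, hgs, ← integral_const_mul]
      refine integral_mono_ae (Fint hD u0 y φ) (hVint.const_mul _) ?_
      filter_upwards [hFp, hφ, hφz, hz, hge, hgs0, hv0] with x h1 h2 h3 h4 h5 h6 h7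
      simp only [Pi.zero_apply] at h2 h6
      rw [← mul_assoc]
      by_cases hc : J φ x = 0
      · rw [hc]; simp
      · have hpos : 0 < J φ x := lt_of_le_of_ne h2 (Ne.symm hc)
        refine mul_le_mul_of_nonneg_right (h1.trans ?_) h2
        have h8 : 0 < J (g - (e / δ) • v0 - (2 * δ ^ θ) • gs) x := by
          by_contra hcon
          rw [h3, max_eq_right (not_lt.1 hcon)] at hpos
          exact lt_irrefl _ hpos
        rw [h4] at h8
        have hδθ0 : 0 ≤ δ ^ θ := Real.rpow_nonneg hδ.le _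
        have h9 : |J u0 x| < δ := by
          by_contra hcon
          have h10 : δ ≤ |J u0 x| := not_lt.1 hcon
          have h11 : e ≤ e / δ * |J u0 x| := by
            calc e = e / δ * δ := by field_simp
              _ ≤ _ := mul_le_mul_of_nonneg_left h10 (by positivity)
          have h12 : 0 ≤ 2 * δ ^ θ * J gs x := by positivity
          linarith
        rw [h7, hqθ, Real.rpow_add' (abs_nonneg _) (by linarith), mul_assoc]
        refine mul_le_mul_of_nonneg_left ?_ (by norm_num)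
        exact mul_le_mul_of_nonneg_right (Real.rpow_le_rpow (abs_nonneg _) h9.le hθ.le)
          (Real.rpow_nonneg (abs_nonneg _) _)
    rw [inner_sub_left, inner_sub_left, inner_smul_left, inner_smul_left]
    have := hsupp φ hφ
    have h2 : 0 ≤ e / δ * ⟪v0, φ⟫_ℝ := by positivity
    simp only [conj_trivial]
    linarith
  filter_upwards [hz, hzle, hgsC, hv0] with x h1 h2 h3 h4
  rw [h1] at h2
  rw [h4] at h3
  have hδθ0 : 0 ≤ δ ^ θ := Real.rpow_nonneg hδ.le _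
  have h5 : 2 * δ ^ θ * J gs x ≤ 2 * δ ^ θ * (C * |J u0 x|) :=
    mul_le_mul_of_nonneg_left h3 (by positivity)
  have h6 : 2 * δ ^ θ * C * |J u0 x| ≤ ε / 2 * |J u0 x| :=
    mul_le_mul_of_nonneg_right hδC (abs_nonneg _)
  rw [heδ] at h2
  nlinarith

theorem negrep (u0 : H)
    (y : Lp ℝ ∞ (μ.withDensity fun x => ENNReal.ofReal (|J u0 x| ^ q))) (g : H)
    (hg : ∀ φ : H, ⟪g, φ⟫_ℝ = ∫ x, |J u0 x| ^ (q - 2) * J u0 x * y x * J φ x ∂μ) :
    ∀ φ : H, ⟪-g, φ⟫_ℝ = ∫ x, |J u0 x| ^ (q - 2) * J u0 x * (-y) x * J φ x ∂μ := by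
  intro φ
  rw [inner_neg_left, hg, ← integral_neg]
  refine integral_congr_ae ?_
  filter_upwards [ae_of_m u0 (Lp.coeFn_neg y)] with x hx
  by_cases h0 : J u0 x = 0
  · rw [h0]; simp
  · rw [hx h0, Pi.neg_apply]; ring

theorem small (hD : Dir μ J q r) (u0 v0 : H) {B : ℝ} (hB0 : 0 ≤ B)
    (hB : ∀ᵐ x ∂μ, |J u0 x| ≤ B)
    (hv0 : J v0 =ᵐ[μ] fun x => |J u0 x|)
    (hsup : ∀ φ : H, 0 ≤ᵐ[μ] J φ → ∫ x, (J v0 x) ^ (q - 1) * J φ x ∂μ ≤ ⟪v0, φ⟫_ℝ)
    {ε : ℝ} (hε : 0 < ε) :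
    ∃ η > 0, ∀ (y : Lp ℝ ∞ (μ.withDensity fun x => ENNReal.ofReal (|J u0 x| ^ q))) (g : H),
      ‖y‖ ≤ 2 →
      (∀ φ : H, ⟪g, φ⟫_ℝ = ∫ x, |J u0 x| ^ (q - 2) * J u0 x * y x * J φ x ∂μ) →
      ‖J g‖ ≤ η → ∀ᵐ x ∂μ, |J g x| ≤ ε * |J u0 x| := by
  obtain ⟨η, hη, h⟩ := smallOne hD u0 v0 hB0 hB hv0 hsup hε
  refine ⟨η, hη, fun y g hy hg hJ => ?_⟩
  have h1 := h y g hy hg hJ
  have h2 := h (-y) (-g) (by rwa [norm_neg]) (negrep u0 y g hg) (by rwa [map_neg, norm_neg])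
  have hneg : ∀ᵐ x ∂μ, J (-g) x = - J g x := by
    rw [map_neg]; exact Lp.coeFn_neg _
  filter_upwards [h1, h2, hneg] with x h1 h2 h3
  rw [h3] at h2
  exact abs_le.2 ⟨by linarith, h1⟩

/-- existence of the quotient `J g / U` in `L^∞(m)` -/
theorem quot (hq : 0 < q) (u0 g : H) {c : ℝ} (hc : 0 ≤ c)
    (h : ∀ᵐ x ∂μ, |J g x| ≤ c * |J u0 x|) :
    ∃ t : Lp ℝ ∞ (μ.withDensity fun x => ENNReal.ofReal (|J u0 x| ^ q)),
      J g =ᵐ[μ] fun x => J u0 x * t x := by
  have hb : ∀ᵐ x ∂(μ.withDensity fun x => ENNReal.ofReal (|J u0 x| ^ q)),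
      ‖J g x / J u0 x‖ ≤ c := by
    refine ae_to_m u0 hq ?_
    filter_upwards [h] with x hx h0
    rw [norm_div, Real.norm_eq_abs, Real.norm_eq_abs, div_le_iff₀ (abs_pos.2 h0)]
    exact hx
  have hm : MemLp (fun x => J g x / J u0 x) ∞
      (μ.withDensity fun x => ENNReal.ofReal (|J u0 x| ^ q)) :=
    memLp_top_of_bound (((Lp.stronglyMeasurable (J g)).measurable.div
      (Lp.stronglyMeasurable (J u0)).measurable).aestronglyMeasurable) c hb
  refine ⟨hm.toLp _, ?_⟩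
  filter_upwards [ae_of_m u0 hm.coeFn_toLp, h] with x hx h1
  by_cases h0 : J u0 x = 0
  · rw [h0, zero_mul]
    rw [h0, abs_zero, mul_zero] at h1
    exact abs_eq_zero.1 (le_antisymm h1 (abs_nonneg _))
  · rw [hx h0]; field_simp

theorem quot_unique (hq : 0 < q) (u0 : H)
    (s t : Lp ℝ ∞ (μ.withDensity fun x => ENNReal.ofReal (|J u0 x| ^ q)))
    (h : ∀ᵐ x ∂μ, J u0 x * s x = J u0 x * t x) : s = t := by
  refine Lp.ext ?_
  refine ae_to_m u0 hq ?_
  filter_upwards [h] with x hx h0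
  exact mul_left_cancel₀ h0 hx

theorem quot_norm (hq : 0 < q) (u0 : H)
    (t : Lp ℝ ∞ (μ.withDensity fun x => ENNReal.ofReal (|J u0 x| ^ q))) {c : ℝ} (hc : 0 ≤ c)
    (h : ∀ᵐ x ∂μ, |J u0 x * t x| ≤ c * |J u0 x|) : ‖t‖ ≤ c := by
  have hb : ∀ᵐ x ∂(μ.withDensity fun x => ENNReal.ofReal (|J u0 x| ^ q)), ‖t x‖ ≤ c := by
    refine ae_to_m u0 hq ?_
    filter_upwards [h] with x hx h0
    rw [abs_mul, mul_comm] at hx
    exact le_of_mul_le_mul_right hx (abs_pos.2 h0)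
  rw [Lp.norm_def, eLpNorm_exponent_top]
  refine ENNReal.toReal_le_of_le_ofReal hc (eLpNormEssSup_le_of_ae_bound hb)

theorem compT (hD : Dir μ J q r) (u0 v0 : H)
    (hu0 : ∀ φ : H, ⟪u0, φ⟫_ℝ = ∫ x, |J u0 x| ^ (q - 2) * J u0 x * J φ x ∂μ)
    (hv0 : J v0 =ᵐ[μ] fun x => |J u0 x|)
    (hsup : ∀ φ : H, 0 ≤ᵐ[μ] J φ → ∫ x, (J v0 x) ^ (q - 1) * J φ x ∂μ ≤ ⟪v0, φ⟫_ℝ) :
    ∃ T : Lp ℝ ∞ (μ.withDensity fun x => ENNReal.ofReal (|J u0 x| ^ q)) →L[ℝ]
        Lp ℝ ∞ (μ.withDensity fun x => ENNReal.ofReal (|J u0 x| ^ q)),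
      IsCompactOperator T ∧
      (∀ y z, ∫ t, T y t * z t ∂(μ.withDensity fun x => ENNReal.ofReal (|J u0 x| ^ q)) =
        ∫ t, y t * T z t ∂(μ.withDensity fun x => ENNReal.ofReal (|J u0 x| ^ q))) ∧
      ∀ y, ∃ g : H, (∀ φ : H, ⟪g, φ⟫_ℝ = ∫ x, |J u0 x| ^ (q - 2) * J u0 x * y x * J φ x ∂μ) ∧
        J g =ᵐ[μ] fun x => J u0 x * T y x := by
  have hq2 := hD.two_lt
  have hq0 : 0 < q := by linarith
  obtain ⟨B, hB0, hB⟩ := bdd_u0 hD u0 hu0
  choose G hG using fun y => Gex hD u0 hB y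
  have hGb := fun y => Gbound hD u0 v0 hv0 hsup y (G y) (hG y)
  choose T hT using fun y => quot hq0 u0 (G y) (norm_nonneg y) (hGb y)
  -- representations
  have hGadd : ∀ y z, G (y + z) = G y + G z := by
    intro y z
    refine ext_inner_right ℝ fun φ => ?_
    rw [inner_add_left, hG, hG, hG, ← integral_add (Fint hD u0 y φ) (Fint hD u0 z φ)]
    refine integral_congr_ae ?_
    filter_upwards [ae_of_m u0 (Lp.coeFn_add y z)] with x hx
    by_cases h0 : J u0 x = 0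
    · rw [h0]; simp
    · rw [hx h0, Pi.add_apply]; ring
  have hGsmul : ∀ (c : ℝ) y, G (c • y) = c • G y := by
    intro c y
    refine ext_inner_right ℝ fun φ => ?_
    rw [inner_smul_left, hG, hG, conj_trivial, ← integral_const_mul]
    refine integral_congr_ae ?_
    filter_upwards [ae_of_m u0 (Lp.coeFn_smul c y)] with x hx
    by_cases h0 : J u0 x = 0
    · rw [h0]; simp
    · rw [hx h0, Pi.smul_apply, smul_eq_mul]; ring
  have hTadd : ∀ y z, T (y + z) = T y + T z := by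
    intro y z
    refine quot_unique hq0 u0 _ _ ?_
    have h1 := hT (y + z)
    rw [hGadd, map_add] at h1
    filter_upwards [h1, Lp.coeFn_add (J (G y)) (J (G z)), hT y, hT z,
      ae_of_m u0 (Lp.coeFn_add (T y) (T z))] with x h1 h2 h3 h4 h5
    by_cases h0 : J u0 x = 0
    · rw [h0]; simp
    · rw [← h1, h2, Pi.add_apply, h3, h4, h5 h0, Pi.add_apply]; ring
  have hTsmul : ∀ (c : ℝ) y, T (c • y) = c • T y := by
    intro c y
    refine quot_unique hq0 u0 _ _ ?_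
    have h1 := hT (c • y)
    rw [hGsmul, map_smul] at h1
    filter_upwards [h1, Lp.coeFn_smul c (J (G y)), hT y,
      ae_of_m u0 (Lp.coeFn_smul c (T y))] with x h1 h2 h3 h5
    by_cases h0 : J u0 x = 0
    · rw [h0]; simp
    · rw [← h1, h2, Pi.smul_apply, h3, h5 h0, Pi.smul_apply, smul_eq_mul, smul_eq_mul]; ring
  have hTn : ∀ y, ‖T y‖ ≤ 1 * ‖y‖ := by
    intro y
    rw [one_mul]
    refine quot_norm hq0 u0 _ (norm_nonneg y) ?_
    filter_upwards [hT y, hGb y] with x h1 h2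
    rw [← h1]; exact h2
  let TL : Lp ℝ ∞ (μ.withDensity fun x => ENNReal.ofReal (|J u0 x| ^ q)) →ₗ[ℝ]
      Lp ℝ ∞ (μ.withDensity fun x => ENNReal.ofReal (|J u0 x| ^ q)) :=
    { toFun := T
      map_add' := hTadd
      map_smul' := hTsmul }
  refine ⟨TL.mkContinuous 1 hTn, ?_, ?_, ?_⟩
  · -- compactness
    have hco : ∀ y, (TL.mkContinuous 1 hTn) y = T y := fun y => rfl
    have key : TotallyBounded ((fun y => T y) '' Metric.closedBall 0 1) := by
      rw [Metric.totallyBounded_iff]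
      intro ε hε
      obtain ⟨η, hη, hs⟩ := small hD u0 v0 hB0 hB hv0 hsup (half_pos hε)
      have hS : TotallyBounded ((fun y => J (G y)) '' Metric.closedBall
          (0 : Lp ℝ ∞ (μ.withDensity fun x => ENNReal.ofReal (|J u0 x| ^ q))) 1) := by
        set I : ℝ := ∫ x, |J u0 x| ^ q ∂μ with hI
        have hI0 : 0 ≤ I := integral_nonneg fun x => Real.rpow_nonneg (abs_nonneg _) _
        have hc := hD.comp
        have h1 : IsCompact (closure (J '' Metric.closedBall 0 (I + 1))) :=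
          hc.isCompact_closure_image_closedBall (I + 1)
        refine h1.totallyBounded.subset ?_
        rintro _ ⟨y, hy, rfl⟩
        refine subset_closure ⟨G y, ?_, rfl⟩
        rw [mem_closedBall_zero_iff] at hy ⊢
        have h2 := gnorm hD u0 v0 hv0 hsup y (G y) (hG y)
        have h3 : ‖y‖ ^ 2 ≤ 1 := by nlinarith [norm_nonneg y]
        have h4 : ‖G y‖ ^ 2 ≤ I := by nlinarith
        nlinarith [norm_nonneg (G y), sq_nonneg (‖G y‖ - 1)]
      obtain ⟨t, htS, htf, htc⟩ := Metric.finite_approx_of_totallyBounded hS η hη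
      obtain ⟨t', ht', htf', htt⟩ : ∃ t' ⊆ Metric.closedBall
          (0 : Lp ℝ ∞ (μ.withDensity fun x => ENNReal.ofReal (|J u0 x| ^ q))) 1,
          t'.Finite ∧ (fun y => J (G y)) '' t' = t := by
        obtain ⟨t', h1, h2, h3⟩ := exists_subset_image_finite_and.1 ⟨t, htS, htf, rfl⟩
        exact ⟨t', h1, h2, h3.symm⟩
      refine ⟨(fun y => T y) '' t', htf'.image _, ?_⟩
      rintro _ ⟨y, hy, rfl⟩
      have h1 := htc ⟨y, hy, rfl⟩
      rw [mem_iUnion₂] at h1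
      obtain ⟨p, hp, hyp⟩ := h1
      rw [← htt] at hp
      obtain ⟨y', hy', rfl⟩ := hp
      rw [mem_iUnion₂]
      refine ⟨T y', ⟨y', hy', rfl⟩, ?_⟩
      rw [mem_closedBall_zero_iff] at hy
      have hy'' := ht' hy'
      rw [mem_closedBall_zero_iff] at hy''
      have hGsub : G (y - y') = G y - G y' := by
        have := hGadd (y - y') y'
        rw [sub_add_cancel] at this
        rw [this, add_sub_cancel_right]
      have hTsub : T (y - y') = T y - T y' := by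
        have := hTadd (y - y') y'
        rw [sub_add_cancel] at this
        rw [this, add_sub_cancel_right]
      have h2 := hs (y - y') (G (y - y')) (by
        calc ‖y - y'‖ ≤ ‖y‖ + ‖y'‖ := norm_sub_le _ _
          _ ≤ 2 := by linarith) (hG _) (by
        rw [hGsub, map_sub, ← dist_eq_norm]
        exact (Metric.mem_ball.1 hyp).le)
      have h3 : ‖T (y - y')‖ ≤ ε / 2 := by
        refine quot_norm hq0 u0 _ (half_pos hε).le ?_
        filter_upwards [hT (y - y'), h2] with x h1 h2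
        rw [← h1]; exact h2
      rw [Metric.mem_ball, dist_eq_norm, ← hTsub]
      linarith
    have := isCompactOperator_iff_isCompact_closure_image_closedBall
      (TL.mkContinuous 1 hTn).toLinearMap (zero_lt_one)
    refine this.2 ?_
    exact key.closure.isCompact_of_isClosed isClosed_closure
  · -- symmetry
    intro y z
    have hw : ∀ f : α → ℝ, ∫ t, f t ∂(μ.withDensity fun x => ENNReal.ofReal (|J u0 x| ^ q)) =
        ∫ x, |J u0 x| ^ q * f x ∂μ := by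
      intro f
      rw [integral_withDensity_eq_integral_toReal_smul₀ (wmeas u0 q)
        (Eventually.of_forall fun x => ENNReal.ofReal_lt_top)]
      refine integral_congr_ae (Eventually.of_forall fun x => ?_)
      simp only [smul_eq_mul]
      rw [ENNReal.toReal_ofReal (Real.rpow_nonneg (abs_nonneg _) _)]
    have hpow : ∀ a : ℝ, |a| ^ q = |a| ^ (q - 2) * a * a := by
      intro a
      rcases (abs_nonneg a).eq_or_lt with h0 | h0
      · have : a = 0 := abs_eq_zero.1 h0.symm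
        rw [this, abs_zero, Real.zero_rpow (by linarith : q ≠ 0)]; simp
      · have h2 : a * a = |a| ^ (2 : ℝ) := by
          rw [Real.rpow_two, sq_abs]; ring
        rw [mul_assoc, h2, ← Real.rpow_add h0]; congr 1; ring
    have h1 : ∀ y z : Lp ℝ ∞ (μ.withDensity fun x => ENNReal.ofReal (|J u0 x| ^ q)),
        ∫ x, |J u0 x| ^ q * (T y x * z x) ∂μ = ⟪G z, G y⟫_ℝ := by
      intro y z
      rw [hG]
      refine integral_congr_ae ?_
      filter_upwards [hT y] with x hx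
      rw [hx, hpow]; ring
    change ∫ t, T y t * z t ∂_ = ∫ t, y t * T z t ∂_
    rw [hw, hw, h1]
    have h2 : ∫ x, |J u0 x| ^ q * (y x * T z x) ∂μ = ⟪G y, G z⟫_ℝ := by
      rw [← h1]
      refine integral_congr_ae (Eventually.of_forall fun x => ?_)
      simp only; ring
    rw [h2, real_inner_comm]
  · intro y
    exact ⟨G y, hG y, hT y⟩


end Pool.Agent.Helper420.QI.W4
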