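import Mathlib
set_option autoImplicit false
set_option linter.unusedSectionVars false
set_option linter.unusedVariables false
open MeasureTheory Filter Topology Set
open scoped ENNReal

namespace Pool.Agent.Helper420.QI.Z1

section aux

variable {α : Type*} [MeasurableSpace α] (m : Measure α)

/-- multiplication of `L^∞` -/
noncomputable def mulI : Lp ℝ ∞ m →L[ℝ] Lp ℝ ∞ m →L[ℝ] Lp ℝ ∞ m :=
  (ContinuousLinearMap.mul ℝ ℝ).holderL m ∞ ∞ ∞

lemma coeFn_mulI (f g : Lp ℝ ∞ m) : mulI m f g =ᵐ[m] fun x => f x * g x :=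
  (ContinuousLinearMap.mul ℝ ℝ).coeFn_holder (r := ∞) f g

lemma norm_mulI_le (f g : Lp ℝ ∞ m) : ‖mulI m f g‖ ≤ ‖f‖ * ‖g‖ := by
  have := (ContinuousLinearMap.mul ℝ ℝ).norm_holder_apply_apply_le (r := ∞) f g
  refine this.trans ?_
  have h1 : ‖ContinuousLinearMap.mul ℝ ℝ‖ ≤ 1 := ContinuousLinearMap.opNorm_mul_le ℝ ℝ
  have h2 : 0 ≤ ‖f‖ := norm_nonneg _
  have h3 : 0 ≤ ‖g‖ := norm_nonneg _
  have h4 : ‖ContinuousLinearMap.mul ℝ ℝ‖ * ‖f‖ ≤ 1 * ‖f‖ := mul_le_mul_of_nonneg_right h1 h2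
  have h5 := mul_le_mul_of_nonneg_right h4 h3
  simpa using h5

/-- the constant function one -/
noncomputable def oneI : Lp ℝ ∞ m := (memLp_top_const (1 : ℝ)).toLp (fun _ => (1 : ℝ))

/-- the product of `n` elements -/
noncomputable def qm : (n : ℕ) → ContinuousMultilinearMap ℝ (fun _ : Fin n => Lp ℝ ∞ m) (Lp ℝ ∞ m)
  | 0 => ContinuousMultilinearMap.uncurry0 ℝ _ (oneI m)
  | n + 1 => ContinuousLinearMap.uncurryLeft (((ContinuousLinearMap.compContinuousMultilinearMapL ℝ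
      (fun _ : Fin n => Lp ℝ ∞ m) (Lp ℝ ∞ m) (Lp ℝ ∞ m)).flip (qm n)).comp (mulI m))

lemma qm_succ_apply (n : ℕ) (v : Fin (n + 1) → Lp ℝ ∞ m) :
    qm m (n + 1) v = mulI m (v 0) (qm m n (Fin.tail v)) := rfl

lemma qm_norm : ∀ n : ℕ, ‖qm m n‖ ≤ ‖oneI m‖
  | 0 => by
    refine ContinuousMultilinearMap.opNorm_le_bound (norm_nonneg _) fun v => ?_
    simp [qm]
  | n + 1 => by
    refine ContinuousMultilinearMap.opNorm_le_bound (norm_nonneg _) fun v => ?_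
    rw [qm_succ_apply, Fin.prod_univ_succ]
    refine (norm_mulI_le m _ _).trans ?_
    have h1 := (qm m n).le_opNorm (Fin.tail v)
    have h2 : ‖qm m n‖ * ∏ i, ‖Fin.tail v i‖ ≤ ‖oneI m‖ * ∏ i, ‖Fin.tail v i‖ :=
      mul_le_mul_of_nonneg_right (qm_norm n) (Finset.prod_nonneg fun _ _ => norm_nonneg _)
    calc ‖v 0‖ * ‖qm m n (Fin.tail v)‖ ≤ ‖v 0‖ * (‖oneI m‖ * ∏ i, ‖Fin.tail v i‖) :=
          mul_le_mul_of_nonneg_left (h1.trans h2) (norm_nonneg _)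
      _ = ‖oneI m‖ * (‖v 0‖ * ∏ i : Fin n, ‖v i.succ‖) := by
          simp only [Fin.tail]; ring

lemma qm_ae (y : Lp ℝ ∞ m) : ∀ n : ℕ, qm m n (fun _ => y) =ᵐ[m] fun x => (y x) ^ n
  | 0 => by
    have h : qm m 0 (fun _ => y) = oneI m := rfl
    rw [h]
    have h1 : oneI m =ᵐ[m] fun _ => (1 : ℝ) := MemLp.coeFn_toLp _
    filter_upwards [h1] with x hx
    rw [hx, pow_zero]
  | n + 1 => by
    have h : qm m (n + 1) (fun _ => y) = mulI m y (qm m n (fun _ => y)) := rfl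
    rw [h]
    filter_upwards [coeFn_mulI m y (qm m n (fun _ => y)), qm_ae y n] with x h1 h2
    rw [h1, h2, pow_succ]; ring

/-- the binomial series -/
noncomputable def bser (a : ℝ) : FormalMultilinearSeries ℝ (Lp ℝ ∞ m) (Lp ℝ ∞ m) :=
  fun n => Ring.choose a n • qm m n

lemma bser_norm (a : ℝ) (n : ℕ) : ‖bser m a n‖ ≤ |Ring.choose a n| * ‖oneI m‖ := by
  rw [bser, norm_smul, Real.norm_eq_abs]
  exact mul_le_mul_of_nonneg_left (qm_norm m n) (abs_nonneg _)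

lemma choose_summable (a : ℝ) {r : NNReal} (hr : r < 1) :
    Summable fun n : ℕ => |Ring.choose a n| * (r : ℝ) ^ n := by
  have h1 : (r : ℝ≥0∞) < (binomialSeries ℝ a).radius := by
    refine lt_of_lt_of_le ?_ (binomialSeries_radius_ge_one (𝔸 := ℝ) (a := a))
    exact_mod_cast hr
  have h2 := (binomialSeries ℝ a).summable_norm_mul_pow h1
  refine h2.congr fun n => ?_
  rw [binomialSeries, FormalMultilinearSeries.ofScalars_norm, Real.norm_eq_abs]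

lemma bser_radius (a : ℝ) : 1 ≤ (bser m a).radius := by
  refine ENNReal.le_of_forall_nnreal_lt fun r hr => ?_
  have hr1 : r < 1 := by exact_mod_cast hr
  refine (bser m a).le_radius_of_summable ?_
  refine Summable.of_nonneg_of_le (fun n => by positivity) (fun n => ?_)
    ((choose_summable a hr1).mul_left ‖oneI m‖)
  calc ‖bser m a n‖ * (r : ℝ) ^ n ≤ (|Ring.choose a n| * ‖oneI m‖) * (r : ℝ) ^ n :=
        mul_le_mul_of_nonneg_right (bser_norm m a n) (by positivity)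
    _ = ‖oneI m‖ * (|Ring.choose a n| * (r : ℝ) ^ n) := by ring

lemma bser_ball (a : ℝ) : HasFPowerSeriesOnBall (bser m a).sum (bser m a) 0 1 := by
  have h : 0 < (bser m a).radius := lt_of_lt_of_le zero_lt_one (bser_radius m a)
  exact ((bser m a).hasFPowerSeriesOnBall h).mono zero_lt_one (bser_radius m a)

/-- norm bound almost everywhere -/
lemma ae_abs_le (f : Lp ℝ ∞ m) : ∀ᵐ x ∂m, |f x| ≤ ‖f‖ := by
  have h : ∀ᵐ x ∂m, ‖f x‖ₑ ≤ eLpNormEssSup f m := ae_le_eLpNormEssSup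
  filter_upwards [h] with x hx
  rw [← eLpNorm_exponent_top, ← Lp.enorm_def] at hx
  have h2 : ‖f x‖ ≤ ‖f‖ := by
    rw [← ofReal_norm_eq_enorm, ← ofReal_norm_eq_enorm] at hx
    exact (ENNReal.ofReal_le_ofReal_iff (norm_nonneg _)).1 hx
  rwa [Real.norm_eq_abs] at h2

/-- convergence in norm implies convergence almost everywhere -/
lemma ae_tendsto {u : ℕ → Lp ℝ ∞ m} {v : Lp ℝ ∞ m} (h : Tendsto u atTop (𝓝 v)) :
    ∀ᵐ x ∂m, Tendsto (fun n => u n x) atTop (𝓝 (v x)) := by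
  have h1 : ∀ᵐ x ∂m, ∀ n, |(u n - v) x| ≤ ‖u n - v‖ := ae_all_iff.2 fun n => ae_abs_le m _
  have h2 : ∀ᵐ x ∂m, ∀ n, (u n - v) x = u n x - v x := ae_all_iff.2 fun n => Lp.coeFn_sub _ _
  have h3 : Tendsto (fun n => ‖u n - v‖) atTop (𝓝 0) := tendsto_iff_norm_sub_tendsto_zero.1 h
  filter_upwards [h1, h2] with x h1 h2
  rw [tendsto_iff_norm_sub_tendsto_zero]
  refine squeeze_zero (fun n => norm_nonneg _) (fun n => ?_) h3
  rw [Real.norm_eq_abs, ← h2 n]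
  exact h1 n

lemma coeFn_psum (a : ℝ) (y : Lp ℝ ∞ m) : ∀ N : ℕ,
    (∑ n ∈ Finset.range N, bser m a n (fun _ => y) : Lp ℝ ∞ m) =ᵐ[m]
      fun x => ∑ n ∈ Finset.range N, Ring.choose a n * (y x) ^ n
  | 0 => by
    simp only [Finset.range_zero, Finset.sum_empty]
    exact Lp.coeFn_zero _ _ _
  | N + 1 => by
    rw [Finset.sum_range_succ]
    have h1 : bser m a N (fun _ => y) = Ring.choose a N • qm m N (fun _ => y) := rfl
    filter_upwards [Lp.coeFn_add (∑ n ∈ Finset.range N, bser m a n (fun _ => y) : Lp ℝ ∞ m)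
      (bser m a N (fun _ => y)), coeFn_psum a y N,
      Lp.coeFn_smul (Ring.choose a N) (qm m N (fun _ => y)), qm_ae m y N] with x e1 e2 e3 e4
    rw [e1, Finset.sum_range_succ]
    simp only [Pi.add_apply]
    rw [e2, h1, e3]
    simp only [Pi.smul_apply, smul_eq_mul]
    rw [e4]

lemma sum_ae (a : ℝ) {y : Lp ℝ ∞ m} (hy : ‖y‖ < 1) :
    (bser m a).sum y =ᵐ[m] fun x => (1 + y x) ^ a := by
  have hmem : y ∈ Metric.eball (0 : Lp ℝ ∞ m) 1 := by
    rw [← ENNReal.ofReal_one, Metric.eball_ofReal]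
    simpa using hy
  have h1 := (bser_ball m a).hasSum hmem
  rw [zero_add] at h1
  have h2 := ae_tendsto m h1.tendsto_sum_nat
  have h3 : ∀ᵐ x ∂m, ∀ N : ℕ, (∑ n ∈ Finset.range N, bser m a n (fun _ => y) : Lp ℝ ∞ m) x =
      ∑ n ∈ Finset.range N, Ring.choose a n * (y x) ^ n :=
    ae_all_iff.2 fun N => coeFn_psum m a y N
  filter_upwards [h2, h3, ae_abs_le m y] with x h2 h3 h4
  have h5 : |y x| < 1 := lt_of_le_of_lt h4 hy
  have hmem' : y x ∈ Metric.eball (0 : ℝ) 1 := by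
    rw [← ENNReal.ofReal_one, Metric.eball_ofReal]
    simpa using h5
  have h6 := (Real.one_add_rpow_hasFPowerSeriesOnBall_zero (a := a)).hasSum hmem'
  rw [zero_add] at h6
  have h7 := h6.tendsto_sum_nat
  refine tendsto_nhds_unique h2 ?_
  refine h7.congr fun N => ?_
  rw [h3 N]
  refine Finset.sum_congr rfl fun n _ => ?_
  rw [binomialSeries_apply]
  simp

end aux

theorem linf_pow {α : Type*} [MeasurableSpace α] (m : Measure α) [IsFiniteMeasure m] (a : ℝ) :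
    ∃ P : Lp ℝ ∞ m → Lp ℝ ∞ m, AnalyticAt ℝ P 0 ∧
      (∀ φ : Lp ℝ ∞ m, ‖φ‖ < 1 → P φ =ᵐ[m] fun x => (1 + φ x) ^ a) ∧
      (∀ φ : Lp ℝ ∞ m, ‖φ‖ < 1 → ∃ L : Lp ℝ ∞ m →L[ℝ] Lp ℝ ∞ m, HasFDerivAt P L φ ∧
        ∀ η : Lp ℝ ∞ m, L η =ᵐ[m] fun x => a * (1 + φ x) ^ (a - 1) * η x) := by
  refine ⟨(bser m a).sum, (bser_ball m a).analyticAt, fun φ hφ => sum_ae m a hφ, ?_⟩
  intro φ hφ
  set P := (bser m a).sum with hP
  have hmem : φ ∈ Metric.eball (0 : Lp ℝ ∞ m) 1 := by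
    rw [← ENNReal.ofReal_one, Metric.eball_ofReal]
    simpa using hφ
  have han : AnalyticAt ℝ P φ := (bser_ball m a).analyticAt_of_mem hmem
  have hfd : HasFDerivAt P (fderiv ℝ P φ) φ := han.differentiableAt.hasFDerivAt
  refine ⟨fderiv ℝ P φ, hfd, fun η => ?_⟩
  have hc : Tendsto (fun n : ℕ => ‖(n : ℝ)‖) atTop atTop := by
    simpa using tendsto_natCast_atTop_atTop (R := ℝ)
  have h1 := ae_tendsto m (hfd.lim η hc)
  -- eventually in the ball
  have hsm : Tendsto (fun n : ℕ => φ + ((n : ℝ))⁻¹ • η) atTop (𝓝 φ) := by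
    have := (tendsto_inv_atTop_nhds_zero_nat (𝕜 := ℝ)).smul_const η
    have h2 := this.const_add φ
    simpa using h2
  have hev : ∀ᶠ n : ℕ in atTop, ‖φ + ((n : ℝ))⁻¹ • η‖ < 1 :=
    hsm.norm.eventually (gt_mem_nhds hφ)
  obtain ⟨n0, hn0⟩ := eventually_atTop.1 hev
  have h2 : ∀ᵐ x ∂m, ∀ n : ℕ, n0 ≤ n →
      (P (φ + ((n : ℝ))⁻¹ • η)) x = (1 + (φ + ((n : ℝ))⁻¹ • η) x) ^ a := by
    rw [ae_all_iff]
    intro n
    by_cases hn : n0 ≤ n
    · filter_upwards [sum_ae m a (hn0 n hn)] with x hx _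
      exact hx
    · exact Eventually.of_forall fun x h => absurd h hn
  have h3 : ∀ᵐ x ∂m, ∀ n : ℕ, (φ + ((n : ℝ))⁻¹ • η) x = φ x + ((n : ℝ))⁻¹ * η x := by
    rw [ae_all_iff]
    intro n
    filter_upwards [Lp.coeFn_add φ (((n : ℝ))⁻¹ • η), Lp.coeFn_smul ((n : ℝ))⁻¹ η] with x e1 e2
    rw [e1, Pi.add_apply, e2, Pi.smul_apply, smul_eq_mul]
  have h4 : ∀ᵐ x ∂m, ∀ n : ℕ, ((n : ℝ) • (P (φ + ((n : ℝ))⁻¹ • η) - P φ)) x =
      (n : ℝ) * ((P (φ + ((n : ℝ))⁻¹ • η)) x - P φ x) := by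
    rw [ae_all_iff]
    intro n
    filter_upwards [Lp.coeFn_smul (n : ℝ) (P (φ + ((n : ℝ))⁻¹ • η) - P φ),
      Lp.coeFn_sub (P (φ + ((n : ℝ))⁻¹ • η)) (P φ)] with x e1 e2
    rw [e1, Pi.smul_apply, e2, Pi.sub_apply, smul_eq_mul]
  filter_upwards [h1, h2, h3, h4, sum_ae m a hφ, ae_abs_le m φ] with x h1 h2 h3 h4 h5 h6
  have hpos : 0 < 1 + φ x := by
    have := (abs_lt.1 (lt_of_le_of_lt h6 hφ)).1
    linarith
  refine tendsto_nhds_unique h1 ?_
  have hder : HasDerivAt (fun t : ℝ => (1 + t) ^ a) (a * (1 + φ x) ^ (a - 1)) (φ x) := by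
    have e1 : HasDerivAt (fun t : ℝ => 1 + t) 1 (φ x) := (hasDerivAt_id (φ x)).const_add 1
    have e2 := e1.rpow_const (p := a) (Or.inl hpos.ne')
    simpa using e2
  have hlim := hder.hasFDerivAt.lim (η x) hc
  have hval : ((ContinuousLinearMap.toSpanSingleton ℝ (a * (1 + φ x) ^ (a - 1))) (η x)) =
      a * (1 + φ x) ^ (a - 1) * η x := by
    simp [mul_comm]
  have hlim2 : Tendsto (fun n : ℕ => (n : ℝ) * ((1 + (φ x + ((n : ℝ))⁻¹ * η x)) ^ a -
      (1 + φ x) ^ a)) atTop (𝓝 (a * (1 + φ x) ^ (a - 1) * η x)) := by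
    have := hlim
    simp only [smul_eq_mul] at this
    convert this using 2
    simp [mul_comm]
  refine hlim2.congr' ?_
  filter_upwards [eventually_ge_atTop n0] with n hn
  rw [h4 n, h2 n hn, h3 n]
  rw [show P φ x = (1 + φ x) ^ a from h5]


end Pool.Agent.Helper420.QI.Z1
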