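import Pool.Agent.Helper420.QI.Loja
import Pool.Agent.Helper420.QI.LS
import Pool.Agent.Helper420.QI.Z1
set_option autoImplicit false
set_option linter.unusedSectionVars false
set_option linter.unusedVariables false
open MeasureTheory Filter Topology Set
open scoped ENNReal
open Pool.Agent.Helper420.QI.Loja Pool.Agent.Helper420.QI.LS

namespace Pool.Agent.Helper420.QI.Z3

open Pool.Agent.Helper420.QI.Z1 (linf_pow)

section aux

variable {α : Type*} [MeasurableSpace α] {m : Measure α} [IsFiniteMeasure m]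

theorem ae_abs_le (x : Lp ℝ ∞ m) : ∀ᵐ t ∂m, |x t| ≤ ‖x‖ := by
  have h : ∀ᵐ t ∂m, ‖x t‖ₑ ≤ eLpNormEssSup x m := ae_le_eLpNormEssSup
  have hfin : eLpNormEssSup x m ≠ ∞ := by
    have := Lp.eLpNorm_ne_top x
    rwa [eLpNorm_exponent_top] at this
  filter_upwards [h] with t ht
  rw [Lp.norm_def, eLpNorm_exponent_top, ← Real.norm_eq_abs, ← toReal_enorm (x t)]
  exact ENNReal.toReal_mono hfin ht

theorem integrable_Lp (x : Lp ℝ ∞ m) : Integrable (fun t => x t) m :=
  (Lp.memLp x).integrable (by simp)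

theorem integrable_mul_Lp (x y : Lp ℝ ∞ m) : Integrable (fun t => x t * y t) m := by
  have h := (Lp.memLp y).mul (r := ∞) (Lp.memLp x)
  exact h.integrable (by simp)

noncomputable def bil (m : Measure α) [IsFiniteMeasure m] :
    Lp ℝ ∞ m →L[ℝ] Lp ℝ ∞ m →L[ℝ] ℝ :=
  LinearMap.mkContinuous₂
    (LinearMap.mk₂ ℝ (fun x y : Lp ℝ ∞ m => ∫ t, x t * y t ∂m)
      (by
        intro x x' y
        rw [← integral_add (integrable_mul_Lp x y) (integrable_mul_Lp x' y)]
        apply integral_congr_ae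
        filter_upwards [Lp.coeFn_add x x'] with t ht
        rw [ht]; simp [add_mul])
      (by
        intro c x y
        rw [smul_eq_mul, ← integral_const_mul]
        apply integral_congr_ae
        filter_upwards [Lp.coeFn_smul c x] with t ht
        rw [ht]; simp [mul_assoc])
      (by
        intro x y y'
        rw [← integral_add (integrable_mul_Lp x y) (integrable_mul_Lp x y')]
        apply integral_congr_ae
        filter_upwards [Lp.coeFn_add y y'] with t ht
        rw [ht]; simp [mul_add])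
      (by
        intro c x y
        rw [smul_eq_mul, ← integral_const_mul]
        apply integral_congr_ae
        filter_upwards [Lp.coeFn_smul c y] with t ht
        rw [ht]; simp; ring))
    (m.real univ)
    (by
      intro x y
      have h : ‖∫ t, x t * y t ∂m‖ ≤ (‖x‖ * ‖y‖) * m.real univ := by
        apply norm_integral_le_of_norm_le_const
        filter_upwards [ae_abs_le x, ae_abs_le y] with t h1 h2
        rw [norm_mul, Real.norm_eq_abs, Real.norm_eq_abs]
        exact mul_le_mul h1 h2 (abs_nonneg _) (norm_nonneg _)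
      show ‖∫ t, x t * y t ∂m‖ ≤ m.real univ * ‖x‖ * ‖y‖
      linarith)

theorem bil_apply (x y : Lp ℝ ∞ m) : bil m x y = ∫ t, x t * y t ∂m := rfl

noncomputable def one (m : Measure α) [IsFiniteMeasure m] : Lp ℝ ∞ m :=
  (memLp_const (1 : ℝ)).toLp (fun _ => 1)

theorem one_coe : (one m : Lp ℝ ∞ m) =ᵐ[m] fun _ => (1 : ℝ) := MemLp.coeFn_toLp _

end aux

/-- TARGET -/
theorem abs_energy {α : Type*} [MeasurableSpace α] (m : Measure α) [IsFiniteMeasure m]
    (T : Lp ℝ ∞ m →L[ℝ] Lp ℝ ∞ m) (hTc : IsCompactOperator T)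
    (hTs : ∀ x y : Lp ℝ ∞ m, ∫ t, T x t * y t ∂m = ∫ t, x t * T y t ∂m)
    (hT1 : ∀ x : Lp ℝ ∞ m, (x =ᵐ[m] fun _ => (1 : ℝ)) → T x =ᵐ[m] fun _ => (1 : ℝ))
    (a : ℝ) (ha : 1 < a) (φ : ℕ → Lp ℝ ∞ m) (hφ : Tendsto φ atTop (𝓝 0))
    (hsol : ∀ᶠ n in atTop, ∀ x : Lp ℝ ∞ m, (x =ᵐ[m] fun t => (1 + φ n t) ^ a) →
      T x =ᵐ[m] fun t => 1 + φ n t) :
    ∀ᶠ n in atTop, ∫ t, (1 + φ n t) ^ (a + 1) ∂m = m.real univ := by
  obtain ⟨P, hP, hPe, hPd⟩ := linf_pow m a
  obtain ⟨P', hP', hPe', hPd'⟩ := linf_pow m (a + 1)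
  have hzero : ‖(0 : Lp ℝ ∞ m)‖ < 1 := by simp
  have hone : ∀ x : Lp ℝ ∞ m, (x =ᵐ[m] fun _ => (1 : ℝ)) → x = one m := by
    intro x hx
    apply Lp.ext
    exact hx.trans one_coe.symm
  have hP0 : P 0 = one m := by
    apply hone
    filter_upwards [hPe 0 hzero, Lp.coeFn_zero ℝ ∞ m] with t h1 h2
    rw [h1, h2]; simp
  have hP0' : P' 0 = one m := by
    apply hone
    filter_upwards [hPe' 0 hzero, Lp.coeFn_zero ℝ ∞ m] with t h1 h2
    rw [h1, h2]; simp
  have hTone : T (one m) = one m := hone _ (hT1 _ one_coe)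
  have hbs : ∀ x y : Lp ℝ ∞ m, bil m x y = bil m y x := by
    intro x y
    rw [bil_apply, bil_apply]
    congr 1
    ext t
    ring
  have hbT : ∀ x y : Lp ℝ ∞ m, bil m (T x) y = bil m x (T y) := by
    intro x y
    rw [bil_apply, bil_apply]
    exact hTs x y
  set Nn : Lp ℝ ∞ m → Lp ℝ ∞ m := fun φ => T (P φ) - one m with hNn
  set Jf : Lp ℝ ∞ m → ℝ := fun φ => (1 / 2) * bil m (P φ) (T (P φ)) -
    (a / (a + 1)) * bil m (P' φ) (one m) with hJf
  have hN : AnalyticAt ℝ Nn 0 := by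
    exact ((T.analyticAt (P 0)).comp hP).sub analyticAt_const
  have hN0 : Nn 0 = 0 := by simp [hNn, hP0, hTone]
  obtain ⟨L0, hL0, hL0e⟩ := hPd 0 hzero
  have hL0' : L0 = a • ContinuousLinearMap.id ℝ (Lp ℝ ∞ m) := by
    ext1 η
    apply Lp.ext
    have h3 := Lp.coeFn_smul a η
    filter_upwards [hL0e η, Lp.coeFn_zero ℝ ∞ m, h3] with t h1 h2 h3
    rw [h1, h2]
    simp only [_root_.smul_apply, ContinuousLinearMap.id_apply]
    rw [h3]
    simp
  have hK : HasFDerivAt Nn (a • T) 0 := by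
    have h := (T.hasFDerivAt (x := P 0)).comp (0 : Lp ℝ ∞ m) hL0
    have h' := h.sub_const (one m)
    have e : T ∘L L0 = a • T := by
      rw [hL0']
      ext1 η
      simp
    rw [e] at h'
    exact h'
  have hKc : IsCompactOperator (a • T : Lp ℝ ∞ m →L[ℝ] Lp ℝ ∞ m) := by
    exact hTc.smul a
  have hJ : AnalyticAt ℝ Jf 0 := by
    have h1 : AnalyticAt ℝ (fun φ => bil m (P φ) (T (P φ))) 0 := by
      have h := (bil m).analyticAt_bilinear (P 0, T (P 0))
      exact AnalyticAt.comp (f := fun φ => (P φ, T (P φ))) (x := (0 : Lp ℝ ∞ m)) h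
        (hP.prod ((T.analyticAt (P 0)).comp hP))
    have h2 : AnalyticAt ℝ (fun φ => bil m (P' φ) (one m)) 0 := by
      have h := (bil m).analyticAt_bilinear (P' 0, one m)
      exact AnalyticAt.comp (f := fun φ => (P' φ, one m)) (x := (0 : Lp ℝ ∞ m)) h
        (hP'.prod analyticAt_const)
    exact (analyticAt_const.mul h1).sub (analyticAt_const.mul h2)
  have hsmall : ∀ᶠ φ in 𝓝 (0 : Lp ℝ ∞ m), ‖φ‖ < 1 := by
    have : Tendsto (fun φ : Lp ℝ ∞ m => ‖φ‖) (𝓝 0) (𝓝 ‖(0 : Lp ℝ ∞ m)‖) := continuous_norm.tendsto 0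
    exact this.eventually (gt_mem_nhds hzero)
  have hpos : ∀ φ : Lp ℝ ∞ m, ‖φ‖ < 1 → ∀ᵐ t ∂m, 0 < 1 + φ t := by
    intro φ hφ
    filter_upwards [ae_abs_le φ] with t ht
    have := neg_abs_le (φ t)
    linarith
  have hcrit : ∀ᶠ φ in 𝓝 (0 : Lp ℝ ∞ m), Nn φ = φ → fderiv ℝ Jf φ = 0 := by
    filter_upwards [hsmall] with φ hφ hfix
    obtain ⟨L, hL, hLe⟩ := hPd φ hφ
    obtain ⟨L', hL', hLe'⟩ := hPd' φ hφ
    have hTP : T (P φ) = one m + φ := by
      have : T (P φ) - one m = φ := hfix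
      exact sub_eq_iff_eq_add'.1 this
    have d1 : HasFDerivAt (fun φ => T (P φ)) (T ∘L L) φ :=
      (T.hasFDerivAt (x := P φ)).comp φ hL
    have d2 := (bil m).hasFDerivAt_of_bilinear hL d1
    have d3 : HasFDerivAt (fun φ => bil m (P' φ) (one m)) (((bil m).flip (one m)) ∘L L') φ :=
      (((bil m).flip (one m)).hasFDerivAt (x := P' φ)).comp φ hL'
    have d4 := (d2.const_mul (1 / 2)).sub (d3.const_mul (a / (a + 1)))
    have hd : fderiv ℝ Jf φ = _ := d4.fderiv
    rw [hd]
    ext1 η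
    show (1 / 2) * (bil m (P φ) (T (L η)) + bil m (L η) (T (P φ))) -
      (a / (a + 1)) * bil m (L' η) (one m) = 0
    have e1 : bil m (P φ) (T (L η)) = bil m (L η) (T (P φ)) := by
      rw [hbs, hbT]
    rw [e1, hTP]
    have e2 : bil m (L η) (one m + φ) = a / (a + 1) * bil m (L' η) (one m) := by
      rw [bil_apply, bil_apply, ← integral_const_mul]
      apply integral_congr_ae
      filter_upwards [hLe η, hLe' η, Lp.coeFn_add (one m) φ, one_coe (m := m), hpos φ hφ]
        with t h1 h2 h3 h4 h5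
      rw [h1, h2, h3, h4]
      simp only [Pi.add_apply, h4]
      have e5 : (1 + φ t) ^ (a + 1 - 1) = (1 + φ t) ^ (a - 1) * (1 + φ t) := by
        rw [show a + 1 - 1 = (a - 1) + 1 by ring, Real.rpow_add h5, Real.rpow_one]
      rw [e5]
      have : a + 1 ≠ 0 := by linarith
      field_simp
    rw [e2]
    ring
  have hmain := ls_reduction (X := Lp ℝ ∞ m) (fun k f hf => loja hf) (bil m) hbs
    (by
      intro x
      rw [bil_apply]
      exact integral_nonneg (fun t => mul_self_nonneg _))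
    (by
      intro x hx
      rw [bil_apply] at hx
      have h := (integral_eq_zero_iff_of_nonneg (fun t => mul_self_nonneg _)
        (integrable_mul_Lp x x)).1 hx
      rw [Lp.eq_zero_iff_ae_eq_zero]
      filter_upwards [h] with t ht
      simpa using ht)
    Nn hN hN0 (a • T) hK hKc
    (by
      intro x y
      simp only [_root_.smul_apply, map_smul, smul_eq_mul, hbT])
    Jf hJ hcrit
  have h1 := hφ.eventually hmain
  have h2 := hφ.eventually hsmall
  filter_upwards [h1, h2, hsol] with n h1 h2 h3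
  have hfix : Nn (φ n) = φ n := by
    have h4 := h3 (P (φ n)) (hPe (φ n) h2)
    apply Lp.ext
    have h5 := Lp.coeFn_sub (T (P (φ n))) (one m)
    filter_upwards [h4, h5, one_coe (m := m)] with t h4 h5 h6
    show (T (P (φ n)) - one m : Lp ℝ ∞ m) t = _
    rw [h5, Pi.sub_apply, h4, h6]
    ring
  have h4 := h1 hfix
  have hTP : T (P (φ n)) = one m + φ n := by
    have : T (P (φ n)) - one m = φ n := hfix
    exact sub_eq_iff_eq_add'.1 this
  have hJn : Jf (φ n) = (1 / 2 - a / (a + 1)) * ∫ t, (1 + φ n t) ^ (a + 1) ∂m := by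
    have e1 : bil m (P (φ n)) (T (P (φ n))) = ∫ t, (1 + φ n t) ^ (a + 1) ∂m := by
      rw [hTP, bil_apply]
      apply integral_congr_ae
      filter_upwards [hPe (φ n) h2, Lp.coeFn_add (one m) (φ n), one_coe (m := m), hpos _ h2]
        with t h1 h3 h4 h5
      rw [h1, h3]
      simp only [Pi.add_apply, h4]
      rw [Real.rpow_add h5, Real.rpow_one]
    have e2 : bil m (P' (φ n)) (one m) = ∫ t, (1 + φ n t) ^ (a + 1) ∂m := by
      rw [bil_apply]
      apply integral_congr_ae
      filter_upwards [hPe' (φ n) h2, one_coe (m := m)] with t h1 h4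
      rw [h1, h4]
      ring
    simp only [hJf]
    rw [e1, e2]
    ring
  have hJ0 : Jf 0 = (1 / 2 - a / (a + 1)) * m.real univ := by
    have e1 : bil m (one m) (one m) = m.real univ := by
      rw [bil_apply]
      have : (∫ t, one m t * one m t ∂m) = ∫ t, (1 : ℝ) ∂m := by
        apply integral_congr_ae
        filter_upwards [one_coe (m := m)] with t h
        rw [h]; norm_num
      rw [this]
      simp
    simp only [hJf]
    rw [hP0, hP0', hTone, e1]
    ring
  rw [hJn, hJ0] at h4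
  have hne : (1 / 2 - a / (a + 1)) ≠ 0 := by
    have h5 : a + 1 ≠ 0 := by linarith
    intro h
    field_simp at h
    linarith
  exact mul_left_cancel₀ hne h4


end Pool.Agent.Helper420.QI.Z3
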