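import Pool.Agent.Helper420.QI.CDefs
set_option autoImplicit false
set_option linter.unusedSectionVars false
set_option linter.unusedVariables false
open Filter Topology

namespace Pool.Agent.Helper420.QI.F6


theorem conv_mono {k : ℕ} {f : MvPowerSeries (Fin k) ℝ} {ρ ρ' : ℝ} (h0 : 0 < ρ') (h : ρ' ≤ ρ)
    (hf : Summable (fun α : Fin k →₀ ℕ => |MvPowerSeries.coeff α f| * ρ ^ α.degree)) :
    Summable (fun α : Fin k →₀ ℕ => |MvPowerSeries.coeff α f| * ρ' ^ α.degree) := by
  refine Summable.of_nonneg_of_le (fun α => by positivity) (fun α => ?_) hf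
  gcongr

theorem summable_mul_coeff {k : ℕ} {f g : MvPowerSeries (Fin k) ℝ} {ρ : ℝ} (h0 : 0 < ρ)
    (hf : Summable (fun α : Fin k →₀ ℕ => |MvPowerSeries.coeff α f| * ρ ^ α.degree))
    (hg : Summable (fun α : Fin k →₀ ℕ => |MvPowerSeries.coeff α g| * ρ ^ α.degree)) :
    Summable (fun α : Fin k →₀ ℕ => |MvPowerSeries.coeff α (f * g)| * ρ ^ α.degree) := by
  classical
  have h1 := summable_sum_mul_antidiagonal_of_summable_mul
    (Summable.mul_of_nonneg hf hg (fun _ => by positivity) (fun _ => by positivity))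
  refine Summable.of_nonneg_of_le (fun α => by positivity) (fun α => ?_) h1
  rw [MvPowerSeries.coeff_mul]
  calc |∑ p ∈ Finset.HasAntidiagonal.antidiagonal α, MvPowerSeries.coeff p.1 f * MvPowerSeries.coeff p.2 g| *
        ρ ^ α.degree
      ≤ (∑ p ∈ Finset.HasAntidiagonal.antidiagonal α,
          |MvPowerSeries.coeff p.1 f * MvPowerSeries.coeff p.2 g|) * ρ ^ α.degree := by
        gcongr
        exact Finset.abs_sum_le_sum_abs _ _
    _ = ∑ p ∈ Finset.HasAntidiagonal.antidiagonal α,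
          |MvPowerSeries.coeff p.1 f| * ρ ^ p.1.degree *
            (|MvPowerSeries.coeff p.2 g| * ρ ^ p.2.degree) := by
        rw [Finset.sum_mul]
        apply Finset.sum_congr rfl
        intro p hp
        have e : α = p.1 + p.2 := (Finset.HasAntidiagonal.mem_antidiagonal.1 hp).symm
        rw [e, map_add, pow_add, abs_mul]
        ring

theorem term_bound {k : ℕ} (f : MvPowerSeries (Fin k) ℝ) {ρ : ℝ} (x : Fin k → ℝ)
    (hx : ∀ i, |x i| ≤ ρ) (α : Fin k →₀ ℕ) :
    ‖MvPowerSeries.coeff α f * ∏ i, x i ^ α i‖ ≤ |MvPowerSeries.coeff α f| * ρ ^ α.degree := by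
  rw [norm_mul, Real.norm_eq_abs]
  gcongr
  rw [norm_prod, Finsupp.degree_eq_sum, ← Finset.prod_pow_eq_pow_sum]
  apply Finset.prod_le_prod
  · intro i _
    exact norm_nonneg _
  · intro i _
    rw [norm_pow, Real.norm_eq_abs]
    gcongr
    exact hx i

theorem summable_term {k : ℕ} {f : MvPowerSeries (Fin k) ℝ} {ρ : ℝ} {x : Fin k → ℝ}
    (hx : ∀ i, |x i| ≤ ρ)
    (hf : Summable (fun α : Fin k →₀ ℕ => |MvPowerSeries.coeff α f| * ρ ^ α.degree)) :
    Summable (fun α : Fin k →₀ ℕ => ‖MvPowerSeries.coeff α f * ∏ i, x i ^ α i‖) :=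
  Summable.of_nonneg_of_le (fun _ => norm_nonneg _) (fun α => term_bound f x hx α) hf

theorem conv_alg {k : ℕ} (f g : MvPowerSeries (Fin k) ℝ) (hf : IsConv f) (hg : IsConv g) :
    IsConv (f + g) ∧ IsConv (f * g) ∧ ∀ᶠ x in 𝓝 (0 : Fin k → ℝ),
        ev (f + g) x = ev f x + ev g x ∧ ev (f * g) x = ev f x * ev g x := by
  classical
  obtain ⟨ρ1, hρ1, hf1⟩ := hf
  obtain ⟨ρ2, hρ2, hg1⟩ := hg
  set ρ := min ρ1 ρ2 with hρ
  have hρp : 0 < ρ := lt_min hρ1 hρ2
  have hf2 := conv_mono hρp (min_le_left _ _) hf1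
  have hg2 := conv_mono hρp (min_le_right _ _) hg1
  refine ⟨⟨ρ, hρp, ?_⟩, ⟨ρ, hρp, summable_mul_coeff hρp hf2 hg2⟩, ?_⟩
  · refine Summable.of_nonneg_of_le (fun α => by positivity) (fun α => ?_) (hf2.add hg2)
    rw [map_add, ← add_mul]
    gcongr
    exact abs_add_le _ _
  · filter_upwards [Metric.ball_mem_nhds (0 : Fin k → ℝ) hρp] with x hx
    have hx' : ∀ i, |x i| ≤ ρ := by
      intro i
      have h1 : ‖x‖ < ρ := by simpa using hx
      exact (norm_le_pi_norm x i).trans h1.le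
    have sf := summable_term hx' hf2
    have sg := summable_term hx' hg2
    constructor
    · unfold ev
      rw [← sf.of_norm.tsum_add sg.of_norm]
      apply tsum_congr
      intro α
      rw [map_add]
      ring
    · obtain ⟨F, hF⟩ : ∃ F : (Fin k →₀ ℕ) → ℝ,
          F = fun α => MvPowerSeries.coeff α f * ∏ i, x i ^ α i := ⟨_, rfl⟩
      obtain ⟨G, hG⟩ : ∃ G : (Fin k →₀ ℕ) → ℝ,
          G = fun α => MvPowerSeries.coeff α g * ∏ i, x i ^ α i := ⟨_, rfl⟩
      have sf' : Summable fun α => ‖F α‖ := by rw [hF]; exact sf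
      have sg' : Summable fun α => ‖G α‖ := by rw [hG]; exact sg
      have key := Summable.tsum_mul_tsum_eq_tsum_sum_antidiagonal sf'.of_norm sg'.of_norm
        (summable_mul_of_summable_norm sf' sg')
      rw [hF, hG] at key
      unfold ev
      refine Eq.trans ?_ key.symm
      apply tsum_congr
      intro α
      rw [MvPowerSeries.coeff_mul, Finset.sum_mul]
      apply Finset.sum_congr rfl
      intro p hp
      have e : α = p.1 + p.2 := (Finset.HasAntidiagonal.mem_antidiagonal.1 hp).symm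
      have e2 : ∏ i, x i ^ α i = (∏ i, x i ^ p.1 i) * ∏ i, x i ^ p.2 i := by
        rw [← Finset.prod_mul_distrib]
        apply Finset.prod_congr rfl
        intro i _
        rw [e, Finsupp.add_apply, pow_add]
      rw [e2]
      ring

theorem conv_pderiv {k : ℕ} (f : MvPowerSeries (Fin k) ℝ) (i : Fin k) (hf : IsConv f) :
    IsConv (MvPowerSeries.pderiv ℝ i f) := by
  classical
  obtain ⟨ρ, hρ, hf⟩ := hf
  refine ⟨ρ / 2, by positivity, ?_⟩
  have hinj : Function.Injective (fun n : Fin k →₀ ℕ => n + Finsupp.single i 1) :=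
    add_left_injective _
  have h1 := (hf.comp_injective hinj).mul_left (1 / ρ)
  refine Summable.of_nonneg_of_le (fun α => by positivity) (fun α => ?_) h1
  rw [MvPowerSeries.coeff_pderiv]
  simp only [Function.comp]
  rw [map_add, Finsupp.degree_single, pow_succ, abs_mul]
  have h2 : |((α i : ℝ) + 1)| = (α i : ℝ) + 1 := abs_of_nonneg (by positivity)
  rw [h2]
  have h3 : (α i : ℝ) + 1 ≤ 2 ^ α.degree := by
    have a1 : α i ≤ α.degree := Finsupp.le_degree i α
    have a2 : α.degree + 1 ≤ 2 ^ α.degree := Nat.lt_two_pow_self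
    have a3 : α i + 1 ≤ 2 ^ α.degree := by omega
    exact_mod_cast a3
  have h4 : ((α i : ℝ) + 1) * (ρ / 2) ^ α.degree ≤ ρ ^ α.degree := by
    rw [div_pow, mul_div_assoc', div_le_iff₀ (by positivity), mul_comm]
    gcongr
  calc |MvPowerSeries.coeff (α + Finsupp.single i 1) f| * ((α i : ℝ) + 1) * (ρ / 2) ^ α.degree
      = |MvPowerSeries.coeff (α + Finsupp.single i 1) f| *
        (((α i : ℝ) + 1) * (ρ / 2) ^ α.degree) := by ring
    _ ≤ |MvPowerSeries.coeff (α + Finsupp.single i 1) f| * ρ ^ α.degree := by gcongr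
    _ = 1 / ρ * (|MvPowerSeries.coeff (α + Finsupp.single i 1) f| * (ρ ^ α.degree * ρ)) := by
        field_simp


end Pool.Agent.Helper420.QI.F6
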