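import Mathlib
set_option autoImplicit false
set_option linter.unusedSectionVars false
set_option linter.unusedVariables false
open Filter Topology

namespace Pool.Agent.Helper420.QI.K1

/-- weights that separate all exponents -/
theorem exists_weight (k : ℕ) : ∃ w : Fin k → ℝ, (∀ i, 1 ≤ w i) ∧
    Function.Injective (fun α : Fin k →₀ ℕ => ∑ i, w i * (α i : ℝ)) := by
  obtain ⟨L, hL1, hL⟩ : ∃ L : ℝ, 1 < L ∧ Transcendental ℤ L := by
    by_contra h
    push Not at h
    have hsub : Set.Ioi (1:ℝ) ⊆ {x : ℝ | IsAlgebraic ℤ x} := by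
      intro x hx
      have := h x hx
      simpa [Transcendental] using this
    have hc := (Algebraic.countable ℤ ℝ).mono hsub
    rw [← Cardinal.le_aleph0_iff_set_countable, Cardinal.mk_Ioi_real] at hc
    exact absurd hc (not_le.2 Cardinal.aleph0_lt_continuum)
  refine ⟨fun i => L ^ ((i : ℕ) + 1), fun i => one_le_pow₀ hL1.le, ?_⟩
  intro α β h
  simp only at h
  let P : Polynomial ℤ := ∑ i : Fin k, Polynomial.C ((α i : ℤ) - (β i : ℤ)) * Polynomial.X ^ ((i : ℕ) + 1)
  have hP : Polynomial.aeval L P = 0 := by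
    simp only [P, map_sum, map_mul, Polynomial.aeval_C, map_pow, Polynomial.aeval_X]
    have : ∀ i : Fin k, (algebraMap ℤ ℝ) ((α i : ℤ) - (β i : ℤ)) * L ^ ((i : ℕ) + 1) =
        L ^ ((i : ℕ) + 1) * (α i : ℝ) - L ^ ((i : ℕ) + 1) * (β i : ℝ) := by
      intro i
      simp
      ring
    rw [Finset.sum_congr rfl (fun i _ => this i), Finset.sum_sub_distrib, h, sub_self]
  have hP0 : P = 0 := by
    by_contra hne
    exact hL ⟨P, hne, hP⟩
  ext i
  have hc : P.coeff ((i : ℕ) + 1) = (α i : ℤ) - (β i : ℤ) := by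
    simp only [P, Polynomial.finsetSum_coeff, Polynomial.coeff_C_mul, Polynomial.coeff_X_pow]
    rw [Finset.sum_eq_single i]
    · simp
    · intro j _ hj
      have : (i : ℕ) + 1 ≠ (j : ℕ) + 1 := by
        intro h'
        apply hj
        ext
        omega
      rw [if_neg this, mul_zero]
    · simp
  rw [hP0] at hc
  simp at hc
  omega


end Pool.Agent.Helper420.QI.K1
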