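import Pool.Agent.Helper420.QI.CDefs
set_option autoImplicit false
set_option linter.unusedSectionVars false
set_option linter.unusedVariables false
open Filter Topology

namespace Pool.Agent.Helper420.QI.K2

open scoped ENNReal

noncomputable def k2N {k : ℕ} (ω : (Fin k →₀ ℕ) → ℝ≥0∞) (c : MvPowerSeries (Fin k) ℝ) :
    ℝ≥0∞ := ∑' b, ‖MvPowerSeries.coeff b c‖ₑ * ω b

theorem k2_N_mul {k : ℕ} {ω : (Fin k →₀ ℕ) → ℝ≥0∞} (hω : ∀ a b, ω (a + b) = ω a * ω b)
    (p q : MvPowerSeries (Fin k) ℝ) : k2N ω (p * q) ≤ k2N ω p * k2N ω q := by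
  classical
  unfold k2N
  calc ∑' c, ‖MvPowerSeries.coeff c (p * q)‖ₑ * ω c
      ≤ ∑' c, ∑ x ∈ Finset.HasAntidiagonal.antidiagonal c, (‖MvPowerSeries.coeff x.1 p‖ₑ * ω x.1) *
          (‖MvPowerSeries.coeff x.2 q‖ₑ * ω x.2) := by
        refine ENNReal.tsum_le_tsum fun c => ?_
        rw [MvPowerSeries.coeff_mul]
        calc ‖∑ x ∈ Finset.HasAntidiagonal.antidiagonal c, MvPowerSeries.coeff x.1 p * MvPowerSeries.coeff x.2 q‖ₑ * ω c
            ≤ (∑ x ∈ Finset.HasAntidiagonal.antidiagonal c,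
                ‖MvPowerSeries.coeff x.1 p * MvPowerSeries.coeff x.2 q‖ₑ) * ω c := by
              gcongr
              exact enorm_sum_le _ _
          _ = _ := by
              rw [Finset.sum_mul]
              refine Finset.sum_congr rfl fun x hx => ?_
              rw [enorm_mul, ← Finset.HasAntidiagonal.mem_antidiagonal.1 hx, hω]
              ring
    _ = ∑' x : (Fin k →₀ ℕ) × (Fin k →₀ ℕ), (‖MvPowerSeries.coeff x.1 p‖ₑ * ω x.1) *
          (‖MvPowerSeries.coeff x.2 q‖ₑ * ω x.2) := by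
        rw [← (Finset.HasAntidiagonal.sigmaAntidiagonalEquivProd (A := Fin k →₀ ℕ)).tsum_eq, ENNReal.tsum_sigma']
        refine tsum_congr fun c => ?_
        rw [← Finset.tsum_subtype]
        rfl
    _ = _ := by
        rw [ENNReal.tsum_prod', ← ENNReal.tsum_mul_right]
        refine tsum_congr fun a => ?_
        show ∑' b, (‖MvPowerSeries.coeff a p‖ₑ * ω a) * (‖MvPowerSeries.coeff b q‖ₑ * ω b) = _
        rw [ENNReal.tsum_mul_left]

theorem k2_N_sum {k s : ℕ} {ω : (Fin k →₀ ℕ) → ℝ≥0∞}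
    (f : Fin s → MvPowerSeries (Fin k) ℝ) : k2N ω (∑ i, f i) ≤ ∑ i, k2N ω (f i) := by
  unfold k2N
  rw [← Summable.tsum_finsetSum (fun _ _ => ENNReal.summable)]
  refine ENNReal.tsum_le_tsum fun b => ?_
  rw [map_sum, ← Finset.sum_mul]
  gcongr
  exact enorm_sum_le _ _

open Classical in
noncomputable def k2A {k s : ℕ} (e : Fin s → (Fin k →₀ ℕ)) (i : Fin s)
    (c : MvPowerSeries (Fin k) ℝ) : MvPowerSeries (Fin k) ℝ :=
  fun β => if ∀ j < i, ¬ e j ≤ β + e i then MvPowerSeries.coeff (β + e i) c else 0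

open Classical in
theorem k2_coeff_A {k s : ℕ} (e : Fin s → (Fin k →₀ ℕ)) (i : Fin s)
    (c : MvPowerSeries (Fin k) ℝ) (β : Fin k →₀ ℕ) : MvPowerSeries.coeff β (k2A e i c) =
      if ∀ j < i, ¬ e j ≤ β + e i then MvPowerSeries.coeff (β + e i) c else 0 := rfl

theorem k2_sel_unique {k s : ℕ} {e : Fin s → (Fin k →₀ ℕ)} {b : Fin k →₀ ℕ} {i j : Fin s}
    (hi : e i ≤ b ∧ ∀ l < i, ¬ e l ≤ b) (hj : e j ≤ b ∧ ∀ l < j, ¬ e l ≤ b) : i = j := by
  rcases lt_trichotomy i j with h | h | h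
  · exact (hj.2 i h hi.1).elim
  · exact h
  · exact (hi.2 j h hj.1).elim

theorem k2_sel_exists {k s : ℕ} {e : Fin s → (Fin k →₀ ℕ)} {b : Fin k →₀ ℕ}
    (h : ∃ i, e i ≤ b) : ∃ i, e i ≤ b ∧ ∀ l < i, ¬ e l ≤ b := by
  obtain ⟨i, hi, hmin⟩ := WellFounded.has_min (wellFounded_lt (α := Fin s)) {i | e i ≤ b} h
  exact ⟨i, hi, fun l hl hle => hmin l hle hl⟩

theorem k2_N_A {k s : ℕ} {ω : (Fin k →₀ ℕ) → ℝ≥0∞} (hω : ∀ a b, ω (a + b) = ω a * ω b)
    (e : Fin s → (Fin k →₀ ℕ)) (c : MvPowerSeries (Fin k) ℝ) :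
    ∑ i, k2N ω (k2A e i c) * ω (e i) ≤ k2N ω c := by
  classical
  obtain ⟨F, hF⟩ : ∃ F : Fin s → (Fin k →₀ ℕ) → ℝ≥0∞, F = fun i b =>
    if e i ≤ b ∧ ∀ l < i, ¬ e l ≤ b then ‖MvPowerSeries.coeff b c‖ₑ * ω b else 0 := ⟨_, rfl⟩
  calc ∑ i, k2N ω (k2A e i c) * ω (e i) ≤ ∑ i, ∑' b, F i b := by
        refine Finset.sum_le_sum fun i _ => ?_
        calc k2N ω (k2A e i c) * ω (e i) = ∑' β, F i (β + e i) := by
              unfold k2N
              rw [← ENNReal.tsum_mul_right]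
              refine tsum_congr fun β => ?_
              rw [k2_coeff_A, hF]
              simp only [le_add_iff_nonneg_left, zero_le, true_and]
              split_ifs with h
              · rw [hω]; ring
              · simp
          _ ≤ ∑' b, F i b :=
              ENNReal.tsum_comp_le_tsum_of_injective (add_left_injective (e i)) (F i)
    _ = ∑' b, ∑ i, F i b := by
        rw [Summable.tsum_finsetSum (fun _ _ => ENNReal.summable)]
    _ ≤ k2N ω c := by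
        unfold k2N
        refine ENNReal.tsum_le_tsum fun b => ?_
        by_cases h : ∃ i, e i ≤ b ∧ ∀ l < i, ¬ e l ≤ b
        · obtain ⟨i, hi⟩ := h
          rw [Finset.sum_eq_single i]
          · rw [hF]; simp only; rw [if_pos hi]
          · intro j _ hj
            rw [hF]
            simp only
            rw [if_neg]
            intro h
            exact hj (k2_sel_unique h hi)
          · intro h; exact absurd (Finset.mem_univ _) h
        · push Not at h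
          rw [Finset.sum_eq_zero]
          · simp
          · intro i _
            rw [hF]
            simp only
            rw [if_neg]
            rintro ⟨h1, h2⟩
            obtain ⟨l, hl, hl'⟩ := h i h1
            exact h2 l hl hl'

noncomputable def k2E {k s : ℕ} (e : Fin s → (Fin k →₀ ℕ))
    (q : Fin s → MvPowerSeries (Fin k) ℝ) (c : MvPowerSeries (Fin k) ℝ) :
    MvPowerSeries (Fin k) ℝ := ∑ i, k2A e i c * q i

theorem k2_N_E {k s : ℕ} {ω : (Fin k →₀ ℕ) → ℝ≥0∞} (hω : ∀ a b, ω (a + b) = ω a * ω b)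
    (e : Fin s → (Fin k →₀ ℕ)) (q : Fin s → MvPowerSeries (Fin k) ℝ)
    (hq : ∀ i, k2N ω (q i) ≤ 2⁻¹ * ω (e i)) (c : MvPowerSeries (Fin k) ℝ) :
    k2N ω (k2E e q c) ≤ 2⁻¹ * k2N ω c := by
  unfold k2E
  calc k2N ω (∑ i, k2A e i c * q i) ≤ ∑ i, k2N ω (k2A e i c * q i) := k2_N_sum _
    _ ≤ ∑ i, 2⁻¹ * (k2N ω (k2A e i c) * ω (e i)) := by
        refine Finset.sum_le_sum fun i _ => ?_
        calc k2N ω (k2A e i c * q i) ≤ k2N ω (k2A e i c) * k2N ω (q i) := k2_N_mul hω _ _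
          _ ≤ k2N ω (k2A e i c) * (2⁻¹ * ω (e i)) := by gcongr; exact hq i
          _ = _ := by ring
    _ = 2⁻¹ * ∑ i, (k2N ω (k2A e i c) * ω (e i)) := by rw [Finset.mul_sum]
    _ ≤ _ := by gcongr; exact k2_N_A hω e c

theorem k2_E_hasSum {k s : ℕ} (e : Fin s → (Fin k →₀ ℕ))
    (q : Fin s → MvPowerSeries (Fin k) ℝ) {u : ℕ → MvPowerSeries (Fin k) ℝ}
    {U : MvPowerSeries (Fin k) ℝ}
    (h : ∀ b, HasSum (fun m => MvPowerSeries.coeff b (u m)) (MvPowerSeries.coeff b U))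
    (d : Fin k →₀ ℕ) :
    HasSum (fun m => MvPowerSeries.coeff d (k2E e q (u m))) (MvPowerSeries.coeff d (k2E e q U)) := by
  classical
  unfold k2E
  simp only [map_sum, MvPowerSeries.coeff_mul]
  refine hasSum_sum fun i _ => hasSum_sum fun x _ => HasSum.mul_right _ ?_
  simp only [k2_coeff_A]
  split_ifs
  · exact h _
  · exact hasSum_zero

theorem k2_fixed {k s : ℕ} {ω : (Fin k →₀ ℕ) → ℝ≥0∞} (hω : ∀ a b, ω (a + b) = ω a * ω b)
    (hω0 : ∀ b, ω b ≠ 0) (e : Fin s → (Fin k →₀ ℕ)) (q : Fin s → MvPowerSeries (Fin k) ℝ)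
    (hq : ∀ i, k2N ω (q i) ≤ 2⁻¹ * ω (e i)) (h : MvPowerSeries (Fin k) ℝ) (hh : k2N ω h ≠ ⊤) :
    ∃ H : MvPowerSeries (Fin k) ℝ, k2N ω H ≠ ⊤ ∧ H = h + k2E e q H := by
  obtain ⟨u, hu⟩ : ∃ u : ℕ → MvPowerSeries (Fin k) ℝ, u = fun m => (k2E e q)^[m] h := ⟨_, rfl⟩
  have hu0 : u 0 = h := by rw [hu]; rfl
  have hus : ∀ m, u (m + 1) = k2E e q (u m) := by
    intro m
    rw [hu]
    simp only
    rw [Function.iterate_succ_apply']
  have hNu : ∀ m, k2N ω (u m) ≤ (2⁻¹ : ℝ≥0∞) ^ m * k2N ω h := by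
    intro m
    induction m with
    | zero => rw [hu0, pow_zero, one_mul]
    | succ m ih =>
      rw [hus, pow_succ]
      calc k2N ω (k2E e q (u m)) ≤ 2⁻¹ * k2N ω (u m) := k2_N_E hω e q hq _
        _ ≤ 2⁻¹ * ((2⁻¹ : ℝ≥0∞) ^ m * k2N ω h) := by gcongr
        _ = _ := by ring
  have hsum : ∑' m, k2N ω (u m) ≤ 2 * k2N ω h := by
    calc ∑' m, k2N ω (u m) ≤ ∑' m, (2⁻¹ : ℝ≥0∞) ^ m * k2N ω h := ENNReal.tsum_le_tsum hNu
      _ = (1 - 2⁻¹)⁻¹ * k2N ω h := by rw [ENNReal.tsum_mul_right, ENNReal.tsum_geometric]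
      _ = _ := by rw [ENNReal.one_sub_inv_two, inv_inv]
  have hfin : 2 * k2N ω h ≠ ⊤ := ENNReal.mul_ne_top (by norm_num) hh
  have hswap : ∑' m, k2N ω (u m) = ∑' b, (∑' m, ‖MvPowerSeries.coeff b (u m)‖ₑ) * ω b := by
    unfold k2N
    rw [ENNReal.tsum_comm]
    refine tsum_congr fun b => ?_
    rw [ENNReal.tsum_mul_right]
  have hb : ∀ b, ∑' m, ‖MvPowerSeries.coeff b (u m)‖ₑ ≠ ⊤ := by
    intro b hcon
    have h1 : (∑' m, ‖MvPowerSeries.coeff b (u m)‖ₑ) * ω b ≤ ∑' m, k2N ω (u m) := by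
      rw [hswap]
      exact ENNReal.le_tsum b
    rw [hcon, ENNReal.top_mul (hω0 b)] at h1
    exact hfin (top_le_iff.1 (h1.trans hsum))
  have hsb : ∀ b, Summable fun m => MvPowerSeries.coeff b (u m) := by
    intro b
    have h1 : Summable fun m => ‖MvPowerSeries.coeff b (u m)‖₊ :=
      ENNReal.tsum_coe_ne_top_iff_summable.1 (hb b)
    exact Summable.of_nnnorm h1
  obtain ⟨H, hH⟩ : ∃ H : MvPowerSeries (Fin k) ℝ, ∀ b, MvPowerSeries.coeff b H =
    ∑' m, MvPowerSeries.coeff b (u m) := ⟨fun b => ∑' m, MvPowerSeries.coeff b (u m), fun b => rfl⟩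
  have hHs : ∀ b, HasSum (fun m => MvPowerSeries.coeff b (u m)) (MvPowerSeries.coeff b H) := by
    intro b
    rw [hH]
    exact (hsb b).hasSum
  refine ⟨H, ?_, ?_⟩
  · refine ne_top_of_le_ne_top hfin (le_trans ?_ hsum)
    rw [hswap]
    unfold k2N
    refine ENNReal.tsum_le_tsum fun b => ?_
    rw [hH]
    gcongr
    exact enorm_tsum_le_tsum_enorm
  · ext d
    have h1 := k2_E_hasSum e q hHs d
    simp only [← hus] at h1
    have h2 := (hasSum_nat_add_iff' 1).2 (hHs d)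
    simp only [Finset.sum_range_one, hu0] at h2
    have h3 := h1.unique h2
    rw [map_add, h3]
    ring

theorem k2_decomp {k s : ℕ} (e : Fin s → (Fin k →₀ ℕ)) (H : MvPowerSeries (Fin k) ℝ) :
    ∃ r : MvPowerSeries (Fin k) ℝ, H = ∑ i, k2A e i H * MvPowerSeries.monomial (e i) 1 + r ∧
      (∀ β : Fin k →₀ ℕ, (∃ i, e i ≤ β) → MvPowerSeries.coeff β r = 0) ∧
      ∀ β, ‖MvPowerSeries.coeff β r‖ₑ ≤ ‖MvPowerSeries.coeff β H‖ₑ := by
  classical
  have key : ∀ β, MvPowerSeries.coeff β (∑ i, k2A e i H * MvPowerSeries.monomial (e i) 1) =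
      if ∃ i, e i ≤ β then MvPowerSeries.coeff β H else 0 := by
    intro β
    rw [map_sum]
    have h1 : ∀ i, MvPowerSeries.coeff β (k2A e i H * MvPowerSeries.monomial (e i) 1) =
        if e i ≤ β ∧ ∀ l < i, ¬ e l ≤ β then MvPowerSeries.coeff β H else 0 := by
      intro i
      rw [MvPowerSeries.coeff_mul_monomial]
      by_cases h : e i ≤ β
      · rw [if_pos h, k2_coeff_A, tsub_add_cancel_of_le h, mul_one]
        simp [h]
      · rw [if_neg h, if_neg (fun hh => h hh.1)]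
    simp only [h1]
    by_cases hex : ∃ i, e i ≤ β
    · obtain ⟨i, hi⟩ := k2_sel_exists hex
      rw [if_pos hex, Finset.sum_eq_single i]
      · rw [if_pos hi]
      · intro j _ hj
        rw [if_neg]
        intro h
        exact hj (k2_sel_unique h hi)
      · intro h; exact absurd (Finset.mem_univ _) h
    · rw [if_neg hex, Finset.sum_eq_zero]
      intro i _
      rw [if_neg]
      intro h
      exact hex ⟨i, h.1⟩
  refine ⟨H - ∑ i, k2A e i H * MvPowerSeries.monomial (e i) 1, by abel, ?_, ?_⟩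
  · intro β hβ
    rw [map_sub, key, if_pos hβ, sub_self]
  · intro β
    rw [map_sub, key]
    split_ifs
    · simp
    · simp

noncomputable def k2W {k : ℕ} (w : Fin k → ℝ) (b : Fin k →₀ ℕ) : ℝ := ∑ j, w j * (b j : ℝ)

theorem k2_W_add {k : ℕ} (w : Fin k → ℝ) (a b : Fin k →₀ ℕ) :
    k2W w (a + b) = k2W w a + k2W w b := by
  unfold k2W
  rw [← Finset.sum_add_distrib]
  refine Finset.sum_congr rfl fun j _ => ?_
  rw [Finsupp.add_apply]
  push_cast
  ring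

theorem k2_deg_le {k : ℕ} {w : Fin k → ℝ} (hw : ∀ i, 1 ≤ w i) (b : Fin k →₀ ℕ) :
    (b.degree : ℝ) ≤ k2W w b := by
  unfold k2W
  rw [Finsupp.degree_eq_sum]
  push_cast
  refine Finset.sum_le_sum fun j _ => ?_
  have := hw j
  have hb : (0 : ℝ) ≤ (b j : ℝ) := Nat.cast_nonneg _
  nlinarith

theorem k2_le_deg {k : ℕ} {w : Fin k → ℝ} (hw : ∀ i, 1 ≤ w i) (b : Fin k →₀ ℕ) :
    k2W w b ≤ (∑ j, w j) * (b.degree : ℝ) := by
  unfold k2W
  rw [Finsupp.degree_eq_sum]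
  push_cast
  rw [Finset.mul_sum]
  refine Finset.sum_le_sum fun j _ => ?_
  have h1 : w j ≤ ∑ i, w i :=
    Finset.single_le_sum (fun i _ => by linarith [hw i]) (Finset.mem_univ j)
  exact mul_le_mul_of_nonneg_right h1 (Nat.cast_nonneg _)

noncomputable def k2ω {k : ℕ} (w : Fin k → ℝ) (t : ℝ) (b : Fin k →₀ ℕ) : ℝ≥0∞ :=
  ENNReal.ofReal (t ^ k2W w b)

theorem k2_ω_add {k : ℕ} (w : Fin k → ℝ) {t : ℝ} (ht : 0 < t) (a b : Fin k →₀ ℕ) :
    k2ω w t (a + b) = k2ω w t a * k2ω w t b := by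
  unfold k2ω
  rw [k2_W_add, Real.rpow_add ht, ENNReal.ofReal_mul (Real.rpow_nonneg ht.le _)]

theorem k2_ω_ne {k : ℕ} (w : Fin k → ℝ) {t : ℝ} (ht : 0 < t) (b : Fin k →₀ ℕ) :
    k2ω w t b ≠ 0 := by
  unfold k2ω
  rw [Ne, ENNReal.ofReal_eq_zero, not_le]
  exact Real.rpow_pos_of_pos ht _

theorem k2_N_eq {k : ℕ} (w : Fin k → ℝ) (t : ℝ) (c : MvPowerSeries (Fin k) ℝ) :
    k2N (k2ω w t) c = ∑' b, ENNReal.ofReal (|MvPowerSeries.coeff b c| * t ^ k2W w b) := by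
  unfold k2N k2ω
  refine tsum_congr fun b => ?_
  rw [ENNReal.ofReal_mul (abs_nonneg _), Real.enorm_eq_ofReal_abs]

theorem k2_conv_summable {k : ℕ} {w : Fin k → ℝ} (hw : ∀ i, 1 ≤ w i)
    {c : MvPowerSeries (Fin k) ℝ} {ρ t : ℝ} (ht : 0 < t) (ht1 : t ≤ 1) (htρ : t ≤ ρ)
    (hc : Summable (fun α : Fin k →₀ ℕ => |MvPowerSeries.coeff α c| * ρ ^ α.degree)) :
    Summable (fun b => |MvPowerSeries.coeff b c| * t ^ k2W w b) := by
  refine Summable.of_nonneg_of_le (fun b => by positivity) (fun b => ?_) hc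
  refine mul_le_mul_of_nonneg_left ?_ (abs_nonneg _)
  calc t ^ k2W w b ≤ t ^ (b.degree : ℝ) := Real.rpow_le_rpow_of_exponent_ge ht ht1 (k2_deg_le hw b)
    _ = t ^ b.degree := Real.rpow_natCast _ _
    _ ≤ ρ ^ b.degree := pow_le_pow_left₀ ht.le htρ _

theorem k2_N_fin_of_summable {k : ℕ} {w : Fin k → ℝ} {t : ℝ} (ht : 0 < t)
    {c : MvPowerSeries (Fin k) ℝ}
    (hc : Summable (fun b => |MvPowerSeries.coeff b c| * t ^ k2W w b)) :
    k2N (k2ω w t) c ≠ ⊤ := by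
  rw [k2_N_eq, ← ENNReal.ofReal_tsum_of_nonneg (fun b => by positivity) hc]
  exact ENNReal.ofReal_ne_top

theorem k2_isConv {k : ℕ} {w : Fin k → ℝ} (hw : ∀ i, 1 ≤ w i)
    {c : MvPowerSeries (Fin k) ℝ} {t : ℝ} (ht : 0 < t) (ht1 : t ≤ 1)
    (hc : k2N (k2ω w t) c ≠ ⊤) : IsConv c := by
  rw [k2_N_eq] at hc
  have h1 := ENNReal.summable_toReal hc
  refine ⟨t ^ (∑ j, w j), Real.rpow_pos_of_pos ht _, ?_⟩
  refine Summable.of_nonneg_of_le (fun b => by positivity) (fun b => ?_) h1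
  rw [ENNReal.toReal_ofReal (by positivity)]
  refine mul_le_mul_of_nonneg_left ?_ (abs_nonneg _)
  rw [← Real.rpow_natCast, ← Real.rpow_mul ht.le]
  exact Real.rpow_le_rpow_of_exponent_ge ht ht1 (k2_le_deg hw b)

theorem k2_small {k : ℕ} (w : Fin k → ℝ) (hw : ∀ i, 1 ≤ w i)
    {g : MvPowerSeries (Fin k) ℝ} (hg : IsConv g) {e : Fin k →₀ ℕ}
    (he : MvPowerSeries.coeff e g = 1)
    (hlt : ∀ β : Fin k →₀ ℕ, β ≠ e → MvPowerSeries.coeff β g ≠ 0 → k2W w e < k2W w β) :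
    ∀ᶠ t : ℝ in 𝓝[>] 0, k2N (k2ω w t) (MvPowerSeries.monomial e 1 - g) ≤ 2⁻¹ * k2ω w t e := by
  classical
  obtain ⟨ρ, hρ, hsum⟩ := hg
  obtain ⟨q, hq⟩ : ∃ q : (Fin k →₀ ℕ) → ℝ, q = fun b =>
    |MvPowerSeries.coeff b (MvPowerSeries.monomial e 1 - g)| := ⟨_, rfl⟩
  have hq0 : ∀ b, 0 ≤ q b := fun b => by rw [hq]; exact abs_nonneg _
  have hqe : ∀ b, q b ≠ 0 → b ≠ e ∧ MvPowerSeries.coeff b g ≠ 0 := by
    intro b hb
    have hbe : b ≠ e := by
      rintro rfl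
      apply hb
      rw [hq]
      simp only
      rw [map_sub, MvPowerSeries.coeff_monomial_same, he, sub_self, abs_zero]
    refine ⟨hbe, fun h => hb ?_⟩
    rw [hq]
    simp only
    rw [map_sub, MvPowerSeries.coeff_monomial_ne hbe, h, sub_zero, abs_zero]
  have hqle : ∀ b, q b ≤ |MvPowerSeries.coeff b g| := by
    intro b
    by_cases hbe : b = e
    · by_cases h : q b = 0
      · rw [h]; exact abs_nonneg _
      · exact ((hqe b h).1 hbe).elim
    · rw [hq]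
      simp only
      rw [map_sub, MvPowerSeries.coeff_monomial_ne hbe, zero_sub, abs_neg]
  have hqpos : ∀ b, q b ≠ 0 → 0 < k2W w b - k2W w e := fun b hb => by
    have := hlt b (hqe b hb).1 (hqe b hb).2
    linarith
  obtain ⟨t0, ht0, ht01, ht0ρ⟩ : ∃ t0 : ℝ, 0 < t0 ∧ t0 ≤ 1 ∧ t0 ≤ ρ :=
    ⟨min 1 ρ, lt_min one_pos hρ, min_le_left _ _, min_le_right _ _⟩
  have hbound : Summable fun b => q b * t0 ^ (k2W w b - k2W w e) := by
    have h1 := (k2_conv_summable hw ht0 ht01 ht0ρ hsum).mul_right (t0 ^ (-k2W w e))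
    refine Summable.of_nonneg_of_le (fun b => mul_nonneg (hq0 b) (by positivity)) (fun b => ?_) h1
    rw [sub_eq_add_neg, Real.rpow_add ht0, ← mul_assoc]
    exact mul_le_mul_of_nonneg_right (mul_le_mul_of_nonneg_right (hqle b) (by positivity))
      (by positivity)
  have hle : ∀ t : ℝ, 0 < t → t ≤ t0 → ∀ b, q b * t ^ (k2W w b - k2W w e) ≤
      q b * t0 ^ (k2W w b - k2W w e) := by
    intro t ht htt b
    by_cases h : q b = 0
    · rw [h, zero_mul, zero_mul]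
    · exact mul_le_mul_of_nonneg_left (Real.rpow_le_rpow ht.le htt (hqpos b h).le) (hq0 b)
  have hlim : Tendsto (fun t : ℝ => ∑' b, q b * t ^ (k2W w b - k2W w e)) (𝓝[>] 0)
      (𝓝 (∑' b : Fin k →₀ ℕ, (0 : ℝ))) := by
    refine tendsto_tsum_of_dominated_convergence hbound (fun b => ?_) ?_
    · by_cases h : q b = 0
      · simp [h]
      · have h1 : Tendsto (fun t : ℝ => t ^ (k2W w b - k2W w e)) (𝓝 0)
            (𝓝 ((0 : ℝ) ^ (k2W w b - k2W w e))) :=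
          (Real.continuousAt_rpow_const 0 _ (Or.inr (hqpos b h).le)).tendsto
        rw [Real.zero_rpow (hqpos b h).ne'] at h1
        have h2 := (h1.mono_left nhdsWithin_le_nhds).const_mul (q b) (x := 𝓝[>] 0)
        simpa using h2
    · filter_upwards [Ioo_mem_nhdsGT ht0] with t ht b
      rw [Real.norm_of_nonneg (mul_nonneg (hq0 b) (Real.rpow_nonneg ht.1.le _))]
      exact hle t ht.1 ht.2.le b
  rw [tsum_zero] at hlim
  filter_upwards [hlim.eventually (gt_mem_nhds (show (0 : ℝ) < 1 / 2 by norm_num)),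
    Ioo_mem_nhdsGT ht0] with t h1 ht
  have hs : Summable fun b => q b * t ^ (k2W w b - k2W w e) :=
    Summable.of_nonneg_of_le (fun b => mul_nonneg (hq0 b) (Real.rpow_nonneg ht.1.le _))
      (hle t ht.1 ht.2.le) hbound
  have heq : ∀ b, q b * t ^ k2W w b = (q b * t ^ (k2W w b - k2W w e)) * t ^ k2W w e := by
    intro b
    rw [mul_assoc, ← Real.rpow_add ht.1, sub_add_cancel]
  have hs2 : Summable fun b => q b * t ^ k2W w b := by
    simp only [heq]
    exact hs.mul_right _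
  have h2 : k2N (k2ω w t) (MvPowerSeries.monomial e 1 - g) =
      ENNReal.ofReal (∑' b, q b * t ^ k2W w b) := by
    rw [k2_N_eq, ENNReal.ofReal_tsum_of_nonneg
      (fun b => mul_nonneg (hq0 b) (Real.rpow_nonneg ht.1.le _)) hs2]
    rw [hq]
  rw [h2]
  simp only [heq]
  rw [tsum_mul_right]
  have h3 : (2⁻¹ : ℝ≥0∞) * k2ω w t e = ENNReal.ofReal (2⁻¹ * t ^ k2W w e) := by
    unfold k2ω
    rw [ENNReal.ofReal_mul (by norm_num), ENNReal.ofReal_inv_of_pos two_pos, ENNReal.ofReal_ofNat]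
  rw [h3]
  apply ENNReal.ofReal_le_ofReal
  apply mul_le_mul_of_nonneg_right _ (Real.rpow_nonneg ht.1.le _)
  linarith

/-- convergent division (Grauert-Hironaka) -/
theorem conv_div {k s : ℕ} (w : Fin k → ℝ) (hw : ∀ i, 1 ≤ w i)
    (g : Fin s → MvPowerSeries (Fin k) ℝ) (hg : ∀ i, IsConv (g i))
    (e : Fin s → (Fin k →₀ ℕ)) (he : ∀ i, MvPowerSeries.coeff (e i) (g i) = 1)
    (hlt : ∀ i, ∀ β : Fin k →₀ ℕ, β ≠ e i → MvPowerSeries.coeff β (g i) ≠ 0 →
      ∑ j, w j * (e i j : ℝ) < ∑ j, w j * (β j : ℝ))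
    (h : MvPowerSeries (Fin k) ℝ) (hh : IsConv h) :
    ∃ (a : Fin s → MvPowerSeries (Fin k) ℝ) (r : MvPowerSeries (Fin k) ℝ),
      (∀ i, IsConv (a i)) ∧ IsConv r ∧ h = ∑ i, a i * g i + r ∧
      ∀ β : Fin k →₀ ℕ, (∃ i, e i ≤ β) → MvPowerSeries.coeff β r = 0 := by
  obtain ⟨ρ, hρ, hsum⟩ := hh
  have hev : ∀ᶠ t : ℝ in 𝓝[>] 0, ∀ i, k2N (k2ω w t) (MvPowerSeries.monomial (e i) 1 - g i) ≤
      2⁻¹ * k2ω w t (e i) := by
    rw [eventually_all]
    intro i
    exact k2_small w hw (hg i) (he i) (hlt i)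
  have hev2 : ∀ᶠ t : ℝ in 𝓝[>] 0, 0 < t ∧ t < min 1 ρ := Ioo_mem_nhdsGT (lt_min one_pos hρ)
  obtain ⟨t, hq, ht0, htm⟩ := (hev.and hev2).exists
  have ht1 : t ≤ 1 := htm.le.trans (min_le_left _ _)
  have htρ : t ≤ ρ := htm.le.trans (min_le_right _ _)
  have hhN : k2N (k2ω w t) h ≠ ⊤ :=
    k2_N_fin_of_summable ht0 (k2_conv_summable hw ht0 ht1 htρ hsum)
  obtain ⟨H, hHN, hH⟩ := k2_fixed (k2_ω_add w ht0) (k2_ω_ne w ht0) e
    (fun i => MvPowerSeries.monomial (e i) 1 - g i) hq h hhN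
  obtain ⟨r, hr, hr0, hrle⟩ := k2_decomp e H
  refine ⟨fun i => k2A e i H, r, fun i => ?_, ?_, ?_, hr0⟩
  · apply k2_isConv hw ht0 ht1
    have h1 : k2N (k2ω w t) (k2A e i H) * k2ω w t (e i) ≤ k2N (k2ω w t) H :=
      (Finset.single_le_sum (f := fun i => k2N (k2ω w t) (k2A e i H) * k2ω w t (e i))
        (fun _ _ => by simp) (Finset.mem_univ i)).trans (k2_N_A (k2_ω_add w ht0) e H)
    intro hcon
    rw [hcon, ENNReal.top_mul (k2_ω_ne w ht0 _)] at h1
    exact hHN (top_le_iff.1 h1)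
  · apply k2_isConv hw ht0 ht1
    refine ne_top_of_le_ne_top hHN ?_
    unfold k2N
    refine ENNReal.tsum_le_tsum fun b => ?_
    gcongr
    exact hrle b
  · have h1 : h = H - k2E e (fun i => MvPowerSeries.monomial (e i) 1 - g i) H := by
      rw [eq_sub_iff_add_eq]
      exact hH.symm
    unfold k2E at h1
    simp only [mul_sub, Finset.sum_sub_distrib] at h1
    rw [h1]
    nth_rewrite 1 [hr]
    abel


end Pool.Agent.Helper420.QI.K2
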