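import Pool.Agent.Helper420.QI.K1
import Pool.Agent.Helper420.QI.K2
import Pool.Agent.Helper420.QI.F6
set_option autoImplicit false
set_option linter.unusedSectionVars false
set_option linter.unusedVariables false
open Filter Topology
open Pool.Agent.Helper420.QI.K1 Pool.Agent.Helper420.QI.K2

namespace Pool.Agent.Helper420.QI.K3

theorem conv_add_mul {k : ℕ} (f g : MvPowerSeries (Fin k) ℝ) (hf : IsConv f) (hg : IsConv g) :
    IsConv (f + g) ∧ IsConv (f * g) :=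
  ⟨(F6.conv_alg f g hf hg).1, (F6.conv_alg f g hf hg).2.1⟩

/-- weight -/
noncomputable def wt {k : ℕ} (w : Fin k → ℝ) (α : Fin k →₀ ℕ) : ℝ := ∑ j, w j * (α j : ℝ)

theorem wt_mono {k : ℕ} (w : Fin k → ℝ) (hw : ∀ i, 1 ≤ w i) {α β : Fin k →₀ ℕ} (h : α ≤ β) :
    wt w α ≤ wt w β := by
  unfold wt
  apply Finset.sum_le_sum
  intro j _
  have h1 : (α j : ℝ) ≤ (β j : ℝ) := by exact_mod_cast h j
  exact mul_le_mul_of_nonneg_left h1 (by linarith [hw j])

theorem wt_fin {k : ℕ} (w : Fin k → ℝ) (hw : ∀ i, 1 ≤ w i) (c : ℝ) :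
    {α : Fin k →₀ ℕ | wt w α ≤ c}.Finite := by
  apply (Set.finite_Iic (Finsupp.equivFunOnFinite.symm (fun _ : Fin k => ⌊c⌋₊))).subset
  intro α hα
  have hα' : wt w α ≤ c := hα
  rw [Set.mem_Iic]
  intro j
  have h1 : (α j : ℝ) ≤ c := by
    have h2 : w j * (α j : ℝ) ≤ wt w α := by
      unfold wt
      exact Finset.single_le_sum (f := fun j => w j * (α j : ℝ))
        (fun i _ => mul_nonneg (by linarith [hw i]) (Nat.cast_nonneg _)) (Finset.mem_univ j)
    have h3 : (α j : ℝ) ≤ w j * (α j : ℝ) := by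
      nlinarith [hw j, (Nat.cast_nonneg (α j) : (0 : ℝ) ≤ (α j : ℝ))]
    linarith
  simpa using Nat.le_floor h1

theorem exists_in {k : ℕ} (w : Fin k → ℝ) (hw : ∀ i, 1 ≤ w i)
    (hinj : Function.Injective (wt w)) (u : MvPowerSeries (Fin k) ℝ) (hu : u ≠ 0) :
    ∃ α : Fin k →₀ ℕ, MvPowerSeries.coeff α u ≠ 0 ∧
      ∀ β : Fin k →₀ ℕ, β ≠ α → MvPowerSeries.coeff β u ≠ 0 → wt w α < wt w β := by
  have h1 : ∃ γ : Fin k →₀ ℕ, MvPowerSeries.coeff γ u ≠ 0 := by
    by_contra hcon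
    push Not at hcon
    exact hu (MvPowerSeries.ext (fun γ => by rw [hcon γ]; simp))
  obtain ⟨γ, hγ⟩ := h1
  have hfin : {β : Fin k →₀ ℕ | MvPowerSeries.coeff β u ≠ 0 ∧ wt w β ≤ wt w γ}.Finite :=
    (wt_fin w hw (wt w γ)).subset (fun β hβ => hβ.2)
  obtain ⟨α, hα, hmin⟩ := Set.exists_min_image _ (wt w) hfin ⟨γ, hγ, le_refl _⟩
  refine ⟨α, hα.1, fun β hne hβ => ?_⟩
  by_cases hle : wt w β ≤ wt w γ
  · have h2 := hmin β ⟨hβ, hle⟩
    exact lt_of_le_of_ne h2 (fun h => hne (hinj h).symm)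
  · exact lt_of_le_of_lt hα.2 (not_le.1 hle)

theorem conv_of_fin {k : ℕ} (u : MvPowerSeries (Fin k) ℝ)
    (S : Set (Fin k →₀ ℕ)) (hS : S.Finite)
    (h : ∀ β : Fin k →₀ ℕ, β ∉ S → MvPowerSeries.coeff β u = 0) : IsConv u := by
  refine ⟨1, one_pos, ?_⟩
  apply summable_of_ne_finset_zero (s := hS.toFinset)
  intro β hβ
  rw [h β (by simpa using hβ)]
  simp

theorem conv_sum {k : ℕ} {ι : Type} (s : Finset ι) (f : ι → MvPowerSeries (Fin k) ℝ)
    (hf : ∀ i, IsConv (f i)) : IsConv (∑ i ∈ s, f i) := by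
  classical
  induction s using Finset.induction_on with
  | empty =>
    rw [Finset.sum_empty]
    exact conv_of_fin 0 ∅ Set.finite_empty (fun β _ => by simp)
  | insert a s ha ih =>
    rw [Finset.sum_insert ha]
    exact (conv_add_mul _ _ (hf a) ih).1

/-- convergent combinations -/
def InI {k n : ℕ} (g : Fin n → MvPowerSeries (Fin k) ℝ) (u : MvPowerSeries (Fin k) ℝ) : Prop :=
  ∃ a : Fin n → MvPowerSeries (Fin k) ℝ, (∀ i, IsConv (a i)) ∧ u = ∑ i, a i * g i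

theorem InI.conv {k n : ℕ} {g : Fin n → MvPowerSeries (Fin k) ℝ} (hg : ∀ i, IsConv (g i))
    {u : MvPowerSeries (Fin k) ℝ} (hu : InI g u) : IsConv u := by
  obtain ⟨a, ha, rfl⟩ := hu
  exact conv_sum _ _ (fun i => (conv_add_mul _ _ (ha i) (hg i)).2)

theorem InI.span {k n : ℕ} {g : Fin n → MvPowerSeries (Fin k) ℝ}
    {u : MvPowerSeries (Fin k) ℝ} (hu : InI g u) : u ∈ Ideal.span (Set.range g) := by
  obtain ⟨a, ha, rfl⟩ := hu
  exact Ideal.mem_span_range_iff_exists_fun.2 ⟨a, rfl⟩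

theorem InI.mul {k n : ℕ} {g : Fin n → MvPowerSeries (Fin k) ℝ}
    {u : MvPowerSeries (Fin k) ℝ} (hu : InI g u) (q : MvPowerSeries (Fin k) ℝ) (hq : IsConv q) :
    InI g (q * u) := by
  obtain ⟨a, ha, rfl⟩ := hu
  refine ⟨fun i => q * a i, fun i => (conv_add_mul _ _ hq (ha i)).2, ?_⟩
  rw [Finset.mul_sum]
  exact Finset.sum_congr rfl (fun i _ => by ring)

theorem InI.add {k n : ℕ} {g : Fin n → MvPowerSeries (Fin k) ℝ}
    {u v : MvPowerSeries (Fin k) ℝ} (hu : InI g u) (hv : InI g v) : InI g (u + v) := by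
  obtain ⟨a, ha, rfl⟩ := hu
  obtain ⟨b, hb, rfl⟩ := hv
  refine ⟨fun i => a i + b i, fun i => (conv_add_mul _ _ (ha i) (hb i)).1, ?_⟩
  rw [← Finset.sum_add_distrib]
  exact Finset.sum_congr rfl (fun i _ => by ring)

theorem InI.zero {k n : ℕ} (g : Fin n → MvPowerSeries (Fin k) ℝ) : InI g 0 :=
  ⟨fun _ => 0, fun _ => conv_of_fin 0 ∅ Set.finite_empty (fun β _ => by simp), by simp⟩

theorem InI.sum {k n : ℕ} {g : Fin n → MvPowerSeries (Fin k) ℝ} {ι : Type} (s : Finset ι)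
    (f : ι → MvPowerSeries (Fin k) ℝ) (hf : ∀ i, InI g (f i)) : InI g (∑ i ∈ s, f i) := by
  classical
  induction s using Finset.induction_on with
  | empty => rw [Finset.sum_empty]; exact InI.zero g
  | insert a s ha ih => rw [Finset.sum_insert ha]; exact (hf a).add ih

/-- truncation -/
noncomputable def trunc' {k : ℕ} (w : Fin k → ℝ) (c : ℝ) (b : MvPowerSeries (Fin k) ℝ) :
    MvPowerSeries (Fin k) ℝ := by
  classical
  exact fun α => if wt w α ≤ c then MvPowerSeries.coeff α b else 0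

theorem coeff_trunc' {k : ℕ} (w : Fin k → ℝ) (c : ℝ) (b : MvPowerSeries (Fin k) ℝ)
    (α : Fin k →₀ ℕ) [Decidable (wt w α ≤ c)] :
    MvPowerSeries.coeff α (trunc' w c b) = if wt w α ≤ c then MvPowerSeries.coeff α b else 0 := by
  have h1 : MvPowerSeries.coeff α (trunc' w c b) = trunc' w c b α := MvPowerSeries.coeff_apply _ _
  rw [h1]
  unfold trunc'
  by_cases h : wt w α ≤ c
  · rw [if_pos h, if_pos h]
  · rw [if_neg h, if_neg h]

theorem trunc'_conv {k : ℕ} (w : Fin k → ℝ) (hw : ∀ i, 1 ≤ w i) (c : ℝ)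
    (b : MvPowerSeries (Fin k) ℝ) : IsConv (trunc' w c b) := by
  classical
  apply conv_of_fin _ _ (wt_fin w hw c)
  intro β hβ
  rw [coeff_trunc', if_neg]
  exact hβ

theorem coeff_sub_trunc {k n : ℕ} (w : Fin k → ℝ) (hw : ∀ i, 1 ≤ w i) (c : ℝ)
    (g b : Fin n → MvPowerSeries (Fin k) ℝ) (β : Fin k →₀ ℕ) (hβ : wt w β ≤ c) :
    MvPowerSeries.coeff β (∑ i, trunc' w c (b i) * g i)
      = MvPowerSeries.coeff β (∑ i, b i * g i) := by
  classical
  rw [map_sum, map_sum]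
  apply Finset.sum_congr rfl
  intro i _
  rw [MvPowerSeries.coeff_mul, MvPowerSeries.coeff_mul]
  apply Finset.sum_congr rfl
  intro p hp
  have hp := Finset.HasAntidiagonal.mem_antidiagonal.1 hp
  have h1 : p.1 ≤ β := by rw [← hp]; exact le_self_add
  rw [coeff_trunc', if_pos (le_trans (wt_mono w hw h1) hβ)]

/-- TARGET -/
theorem conv_mem {k n : ℕ} (g : Fin n → MvPowerSeries (Fin k) ℝ) (hg : ∀ i, IsConv (g i))
    (h : MvPowerSeries (Fin k) ℝ) (hh : IsConv h) (hmem : h ∈ Ideal.span (Set.range g)) :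
    ∃ a : Fin n → MvPowerSeries (Fin k) ℝ, (∀ i, IsConv (a i)) ∧ h = ∑ i, a i * g i := by
  classical
  obtain ⟨w, hw, hinj0⟩ := exists_weight k
  have hinj : Function.Injective (wt w) := hinj0
  -- exponents
  let E : Set (Fin k →₀ ℕ) := {α | ∃ u, InI g u ∧ MvPowerSeries.coeff α u = 1 ∧
    ∀ β : Fin k →₀ ℕ, β ≠ α → MvPowerSeries.coeff β u ≠ 0 → wt w α < wt w β}
  have hM : {α | Minimal (· ∈ E) α}.Finite := by
    apply IsAntichain.finite_of_partiallyWellOrderedOn (r := (· ≤ ·))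
    · exact setOfPred_minimal_antichain _
    · exact Set.isPWO_of_wellQuasiOrderedLE _
  obtain ⟨s, e, he⟩ : ∃ (s : ℕ) (e : Fin s → (Fin k →₀ ℕ)), Set.range e = {α | Minimal (· ∈ E) α} := by
    have := hM.fin_param
    obtain ⟨s, f, hf, hr⟩ := this
    exact ⟨s, f, hr⟩
  have heE : ∀ i, e i ∈ E := by
    intro i
    have h1 : e i ∈ {α | Minimal (· ∈ E) α} := by rw [← he]; exact ⟨i, rfl⟩
    exact h1.1
  choose u hu1 hu2 hu3 using heE
  obtain ⟨q, r, hq, hr, hdec, hr0⟩ := conv_div w hw u (fun i => (hu1 i).conv hg) e hu2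
    (fun i β hβ hc => hu3 i β hβ hc) h hh
  have hsum : InI g (∑ i, q i * u i) := InI.sum _ _ (fun i => (hu1 i).mul (q i) (hq i))
  by_cases hrz : r = 0
  · rw [hrz, add_zero] at hdec
    rw [hdec]
    exact hsum
  · exfalso
    have hrspan : r ∈ Ideal.span (Set.range g) := by
      have h1 : r = h - ∑ i, q i * u i := by rw [hdec]; ring
      rw [h1]
      exact Ideal.sub_mem _ hmem hsum.span
    obtain ⟨b, hb⟩ := Ideal.mem_span_range_iff_exists_fun.1 hrspan
    obtain ⟨β, hβ, hβmin⟩ := exists_in w hw hinj r hrz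
    have hc : ∀ γ : Fin k →₀ ℕ, wt w γ ≤ wt w β →
        MvPowerSeries.coeff γ (∑ i, trunc' w (wt w β) (b i) * g i) = MvPowerSeries.coeff γ r := by
      intro γ hγ
      rw [coeff_sub_trunc w hw (wt w β) g b γ hγ, hb]
    have hI : InI g (∑ i, trunc' w (wt w β) (b i) * g i) :=
      ⟨fun i => trunc' w (wt w β) (b i), fun i => trunc'_conv w hw _ _, rfl⟩
    have hbE : β ∈ E := by
      refine ⟨MvPowerSeries.C (MvPowerSeries.coeff β r)⁻¹ * ∑ i, trunc' w (wt w β) (b i) * g i,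
        hI.mul _ ?_, ?_, ?_⟩
      · apply conv_of_fin _ {0} (Set.finite_singleton 0)
        intro γ hγ
        rw [MvPowerSeries.coeff_C, if_neg]
        simpa using hγ
      · rw [MvPowerSeries.coeff_C_mul, hc β le_rfl, inv_mul_cancel₀ hβ]
      · intro γ hγ hne
        rw [MvPowerSeries.coeff_C_mul] at hne
        by_contra hcon
        push Not at hcon
        rw [hc γ hcon] at hne
        have h2 := hβmin γ hγ (right_ne_zero_of_mul hne)
        linarith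
    obtain ⟨m, hm, hmin⟩ := exists_minimal_le_of_wellFoundedLT (· ∈ E) β hbE
    have hm2 : m ∈ Set.range e := by rw [he]; exact hmin
    obtain ⟨i, hi⟩ := hm2
    exact hβ (hr0 β ⟨i, hi ▸ hm⟩)


end Pool.Agent.Helper420.QI.K3
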