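import Pool.Agent.Helper420.QI.Pos2
import Pool.Agent.Helper420.QI.Fin
import Pool.Agent.Helper420.QI.Conc4
set_option autoImplicit false
set_option linter.unusedSectionVars false
set_option linter.unusedVariables false
open MeasureTheory Filter Topology Set
open scoped ENNReal NNReal InnerProductSpace

namespace Pool.Agent.Helper420.QI.PosC

open Pool.Agent.Helper420.QI.V1 Pool.Agent.Helper420.QI.Pos Pool.Agent.Helper420.QI.QEig
  Pool.Agent.Helper420.QI.Sob

/-- the eigenvalue problem, as in the statement of the problem -/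
def IsEig (N : ℕ) (Ω : Set (EuclideanSpace ℝ (Fin N))) (q lam : ℝ)
    (u : EuclideanSpace ℝ (Fin N) → ℝ)
    (G : EuclideanSpace ℝ (Fin N) → EuclideanSpace ℝ (Fin N)) : Prop :=
  MemLp u 2 (volume.restrict Ω) ∧ MemLp u (ENNReal.ofReal q) (volume.restrict Ω) ∧
  MemLp G 2 (volume.restrict Ω) ∧
  ¬ (u =ᵐ[volume.restrict Ω] 0) ∧
  (∃ φ : ℕ → EuclideanSpace ℝ (Fin N) → ℝ,
    (∀ n, ContDiff ℝ ((⊤ : ℕ∞) : WithTop ℕ∞) (φ n) ∧ HasCompactSupport (φ n) ∧ tsupport (φ n) ⊆ Ω) ∧
    Tendsto (fun n => eLpNorm (fun x => φ n x - u x) 2 (volume.restrict Ω)) atTop (nhds 0) ∧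
    Tendsto (fun n => eLpNorm (fun x => gradient (φ n) x - G x) 2 (volume.restrict Ω)) atTop (nhds 0)) ∧
  ∀ ψ : EuclideanSpace ℝ (Fin N) → ℝ, ContDiff ℝ ((⊤ : ℕ∞) : WithTop ℕ∞) ψ → HasCompactSupport ψ →
    tsupport ψ ⊆ Ω →
    ∫ x in Ω, inner ℝ (G x) (gradient ψ x) =
      lam * ((eLpNorm u (ENNReal.ofReal q) (volume.restrict Ω)).toReal) ^ (2 - q) *
        ∫ x in Ω, |u x| ^ (q - 2) * u x * ψ x

theorem off {N : ℕ} {Ω : Set (EuclideanSpace ℝ (Fin N))} {ψ : EuclideanSpace ℝ (Fin N) → ℝ}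
    (h : tsupport ψ ⊆ Ω) {x : EuclideanSpace ℝ (Fin N)} (hx : x ∉ Ω) : ψ x = 0 := by
  by_contra hne
  exact hx (h (subset_tsupport _ hne))

theorem goff {N : ℕ} {Ω : Set (EuclideanSpace ℝ (Fin N))} {ψ : EuclideanSpace ℝ (Fin N) → ℝ}
    (h : tsupport ψ ⊆ Ω) {x : EuclideanSpace ℝ (Fin N)} (hx : x ∉ Ω) : gradient ψ x = 0 := by
  have h1 : x ∉ tsupport ψ := fun h2 => hx (h h2)
  have h2 : ψ =ᶠ[𝓝 x] 0 := notMem_tsupport_iff_eventuallyEq.mp h1
  unfold gradient
  rw [h2.fderiv_eq]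
  simp

/-- transfer between the concrete and the abstract eigenvalue problem -/
theorem transfer {N : ℕ} (hN : 2 ≤ N) {Ω : Set (EuclideanSpace ℝ (Fin N))} (hΩ : IsOpen Ω)
    (hb : Bornology.IsBounded Ω) {q : ℝ} (hq : 2 < q) (hq' : 3 ≤ N → q < 2 * (N : ℝ) / ((N : ℝ) - 2)) :
    ∃ (H : Type) (_ : NormedAddCommGroup H) (_ : InnerProductSpace ℝ H) (_ : CompleteSpace H)
      (J : H →L[ℝ] Lp ℝ 2 (volume.restrict Ω)) (r : ℝ), Dir (volume.restrict Ω) J q r ∧
      (∀ lam u G, IsEig N Ω q lam u G → ∃ (w : H) (c : ℝ), 0 < c ∧ Crit J q w ∧ ‖w‖ ^ 2 = lam ∧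
        J w =ᵐ[volume.restrict Ω] fun x => c * u x) ∧
      (∀ w : H, Crit J q w → ∃ G, IsEig N Ω q (‖w‖ ^ 2) (J w) G) ∧
      (∀ l1 : ℝ, (∀ ψ : EuclideanSpace ℝ (Fin N) → ℝ, ContDiff ℝ ((⊤ : ℕ∞) : WithTop ℕ∞) ψ →
          HasCompactSupport ψ → tsupport ψ ⊆ Ω →
          l1 * ((eLpNorm ψ (ENNReal.ofReal q) (volume.restrict Ω)).toReal) ^ 2 ≤
            ∫ x in Ω, ‖gradient ψ x‖ ^ 2) →
        ∀ v : H, l1 * NN J q v ^ 2 ≤ ‖v‖ ^ 2) := by
  have hfin : IsFiniteMeasure ((volume : Measure (EuclideanSpace ℝ (Fin N))).restrict Ω) :=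
    ⟨by rw [Measure.restrict_apply_univ]; exact hb.measure_lt_top⟩
  have hq'' : ((N : ℝ) - 2) * q < 2 * (N : ℝ) := by
    rcases Nat.lt_or_ge N 3 with h | h
    · have : N = 2 := by omega
      subst this; norm_num
    · have h1 := hq' h
      have h2 : (3 : ℝ) ≤ N := by exact_mod_cast h
      rw [lt_div_iff₀ (by linarith)] at h1
      linarith
  obtain ⟨H, i1, i2, i3, J, D, r, hD, habs, hiff, hdense⟩ :=
    Pool.Agent.Helper420.QI.Conc.exists_dir hN hΩ hb hq hq''
  have hq0 : 0 < q := by linarith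
  -- the equation on the whole space
  have hinner : ∀ (w h : H) (G : EuclideanSpace ℝ (Fin N) → EuclideanSpace ℝ (Fin N))
      (ψ : EuclideanSpace ℝ (Fin N) → ℝ), tsupport ψ ⊆ Ω →
      G =ᵐ[volume.restrict Ω] D w → D h =ᵐ[volume] gradient ψ →
      ∫ x in Ω, inner ℝ (G x) (gradient ψ x) = ⟪w, h⟫_ℝ := by
    intro w h G ψ hψ hG hh
    rw [← D.inner_map_map w h, L2.inner_def, ← integral_indicator hΩ.measurableSet]
    apply integral_congr_ae
    rw [Filter.EventuallyEq, ae_restrict_iff' hΩ.measurableSet] at hG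
    filter_upwards [hG, hh] with x e1 e2
    by_cases hx : x ∈ Ω
    · rw [Set.indicator_of_mem hx, e1 hx, e2]
    · rw [Set.indicator_of_notMem hx, e2, goff hψ hx, inner_zero_right]
  refine ⟨H, i1, i2, i3, J, r, hD, ?_, ?_, ?_⟩
  · rintro lam u G ⟨hu2, huq, hG2, hne, ⟨φ, hφ, ht1, ht2⟩, heq⟩
    have hmem := (hiff (Ω.indicator u) (Ω.indicator G)).mp ⟨
      (memLp_indicator_iff_restrict hΩ.measurableSet).mpr hu2,
      (memLp_indicator_iff_restrict hΩ.measurableSet).mpr hG2, φ, hφ, by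
        refine ht1.congr fun n => ?_
        rw [← eLpNorm_indicator_eq_eLpNorm_restrict hΩ.measurableSet]
        congr 1
        ext x
        by_cases hx : x ∈ Ω
        · rw [Set.indicator_of_mem hx, Set.indicator_of_mem hx]
        · rw [Set.indicator_of_notMem hx, Set.indicator_of_notMem hx, off (hφ n).2.2 hx, sub_zero], by
        refine ht2.congr fun n => ?_
        rw [← eLpNorm_indicator_eq_eLpNorm_restrict hΩ.measurableSet]
        congr 1
        ext x
        by_cases hx : x ∈ Ω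
        · rw [Set.indicator_of_mem hx, Set.indicator_of_mem hx]
        · rw [Set.indicator_of_notMem hx, Set.indicator_of_notMem hx, goff (hφ n).2.2 hx, sub_zero]⟩
    obtain ⟨-, w, huw, hGw⟩ := hmem
    have huw' : u =ᵐ[volume.restrict Ω] J w := by
      refine Filter.EventuallyEq.trans ?_ huw
      rw [Filter.EventuallyEq, ae_restrict_iff' hΩ.measurableSet]
      exact Eventually.of_forall fun x hx => (Set.indicator_of_mem hx _).symm
    have hGw' : G =ᵐ[volume.restrict Ω] D w := by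
      refine Filter.EventuallyEq.trans ?_ (ae_restrict_of_ae hGw)
      rw [Filter.EventuallyEq, ae_restrict_iff' hΩ.measurableSet]
      exact Eventually.of_forall fun x hx => (Set.indicator_of_mem hx _).symm
    set n : ℝ := (eLpNorm u (ENNReal.ofReal q) (volume.restrict Ω)).toReal with hn
    have hnN : NN J q w = n := by
      unfold NN
      rw [hn, eLpNorm_congr_ae huw']
    have hn0 : 0 < n := by
      rcases (NN_nonneg w : 0 ≤ NN J q w).eq_or_lt with h | h
      · exfalso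
        apply hne
        refine huw'.trans (ae_zero_of_NN hD ?_)
        rw [← h, Real.zero_rpow hq0.ne']
      · rwa [hnN] at h
    have heq' : ∀ φ : H, ⟪w, φ⟫_ℝ = lam * n ^ (2 - q) * I J q w φ := by
      intro φ
      refine Pool.Agent.Helper420.QI.Fin.extend_eq hD w (lam * n ^ (2 - q))
        {h : H | ∃ ψ : EuclideanSpace ℝ (Fin N) → ℝ, (ContDiff ℝ (⊤ : ℕ∞) ψ ∧ HasCompactSupport ψ ∧
          tsupport ψ ⊆ Ω) ∧ J h =ᵐ[volume.restrict Ω] ψ ∧ D h =ᵐ[volume] gradient ψ} ?_ ?_ φ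
      · intro v ε' hε'
        obtain ⟨ψ, h, h1, h2, h3, h4⟩ := hdense v ε' hε'
        exact ⟨h, ⟨ψ, h1, h2, h3⟩, h4⟩
      · rintro h ⟨ψ, ⟨h1, h2, h3⟩, h4, h5⟩
        have h6 := heq ψ h1 h2 h3
        rw [hinner w h G ψ h3 hGw' h5] at h6
        rw [h6]
        congr 1
        apply integral_congr_ae
        filter_upwards [huw', h4] with x e1 e2
        rw [e1, e2]
    have hnv : NN J q (n⁻¹ • w) = 1 := by
      rw [NN_smul, abs_of_pos (inv_pos.mpr hn0), hnN, inv_mul_cancel₀ hn0.ne']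
    have hv : ∀ φ : H, ⟪n⁻¹ • w, φ⟫_ℝ = lam * I J q (n⁻¹ • w) φ := by
      intro φ
      rw [real_inner_smul_left, heq' φ, I_smul_left hq _ _ (inv_pos.mpr hn0)]
      have h4 : n⁻¹ ^ (q - 1) = n⁻¹ * n ^ (2 - q) := by
        rw [Real.inv_rpow hn0.le, ← Real.rpow_neg hn0.le, ← Real.rpow_neg_one n, ← Real.rpow_add hn0]
        congr 1; ring
      rw [h4]; ring
    have hI1 : I J q (n⁻¹ • w) (n⁻¹ • w) = 1 := by
      have h1 : NN J q (n⁻¹ • w) ^ q = 1 := by rw [hnv, Real.one_rpow]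
      rw [← h1, NN_pow hD]
      unfold I
      apply integral_congr_ae
      refine Eventually.of_forall fun x => ?_
      simp only
      set t := J (n⁻¹ • w) x
      have h2 : |t| ^ (q - 2) * t * t = |t| ^ (q - 2) * (|t| * |t|) := by
        rw [abs_mul_abs_self]; ring
      rw [h2]
      rcases eq_or_ne |t| 0 with h0 | h0
      · rw [h0, Real.zero_rpow hq0.ne']; simp
      · rw [← mul_assoc, ← Real.rpow_add_one h0, ← Real.rpow_add_one h0]; congr 1; ring
    have hlam : ‖n⁻¹ • w‖ ^ 2 = lam := by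
      rw [← real_inner_self_eq_norm_sq, hv, hI1, mul_one]
    refine ⟨n⁻¹ • w, n⁻¹, inv_pos.mpr hn0, ⟨hnv, fun φ => ?_⟩, hlam, ?_⟩
    · rw [hlam]; exact hv φ
    · rw [map_smul]
      filter_upwards [Lp.coeFn_smul n⁻¹ (J w), huw'] with x h1 h2
      rw [h1, Pi.smul_apply, smul_eq_mul, h2]
  · intro w hw
    have hu0 : Set.indicator Ω (J w) =ᵐ[volume.restrict Ωᶜ] 0 := by
      rw [Filter.EventuallyEq, ae_restrict_iff' hΩ.measurableSet.compl]
      exact Eventually.of_forall fun x hx => Set.indicator_of_notMem hx _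
    have huw : Set.indicator Ω (J w) =ᵐ[volume.restrict Ω] J w := by
      rw [Filter.EventuallyEq, ae_restrict_iff' hΩ.measurableSet]
      exact Eventually.of_forall fun x hx => Set.indicator_of_mem hx _
    obtain ⟨-, hGm, φ, hφ, ht1, ht2⟩ := (hiff _ _).mpr ⟨hu0, w, huw, Filter.EventuallyEq.rfl⟩
    refine ⟨D w, Lp.memLp _, memq hD w, hGm.restrict Ω, ?_, ⟨φ, hφ, ?_, ?_⟩, ?_⟩
    · intro h
      have h1 : NN J q w = 0 := by
        unfold NN
        rw [eLpNorm_congr_ae h]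
        simp
      rw [hw.1] at h1
      norm_num at h1
    · refine tendsto_of_tendsto_of_tendsto_of_le_of_le tendsto_const_nhds ht1 (fun n => zero_le)
        (fun n => ?_)
      have h1 : eLpNorm (fun x => φ n x - J w x) 2 (volume.restrict Ω) =
          eLpNorm (fun x => φ n x - Ω.indicator (J w) x) 2 (volume.restrict Ω) := by
        apply eLpNorm_congr_ae
        filter_upwards [huw] with x hx
        rw [hx]
      show eLpNorm (fun x => φ n x - J w x) 2 (volume.restrict Ω) ≤ _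
      rw [h1]
      exact eLpNorm_mono_measure _ Measure.restrict_le_self
    · refine tendsto_of_tendsto_of_tendsto_of_le_of_le tendsto_const_nhds ht2 (fun n => zero_le)
        (fun n => ?_)
      exact eLpNorm_mono_measure _ Measure.restrict_le_self
    · intro ψ h1 h2 h3
      have hψ : IsTest Ω ψ := ⟨h1, h2, h3⟩
      obtain ⟨-, h, hh1, hh2⟩ := (hiff ψ (gradient ψ)).mp ⟨memLp_test hψ 2, memLp_grad hψ 2,
        fun _ => ψ, fun _ => ⟨h1, h2, h3⟩, by simp, by simp⟩
      rw [hinner w h (D w) ψ h3 Filter.EventuallyEq.rfl hh2.symm, hw.2 h]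
      have h5 : (eLpNorm (J w) (ENNReal.ofReal q) (volume.restrict Ω)).toReal = 1 := hw.1
      rw [h5, Real.one_rpow, mul_one]
      congr 1
      unfold I
      apply integral_congr_ae
      filter_upwards [hh1] with x hx
      rw [hx]
  · intro l1 hl v
    choose ψ h h1 h2 h3 h4 using fun n : ℕ => hdense v (1 / ((n : ℝ) + 1)) (by positivity)
    have hlim : Tendsto h atTop (𝓝 v) := by
      rw [tendsto_iff_norm_sub_tendsto_zero]
      refine squeeze_zero (fun n => norm_nonneg _) (fun n => ?_) tendsto_one_div_add_atTop_nhds_zero_nat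
      rw [norm_sub_rev]
      exact (h4 n).le
    have e1 : Tendsto (fun n => l1 * NN J q (h n) ^ 2) atTop (𝓝 (l1 * NN J q v ^ 2)) :=
      ((NN_tendsto' hD hlim).pow 2).const_mul l1
    have e2 : Tendsto (fun n => ‖h n‖ ^ 2) atTop (𝓝 (‖v‖ ^ 2)) := hlim.norm.pow 2
    refine le_of_tendsto_of_tendsto' e1 e2 fun n => ?_
    have e3 := hl (ψ n) (h1 n).1 (h1 n).2.1 (h1 n).2.2
    have e4 : NN J q (h n) = (eLpNorm (ψ n) (ENNReal.ofReal q) (volume.restrict Ω)).toReal := by
      unfold NN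
      rw [eLpNorm_congr_ae (h2 n)]
    have e5 : ∫ x in Ω, ‖gradient (ψ n) x‖ ^ 2 = ‖h n‖ ^ 2 := by
      rw [← real_inner_self_eq_norm_sq, ← hinner (h n) (h n) (gradient (ψ n)) (ψ n) (h1 n).2.2
        (ae_restrict_of_ae (h3 n).symm) (h3 n)]
      apply integral_congr_ae
      refine Eventually.of_forall fun x => ?_
      simp only
      rw [real_inner_self_eq_norm_sq]
    rw [e4, ← e5]
    exact e3

end Pool.Agent.Helper420.QI.PosC
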