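import Mathlib

/-!
Definitions for the `q`-eigenvalue problems of the Dirichlet Laplacian.
-/

set_option autoImplicit false

open MeasureTheory Set
open scoped ENNReal NNReal

namespace Pool.Agent.Helper420.QI.QEig

/-- Smooth real functions on `ℝ^N` with compact support contained in `Ω`. -/
def IsTest {N : ℕ} (Ω : Set (EuclideanSpace ℝ (Fin N))) (φ : EuclideanSpace ℝ (Fin N) → ℝ) : Prop :=
  ContDiff ℝ ((⊤ : ℕ∞) : WithTop ℕ∞) φ ∧ HasCompactSupport φ ∧ tsupport φ ⊆ Ω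

/-- Pairs (function in `L^q(ℝ^N)`, vector field in `L^2(ℝ^N)`). -/
abbrev Pairs (N : ℕ) (q : ℝ≥0) : Type :=
  Lp ℝ (q : ℝ≥0∞) (volume : Measure (EuclideanSpace ℝ (Fin N))) ×
    Lp (EuclideanSpace ℝ (Fin N)) 2 (volume : Measure (EuclideanSpace ℝ (Fin N)))

/-- The space `D^{1,2}_0(Ω)` for bounded open `Ω`, realised as the closure in `L^q × L^2` of the pairs
`(φ, ∇φ)` with `φ` smooth and compactly supported in `Ω`. -/
def D012 {N : ℕ} (q : ℝ≥0) [Fact (1 ≤ (q : ℝ≥0∞))] (Ω : Set (EuclideanSpace ℝ (Fin N))) :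
    Set (Pairs N q) :=
  closure {p | ∃ φ : EuclideanSpace ℝ (Fin N) → ℝ, IsTest Ω φ ∧
    (p.1 : EuclideanSpace ℝ (Fin N) → ℝ) =ᵐ[volume] φ ∧
    (p.2 : EuclideanSpace ℝ (Fin N) → EuclideanSpace ℝ (Fin N)) =ᵐ[volume] gradient φ}

/-- `p = (u, ∇u)` is a nonzero element of `D^{1,2}_0(Ω)` which is a weak solution of
`-Δu = lam ‖u‖_q^{2-q} |u|^{q-2} u` in `Ω`. -/
def IsEigenpair {N : ℕ} (q : ℝ≥0) [Fact (1 ≤ (q : ℝ≥0∞))] (Ω : Set (EuclideanSpace ℝ (Fin N)))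
    (lam : ℝ) (p : Pairs N q) : Prop :=
  p ∈ D012 q Ω ∧ p.1 ≠ 0 ∧
    ∀ ψ : EuclideanSpace ℝ (Fin N) → ℝ, IsTest Ω ψ →
      ∫ x, inner ℝ (p.2 x) (gradient ψ x) =
        lam * ‖p.1‖ ^ ((2 : ℝ) - q) * ∫ x, |p.1 x| ^ ((q : ℝ) - 2) * p.1 x * ψ x

end Pool.Agent.Helper420.QI.QEig
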