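import Pool.Agent.Helper420.QI.Dir
set_option autoImplicit false
set_option linter.unusedSectionVars false
set_option linter.unusedVariables false
open MeasureTheory Filter Topology Set
open scoped ENNReal NNReal InnerProductSpace

namespace Pool.Agent.Helper420.QI.W1

variable {α : Type*} [MeasurableSpace α] {μ : Measure α} [IsFiniteMeasure μ]
  {H : Type*} [NormedAddCommGroup H] [InnerProductSpace ℝ H] [CompleteSpace H]
  {J : H →L[ℝ] Lp ℝ 2 μ} {q r : ℝ}


lemma w1_hoelder {g : α → ℝ} (hg : ∀ x, 0 ≤ g x) {S : Set α} (hS : MeasurableSet S)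
    (h0 : ∀ x, x ∉ S → g x = 0) {r a : ℝ} (hr : MemLp g (ENNReal.ofReal r) μ)
    (ha : 0 < a) (har : a < r) :
    ∫ x, g x ^ a ∂μ ≤ (∫ x, g x ^ r ∂μ) ^ (a / r) * (μ.real S) ^ (1 - a / r) := by
  have hr0 : 0 < r := ha.trans har
  have hpq : (r / a).HolderConjugate (r / (r - a)) := by
    rw [Real.holderConjugate_iff]
    refine ⟨(one_lt_div ha).2 har, ?_⟩
    rw [inv_div, inv_div, ← add_div]
    field_simp
    ring
  have hf1 : MemLp (fun x => g x ^ a) (ENNReal.ofReal (r / a)) μ := by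
    have := hr.norm_rpow_div (ENNReal.ofReal a)
    rw [← ENNReal.ofReal_div_of_pos ha, ENNReal.toReal_ofReal ha.le] at this
    refine this.ae_eq ?_
    filter_upwards with x
    rw [Real.norm_of_nonneg (hg x)]
  have hf2 : MemLp (S.indicator (fun _ => (1 : ℝ))) (ENNReal.ofReal (r / (r - a))) μ :=
    memLp_indicator_const _ hS 1 (Or.inr (measure_ne_top _ _))
  have key := integral_mul_le_Lp_mul_Lq_of_nonneg hpq
    (Eventually.of_forall fun x => Real.rpow_nonneg (hg x) a)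
    (Eventually.of_forall fun x => Set.indicator_nonneg (fun _ _ => zero_le_one) x) hf1 hf2
  have e1 : ∀ x, g x ^ a * S.indicator (fun _ => (1 : ℝ)) x = g x ^ a := by
    intro x
    by_cases hx : x ∈ S
    · simp [hx]
    · rw [h0 x hx, Real.zero_rpow ha.ne']; simp
  have e2 : ∀ x, (g x ^ a) ^ (r / a) = g x ^ r := by
    intro x
    rw [← Real.rpow_mul (hg x)]
    congr 1
    field_simp
  have e3 : ∀ x, (S.indicator (fun _ => (1 : ℝ)) x) ^ (r / (r - a)) = S.indicator (fun _ => (1 : ℝ)) x := by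
    intro x
    by_cases hx : x ∈ S
    · simp [hx]
    · simp only [hx, not_false_eq_true, Set.indicator_of_notMem]
      rw [Real.zero_rpow]
      have : 0 < r - a := by linarith
      positivity
  simp only [e1, e2, e3] at key
  rw [integral_indicator_const _ hS] at key
  have e4 : 1 / (r / a) = a / r := by rw [one_div_div]
  have e5 : 1 / (r / (r - a)) = 1 - a / r := by
    rw [one_div_div]; field_simp
  rw [e4, e5] at key
  simpa using key

lemma w1_add_rpow {a b p : ℝ} (ha : 0 ≤ a) (hb : 0 ≤ b) (hp : 0 ≤ p) :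
    (a + b) ^ p ≤ 2 ^ p * (a ^ p + b ^ p) := by
  have h1 : (a + b) ^ p ≤ (2 * max a b) ^ p := by
    refine Real.rpow_le_rpow (by positivity) ?_ hp
    have := le_max_left a b
    have := le_max_right a b
    linarith
  rw [Real.mul_rpow (by norm_num) (le_max_of_le_left ha)] at h1
  refine h1.trans (mul_le_mul_of_nonneg_left ?_ (by positivity))
  rcases max_cases a b with ⟨h, _⟩ | ⟨h, _⟩ <;> rw [h]
  · have := Real.rpow_nonneg hb p; linarith
  · have := Real.rpow_nonneg ha p; linarith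

lemma w1_level (hD : Dir μ J q r) {C : ℝ} (hC : 0 < C)
    (hsob : ∀ u : H, eLpNorm (J u) (ENNReal.ofReal r) μ ≤ ENNReal.ofReal (C * ‖u‖))
    {M R : ℝ} (hM : 0 ≤ M) {w : H} (hR : ‖w‖ ≤ R)
    (hw : ∀ φ : H, 0 ≤ᵐ[μ] J φ → ⟪w, φ⟫_ℝ ≤ M * ∫ x, (1 + |J w x| ^ (q - 1)) * J φ x ∂μ)
    {k : ℝ} (hk : 0 ≤ k)
    (h1 : M * 2 ^ (q - 1) * (C * R) ^ (q - 2) * C ^ 2 *
      (μ.real {x | k < J w x}) ^ (1 - q / r) ≤ 1 / 2) {h : ℝ} (hh : k < h) :
    μ.real {x | h < J w x} ≤
      ((2 * C ^ 2 * M * (1 + 2 ^ (q - 1) * k ^ (q - 1))) / (h - k)) ^ r *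
        (μ.real {x | k < J w x}) ^ (r - 1) := by
  have hq := hD.two_lt
  have hqr := hD.q_lt
  have hr0 : 0 < r := by linarith
  have hrofR : ENNReal.ofReal r ≠ 0 := by simpa using hr0
  obtain ⟨wk, hwk, hwk2⟩ := hD.cut w k hk
  set A : ℝ := μ.real {x | k < J w x} with hA
  have hA0 : 0 ≤ A := measureReal_nonneg
  set g : α → ℝ := fun x => max (J w x - k) 0 with hg
  have hg0 : ∀ x, 0 ≤ g x := fun x => le_max_right _ _
  have hmeas : Measurable (J w : α → ℝ) := (Lp.stronglyMeasurable (J w)).measurable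
  have hS : MeasurableSet {x | k < J w x} := measurableSet_lt measurable_const hmeas
  have hgS : ∀ x, x ∉ {x | k < J w x} → g x = 0 := by
    intro x hx
    have : J w x ≤ k := not_lt.1 hx
    exact max_eq_right (by linarith)
  have hmemJ : MemLp (J wk) (ENNReal.ofReal r) μ :=
    ⟨Lp.aestronglyMeasurable _, (hsob wk).trans_lt ENNReal.ofReal_lt_top⟩
  have hmem : MemLp g (ENNReal.ofReal r) μ := hmemJ.ae_eq hwk
  set n : ℝ := ‖wk‖ with hn
  have hn0 : 0 ≤ n := norm_nonneg _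
  have hnw : n ≤ R := by
    have h2 : n ^ 2 ≤ ‖w‖ * n := hwk2.trans (real_inner_le_norm _ _)
    rcases hn0.eq_or_lt with h0 | h0
    · rw [← h0]; exact (norm_nonneg w).trans hR
    · have : n ≤ ‖w‖ := by
        have h3 : n * n ≤ ‖w‖ * n := by nlinarith
        exact le_of_mul_le_mul_right h3 h0
      exact this.trans hR
  have hR0 : 0 ≤ R := hn0.trans hnw
  set Z : ℝ := ∫ x, g x ^ r ∂μ with hZ
  have hZ0 : 0 ≤ Z := integral_nonneg fun x => Real.rpow_nonneg (hg0 x) r
  set z : ℝ := Z ^ (1 / r) with hz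
  have hz0 : 0 ≤ z := Real.rpow_nonneg hZ0 _
  have hzr : z ^ r = Z := by
    rw [hz, ← Real.rpow_mul hZ0, one_div, inv_mul_cancel₀ hr0.ne', Real.rpow_one]
  have hzn : z ≤ C * n := by
    have e := hmem.eLpNorm_eq_integral_rpow_norm hrofR ENNReal.ofReal_ne_top
    have e2 : eLpNorm g (ENNReal.ofReal r) μ ≤ ENNReal.ofReal (C * n) := by
      rw [← eLpNorm_congr_ae hwk]; exact hsob wk
    rw [e, ENNReal.toReal_ofReal hr0.le] at e2
    have e3 : ∀ x, ‖g x‖ ^ r = g x ^ r := fun x => by rw [Real.norm_of_nonneg (hg0 x)]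
    simp only [e3] at e2
    rw [ENNReal.ofReal_le_ofReal_iff (by positivity)] at e2
    rw [hz, one_div]; exact e2
  -- the two Hölder bounds
  have hH1 : ∫ x, g x ∂μ ≤ z * A ^ (1 - 1 / r) := by
    have := w1_hoelder (μ := μ) hg0 hS hgS hmem one_pos (by linarith)
    simpa only [Real.rpow_one] using this
  have hHq : ∫ x, g x ^ q ∂μ ≤ z ^ q * A ^ (1 - q / r) := by
    have := w1_hoelder (μ := μ) hg0 hS hgS hmem (by linarith : 0 < q) hqr
    have e : z ^ q = Z ^ (q / r) := by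
      rw [hz, ← Real.rpow_mul hZ0]; congr 1; field_simp
    rw [e]; exact this
  have hint1 : Integrable g μ := hmem.integrable (by
    rw [← ENNReal.ofReal_one]; exact ENNReal.ofReal_le_ofReal (by linarith))
  have hintq : Integrable (fun x => g x ^ q) μ := by
    have hm : MemLp g (ENNReal.ofReal q) μ := hmem.mono_exponent (ENNReal.ofReal_le_ofReal hqr.le)
    have := hm.integrable_norm_rpow (by simpa using (by linarith : 0 < q)) ENNReal.ofReal_ne_top
    rw [ENNReal.toReal_ofReal (by linarith)] at this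
    refine this.congr ?_
    filter_upwards with x
    rw [Real.norm_of_nonneg (hg0 x)]
  set c : ℝ := 1 + 2 ^ (q - 1) * k ^ (q - 1) with hc
  have hc0 : 0 ≤ c := by positivity
  have hint : ∫ x, (1 + |J w x| ^ (q - 1)) * J wk x ∂μ
      ≤ c * ∫ x, g x ∂μ + 2 ^ (q - 1) * ∫ x, g x ^ q ∂μ := by
    rw [← integral_const_mul, ← integral_const_mul, ← integral_add (hint1.const_mul _)
      (hintq.const_mul _)]
    refine integral_mono_of_nonneg ?_ ((hint1.const_mul _).add (hintq.const_mul _)) ?_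
    · filter_upwards [hwk] with x hx
      rw [hx]
      exact mul_nonneg (by positivity) (le_max_right _ _)
    · filter_upwards [hwk] with x hx
      rw [hx]
      show (1 + |J w x| ^ (q - 1)) * g x ≤ c * g x + 2 ^ (q - 1) * g x ^ q
      by_cases hx2 : k < J w x
      · have hgx : g x = J w x - k := max_eq_left (by linarith)
        have hgpos : 0 < g x := by rw [hgx]; linarith
        have e1 : |J w x| = g x + k := by
          rw [hgx, abs_of_pos (by linarith)]; ring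
        have e2 : (g x + k) ^ (q - 1) ≤ 2 ^ (q - 1) * (g x ^ (q - 1) + k ^ (q - 1)) :=
          w1_add_rpow hgpos.le hk (by linarith)
        have e3 : g x ^ q = g x ^ (q - 1) * g x := by
          rw [← Real.rpow_add_one hgpos.ne']; congr 1; ring
        rw [e1, e3]
        have := mul_le_mul_of_nonneg_right e2 hgpos.le
        rw [hc]
        nlinarith
      · have hgx : g x = 0 := hgS x hx2
        rw [hgx, Real.zero_rpow (by linarith)]; simp
  have hmain : n ^ 2 ≤ M * (c * (z * A ^ (1 - 1 / r)) + 2 ^ (q - 1) * (z ^ q * A ^ (1 - q / r))) := by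
    have h3 : ⟪w, wk⟫_ℝ ≤ M * ∫ x, (1 + |J w x| ^ (q - 1)) * J wk x ∂μ := by
      refine hw wk ?_
      filter_upwards [hwk] with x hx
      rw [hx]; exact le_max_right _ _
    refine hwk2.trans (h3.trans (mul_le_mul_of_nonneg_left (hint.trans ?_) hM))
    exact add_le_add (mul_le_mul_of_nonneg_left hH1 hc0)
      (mul_le_mul_of_nonneg_left hHq (by positivity))
  set A1 : ℝ := A ^ (1 - 1 / r) with hA1
  have hA10 : 0 ≤ A1 := Real.rpow_nonneg hA0 _
  set Aq : ℝ := A ^ (1 - q / r) with hAq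
  have hAq0 : 0 ≤ Aq := Real.rpow_nonneg hA0 _
  have hzq : z ^ q ≤ (C * R) ^ (q - 2) * (C ^ 2 * n ^ 2) := by
    rcases hz0.eq_or_lt with h0 | h0
    · rw [← h0, Real.zero_rpow (by linarith)]; positivity
    · have e : z ^ q = z ^ (q - 2) * z ^ (2 : ℝ) := by
        rw [← Real.rpow_add h0]; congr 1; ring
      rw [e]
      refine mul_le_mul ?_ ?_ (by positivity) (by positivity)
      · exact Real.rpow_le_rpow hz0 (hzn.trans (mul_le_mul_of_nonneg_left hnw hC.le)) (by linarith)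
      · rw [Real.rpow_two, ← mul_pow]
        exact pow_le_pow_left₀ hz0 hzn 2
  have hn2 : n ^ 2 ≤ M * c * C * A1 * n + 1 / 2 * n ^ 2 := by
    have t1 : M * (c * (z * A1)) ≤ M * c * C * A1 * n := by
      have : M * c * A1 * z ≤ M * c * A1 * (C * n) :=
        mul_le_mul_of_nonneg_left hzn (by positivity)
      nlinarith
    have t2 : M * (2 ^ (q - 1) * (z ^ q * Aq)) ≤ 1 / 2 * n ^ 2 := by
      have s1 : M * 2 ^ (q - 1) * Aq * z ^ q ≤
          M * 2 ^ (q - 1) * Aq * ((C * R) ^ (q - 2) * (C ^ 2 * n ^ 2)) :=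
        mul_le_mul_of_nonneg_left hzq (by positivity)
      have s2 : M * 2 ^ (q - 1) * (C * R) ^ (q - 2) * C ^ 2 * Aq * n ^ 2 ≤ 1 / 2 * n ^ 2 :=
        mul_le_mul_of_nonneg_right h1 (by positivity)
      calc M * (2 ^ (q - 1) * (z ^ q * Aq)) = M * 2 ^ (q - 1) * Aq * z ^ q := by ring
        _ ≤ _ := s1
        _ = M * 2 ^ (q - 1) * (C * R) ^ (q - 2) * C ^ 2 * Aq * n ^ 2 := by ring
        _ ≤ _ := s2
    calc n ^ 2 ≤ _ := hmain
      _ = M * (c * (z * A1)) + M * (2 ^ (q - 1) * (z ^ q * Aq)) := by ring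
      _ ≤ _ := add_le_add t1 t2
  have hn3 : n ≤ 2 * (M * c * C * A1) := by
    rcases hn0.eq_or_lt with h0 | h0
    · rw [← h0]; positivity
    · have : n * n ≤ 2 * (M * c * C * A1) * n := by nlinarith
      exact le_of_mul_le_mul_right this h0
  have hz3 : z ≤ (2 * C ^ 2 * M * c) * A1 := by
    calc z ≤ C * n := hzn
      _ ≤ C * (2 * (M * c * C * A1)) := mul_le_mul_of_nonneg_left hn3 hC.le
      _ = _ := by ring
  -- Chebyshev
  have hch : (h - k) ^ r * μ.real {x | h < J w x} ≤ Z := by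
    have hintr : Integrable (fun x => g x ^ r) μ := by
      have := hmem.integrable_norm_rpow hrofR ENNReal.ofReal_ne_top
      rw [ENNReal.toReal_ofReal hr0.le] at this
      refine this.congr ?_
      filter_upwards with x
      rw [Real.norm_of_nonneg (hg0 x)]
    have h5 := mul_meas_ge_le_integral_of_nonneg (μ := μ)
      (Eventually.of_forall fun x => Real.rpow_nonneg (hg0 x) r) hintr ((h - k) ^ r)
    refine (mul_le_mul_of_nonneg_left ?_ (Real.rpow_nonneg (by linarith) _)).trans h5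
    refine measureReal_mono ?_ (measure_ne_top _ _)
    intro x hx
    have hx' : h < J w x := hx
    show (h - k) ^ r ≤ g x ^ r
    refine Real.rpow_le_rpow (by linarith) ?_ hr0.le
    exact le_max_of_le_left (by linarith)
  have hhk : 0 < h - k := by linarith
  have hfin : Z ≤ (2 * C ^ 2 * M * c) ^ r * A ^ (r - 1) := by
    rw [← hzr]
    have h6 : z ^ r ≤ ((2 * C ^ 2 * M * c) * A1) ^ r := Real.rpow_le_rpow hz0 hz3 hr0.le
    rw [Real.mul_rpow (by positivity) hA10] at h6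
    have e : A1 ^ r = A ^ (r - 1) := by
      rw [hA1, ← Real.rpow_mul hA0]; congr 1; field_simp
    rwa [e] at h6
  rw [Real.div_rpow (by positivity) hhk.le, div_mul_eq_mul_div, le_div_iff₀ (by positivity),
    mul_comm]
  exact hch.trans hfin

lemma w1_core (hD : Dir μ J q r) {C : ℝ} (hC : 0 < C)
    (hsob : ∀ u : H, eLpNorm (J u) (ENNReal.ofReal r) μ ≤ ENNReal.ofReal (C * ‖u‖))
    {M R : ℝ} (hM : 0 ≤ M) {w : H} (hR : ‖w‖ ≤ R)
    (hw : ∀ φ : H, 0 ≤ᵐ[μ] J φ → ⟪w, φ⟫_ℝ ≤ M * ∫ x, (1 + |J w x| ^ (q - 1)) * J φ x ∂μ)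
    {k d : ℝ} (hk : 0 ≤ k) (hd : 0 < d)
    (h1 : M * 2 ^ (q - 1) * (C * R) ^ (q - 2) * C ^ 2 *
      (μ.real {x | k < J w x}) ^ (1 - q / r) ≤ 1 / 2)
    (h2 : (2 * (2 * C ^ 2 * M * (1 + 2 ^ (q - 1) * (k + d) ^ (q - 1))) / d) ^ r *
      (μ.real {x | k < J w x}) ^ (r - 2) ≤ 2 ^ (- (r / (r - 2)))) :
    ∀ᵐ x ∂μ, J w x ≤ k + d := by
  have hq := hD.two_lt
  have hqr := hD.q_lt
  have hr0 : 0 < r := by linarith
  have hR0 : 0 ≤ R := (norm_nonneg w).trans hR
  set B : ℝ := 2 * C ^ 2 * M * (1 + 2 ^ (q - 1) * (k + d) ^ (q - 1)) with hB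
  have hB0 : 0 ≤ B := by positivity
  set ρ : ℝ := 2 ^ (- (r / (r - 2))) with hρ
  have hρ0 : 0 < ρ := by positivity
  have hρ1 : ρ < 1 := by
    rw [hρ]
    refine Real.rpow_lt_one_of_one_lt_of_neg (by norm_num) ?_
    have : 0 < r / (r - 2) := div_pos hr0 (by linarith)
    linarith
  have hρr : (2 : ℝ) ^ r * ρ ^ (r - 2) = 1 := by
    rw [hρ, ← Real.rpow_mul (by norm_num), ← Real.rpow_add (by norm_num)]
    have : r + -(r / (r - 2)) * (r - 2) = 0 := by
      have : r - 2 ≠ 0 := by linarith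
      field_simp
      ring
    rw [this, Real.rpow_zero]
  set a : ℕ → ℝ := fun j => μ.real {x | k + d * (1 - (1 / 2) ^ j) < J w x} with ha
  have ha0 : ∀ j, 0 ≤ a j := fun j => measureReal_nonneg
  have hak : a 0 = μ.real {x | k < J w x} := by simp [ha]
  have hkj : ∀ j : ℕ, 0 ≤ k + d * (1 - (1 / 2 : ℝ) ^ j) := by
    intro j
    have : (1 / 2 : ℝ) ^ j ≤ 1 := pow_le_one₀ (by norm_num) (by norm_num)
    have : 0 ≤ d * (1 - (1 / 2 : ℝ) ^ j) := mul_nonneg hd.le (by linarith)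
    linarith
  have hkd : ∀ j : ℕ, k + d * (1 - (1 / 2 : ℝ) ^ j) ≤ k + d := by
    intro j
    have : 0 ≤ d * (1 / 2 : ℝ) ^ j := by positivity
    nlinarith
  have haj : ∀ j, a j ≤ a 0 := by
    intro j
    rw [hak]
    refine measureReal_mono ?_ (measure_ne_top _ _)
    intro x hx
    have hx' : k + d * (1 - (1 / 2) ^ j) < J w x := hx
    have : (1 / 2 : ℝ) ^ j ≤ 1 := pow_le_one₀ (by norm_num) (by norm_num)
    have : 0 ≤ d * (1 - (1 / 2 : ℝ) ^ j) := mul_nonneg hd.le (by linarith)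
    show k < J w x
    linarith
  have hstep : ∀ j, a (j + 1) ≤ (2 * B / d) ^ r * (2 ^ r) ^ j * a j ^ (r - 1) := by
    intro j
    have hlt : k + d * (1 - (1 / 2 : ℝ) ^ j) < k + d * (1 - (1 / 2) ^ (j + 1)) := by
      have h3 : (1 / 2 : ℝ) ^ (j + 1) < (1 / 2) ^ j := by
        rw [pow_succ]
        have : 0 < (1 / 2 : ℝ) ^ j := by positivity
        linarith
      have := mul_lt_mul_of_pos_left h3 hd
      linarith
    have h1j : M * 2 ^ (q - 1) * (C * R) ^ (q - 2) * C ^ 2 *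
        (μ.real {x | k + d * (1 - (1 / 2) ^ j) < J w x}) ^ (1 - q / r) ≤ 1 / 2 := by
      refine le_trans (mul_le_mul_of_nonneg_left ?_ (by positivity)) h1
      rw [← hak]
      refine Real.rpow_le_rpow (ha0 j) (haj j) ?_
      have : q / r ≤ 1 := (div_le_one hr0).2 hqr.le
      linarith
    have h4 := w1_level hD hC hsob hM hR hw (hkj j) h1j hlt
    refine h4.trans ?_
    show _ * a j ^ (r - 1) ≤ _
    refine mul_le_mul_of_nonneg_right ?_ (Real.rpow_nonneg (ha0 j) _)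
    have e1 : (k + d * (1 - (1 / 2 : ℝ) ^ (j + 1))) - (k + d * (1 - (1 / 2) ^ j))
        = d * (1 / 2) ^ (j + 1) := by
      rw [pow_succ]; ring
    rw [e1]
    have e2 : ((2 : ℝ) ^ r) ^ j = ((2 : ℝ) ^ j) ^ r := by
      rw [← Real.rpow_natCast, ← Real.rpow_natCast, ← Real.rpow_mul (by norm_num),
        ← Real.rpow_mul (by norm_num), mul_comm]
    have e4 : (2 * B / d) ^ r * ((2 : ℝ) ^ j) ^ r = (2 * B / d * 2 ^ j) ^ r :=
      (Real.mul_rpow (by positivity) (by positivity)).symm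
    rw [e2, e4]
    have hkj' := hkj j
    refine Real.rpow_le_rpow (by positivity) ?_ hr0.le
    have e3 : 2 * B / d * 2 ^ j = B / (d * (1 / 2) ^ (j + 1)) := by
      rw [pow_succ, one_div, inv_pow]
      field_simp
    rw [e3]
    refine div_le_div_of_nonneg_right ?_ (by positivity)
    rw [hB]
    refine mul_le_mul_of_nonneg_left ?_ (by positivity)
    have := Real.rpow_le_rpow (hkj j) (hkd j) (by linarith : (0 : ℝ) ≤ q - 1)
    have h5 : (2 : ℝ) ^ (q - 1) * (k + d * (1 - (1 / 2) ^ j)) ^ (q - 1)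
        ≤ 2 ^ (q - 1) * (k + d) ^ (q - 1) := mul_le_mul_of_nonneg_left this (by positivity)
    linarith
  have hind : ∀ j, a j ≤ a 0 * ρ ^ j := by
    intro j
    induction j with
    | zero => simp
    | succ j ih =>
      refine (hstep j).trans ?_
      rcases (ha0 0).eq_or_lt with h0 | h0
      · have hj : a j = 0 := le_antisymm (by rw [← h0] at haj; exact haj j) (ha0 j)
        rw [hj, Real.zero_rpow (by linarith), ← h0]; simp
      · have s1 : a j ^ (r - 1) ≤ (a 0 * ρ ^ j) ^ (r - 1) :=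
          Real.rpow_le_rpow (ha0 j) ih (by linarith)
        have s2 : (a 0 * ρ ^ j) ^ (r - 1) = a 0 ^ (r - 2) * (ρ ^ (r - 2)) ^ j * (a 0 * ρ ^ j) := by
          have e : r - 1 = (r - 2) + 1 := by ring
          rw [e, Real.rpow_add (by positivity), Real.rpow_one, Real.mul_rpow h0.le (by positivity)]
          have e2 : (ρ ^ j) ^ (r - 2) = (ρ ^ (r - 2)) ^ j := by
            rw [← Real.rpow_natCast, ← Real.rpow_natCast, ← Real.rpow_mul hρ0.le,
              ← Real.rpow_mul hρ0.le, mul_comm]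
          rw [e2]
        have s3 : ((2 : ℝ) ^ r) ^ j * (ρ ^ (r - 2)) ^ j = 1 := by
          rw [← mul_pow, hρr, one_pow]
        calc (2 * B / d) ^ r * (2 ^ r) ^ j * a j ^ (r - 1)
            ≤ (2 * B / d) ^ r * (2 ^ r) ^ j * (a 0 * ρ ^ j) ^ (r - 1) :=
              mul_le_mul_of_nonneg_left s1 (by positivity)
          _ = ((2 * B / d) ^ r * a 0 ^ (r - 2)) * (((2 : ℝ) ^ r) ^ j * (ρ ^ (r - 2)) ^ j) *
                (a 0 * ρ ^ j) := by rw [s2]; ring
          _ = ((2 * B / d) ^ r * a 0 ^ (r - 2)) * (a 0 * ρ ^ j) := by rw [s3, mul_one]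
          _ ≤ ρ * (a 0 * ρ ^ j) := by
              refine mul_le_mul_of_nonneg_right ?_ (by positivity)
              rw [hak]; exact h2
          _ = a 0 * ρ ^ (j + 1) := by rw [pow_succ]; ring
  have hle : ∀ j, μ.real {x | k + d < J w x} ≤ a 0 * ρ ^ j := by
    intro j
    refine le_trans ?_ (hind j)
    refine measureReal_mono ?_ (measure_ne_top _ _)
    intro x hx
    exact lt_of_le_of_lt (hkd j) hx
  have hlim : Tendsto (fun j : ℕ => a 0 * ρ ^ j) atTop (𝓝 0) := by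
    have := (tendsto_pow_atTop_nhds_zero_of_lt_one hρ0.le hρ1).const_mul (a 0)
    simpa using this
  have hzero : μ.real {x | k + d < J w x} = 0 :=
    le_antisymm (ge_of_tendsto' hlim hle) measureReal_nonneg
  have hz2 : μ {x | k + d < J w x} = 0 := by
    rwa [measureReal_eq_zero_iff (measure_ne_top _ _)] at hzero
  rw [ae_iff]
  simpa only [not_le] using hz2

lemma w1_abs {M : ℝ} {w : H}
    (hw : ∀ φ : H, 0 ≤ᵐ[μ] J φ → ⟪w, φ⟫_ℝ ≤ M * ∫ x, (1 + |J w x| ^ (q - 1)) * J φ x ∂μ) :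
    ∀ φ : H, 0 ≤ᵐ[μ] J φ → ⟪w, φ⟫_ℝ ≤ |M| * ∫ x, (1 + |J w x| ^ (q - 1)) * J φ x ∂μ := by
  intro φ hφ
  refine (hw φ hφ).trans (mul_le_mul_of_nonneg_right (le_abs_self M) ?_)
  refine integral_nonneg_of_ae ?_
  filter_upwards [hφ] with x hx
  exact mul_nonneg (by positivity) hx

theorem stamp_bdd (hD : Dir μ J q r) {M : ℝ} (w : H)
    (hw : ∀ φ : H, 0 ≤ᵐ[μ] J φ → ⟪w, φ⟫_ℝ ≤ M * ∫ x, (1 + |J w x| ^ (q - 1)) * J φ x ∂μ) :
    ∃ B : ℝ, ∀ᵐ x ∂μ, J w x ≤ B := by
  have hq := hD.two_lt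
  have hqr := hD.q_lt
  have hr0 : 0 < r := by linarith
  obtain ⟨C, hC, hsob⟩ := hD.sob
  have hw' := w1_abs hw
  set M' := |M| with hM'
  have hM0 : 0 ≤ M' := abs_nonneg M
  set R : ℝ := ‖w‖ with hR
  have hR0 : 0 ≤ R := norm_nonneg w
  -- measure of superlevel sets
  have hA : ∀ k : ℝ, 0 < k → μ.real {x | k < J w x} ≤ (C * R / k) ^ r := by
    intro k hk
    have hmem : MemLp (J w) (ENNReal.ofReal r) μ :=
      ⟨Lp.aestronglyMeasurable _, (hsob w).trans_lt ENNReal.ofReal_lt_top⟩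
    have hrofR : ENNReal.ofReal r ≠ 0 := by simpa using hr0
    have hintr : Integrable (fun x => ‖J w x‖ ^ r) μ := by
      have := hmem.integrable_norm_rpow hrofR ENNReal.ofReal_ne_top
      rwa [ENNReal.toReal_ofReal hr0.le] at this
    have h5 := mul_meas_ge_le_integral_of_nonneg (μ := μ)
      (Eventually.of_forall fun x => Real.rpow_nonneg (norm_nonneg (J w x)) r) hintr (k ^ r)
    have h6 : ∫ x, ‖J w x‖ ^ r ∂μ ≤ (C * R) ^ r := by
      have e := hmem.eLpNorm_eq_integral_rpow_norm hrofR ENNReal.ofReal_ne_top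
      have e2 := hsob w
      rw [e, ENNReal.toReal_ofReal hr0.le, ENNReal.ofReal_le_ofReal_iff (by positivity)] at e2
      have hI0 : 0 ≤ ∫ x, ‖J w x‖ ^ r ∂μ := integral_nonneg fun x => by positivity
      have e3 := Real.rpow_le_rpow (Real.rpow_nonneg hI0 _) e2 hr0.le
      rwa [← Real.rpow_mul hI0, inv_mul_cancel₀ hr0.ne', Real.rpow_one] at e3
    have h7 : k ^ r * μ.real {x | k < J w x} ≤ (C * R) ^ r := by
      refine le_trans (mul_le_mul_of_nonneg_left ?_ (by positivity)) (h5.trans h6)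
      refine measureReal_mono ?_ (measure_ne_top _ _)
      intro x hx
      have hx' : k < J w x := hx
      show k ^ r ≤ ‖J w x‖ ^ r
      refine Real.rpow_le_rpow hk.le (hx'.le.trans ?_) hr0.le
      exact le_abs_self _
    rw [Real.div_rpow (by positivity) hk.le, le_div_iff₀ (by positivity), mul_comm]
    exact h7
  -- choice of k
  have l1 : Tendsto (fun k : ℝ => M' * 2 ^ (q - 1) * (C * R) ^ (q - 2) * C ^ 2 *
      ((C * R / k) ^ r) ^ (1 - q / r)) atTop (𝓝 0) := by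
    have t1 : Tendsto (fun k : ℝ => C * R / k) atTop (𝓝 0) := tendsto_const_nhds.div_atTop tendsto_id
    have hp : 0 < 1 - q / r := by
      have : q / r < 1 := (div_lt_one hr0).2 hqr
      linarith
    have t2 : Tendsto (fun k : ℝ => ((C * R / k) ^ r) ^ (1 - q / r)) atTop (𝓝 0) := by
      have := (t1.rpow_const (Or.inr hr0.le)).rpow_const (p := 1 - q / r) (Or.inr hp.le)
      rwa [Real.zero_rpow hr0.ne', Real.zero_rpow hp.ne'] at this
    simpa using t2.const_mul (M' * 2 ^ (q - 1) * (C * R) ^ (q - 2) * C ^ 2)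
  have l2 : Tendsto (fun k : ℝ => (2 * (2 * C ^ 2 * M' * (1 + 4 ^ (q - 1))) * (C * R) ^ (r - 2) *
      k ^ (-(r - q))) ^ r) atTop (𝓝 0) := by
    have t1 : Tendsto (fun k : ℝ => k ^ (-(r - q))) atTop (𝓝 0) :=
      tendsto_rpow_neg_atTop (by linarith)
    have t2 := t1.const_mul (2 * (2 * C ^ 2 * M' * (1 + 4 ^ (q - 1))) * (C * R) ^ (r - 2))
    rw [mul_zero] at t2
    have := t2.rpow_const (p := r) (Or.inr hr0.le)
    rwa [Real.zero_rpow hr0.ne'] at this
  have hρ0 : (0 : ℝ) < 2 ^ (- (r / (r - 2))) := by positivity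
  obtain ⟨k, hk1, hk2, hk3⟩ := ((eventually_ge_atTop (1 : ℝ)).and
    ((l1.eventually_lt_const (by norm_num : (0 : ℝ) < 1 / 2)).and
      (l2.eventually_lt_const hρ0))).exists
  have hk0 : 0 < k := by linarith
  refine ⟨k + k, w1_core hD hC hsob hM0 (le_refl R) hw' hk0.le hk0 ?_ ?_⟩
  · refine le_trans (mul_le_mul_of_nonneg_left ?_ (by positivity)) hk2.le
    refine Real.rpow_le_rpow measureReal_nonneg (hA k hk0) ?_
    have : q / r ≤ 1 := (div_le_one hr0).2 hqr.le
    linarith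
  · refine le_trans ?_ hk3.le
    have s1 : (μ.real {x | k < J w x}) ^ (r - 2) ≤ ((C * R / k) ^ r) ^ (r - 2) :=
      Real.rpow_le_rpow measureReal_nonneg (hA k hk0) (by linarith)
    have s2 : ((C * R / k) ^ r) ^ (r - 2) = ((C * R / k) ^ (r - 2)) ^ r := by
      rw [← Real.rpow_mul (by positivity), ← Real.rpow_mul (by positivity), mul_comm r (r - 2)]
    have hkk : 1 ≤ k ^ (q - 1) := Real.one_le_rpow hk1 (by linarith)
    have s3 : 1 + 2 ^ (q - 1) * (k + k) ^ (q - 1) ≤ (1 + 4 ^ (q - 1)) * k ^ (q - 1) := by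
      have e : (2 : ℝ) ^ (q - 1) * (k + k) ^ (q - 1) = 4 ^ (q - 1) * k ^ (q - 1) := by
        rw [← Real.mul_rpow (by norm_num) (by positivity), ← Real.mul_rpow (by norm_num) hk0.le]
        congr 1; ring
      rw [e]; nlinarith
    calc (2 * (2 * C ^ 2 * M' * (1 + 2 ^ (q - 1) * (k + k) ^ (q - 1))) / k) ^ r *
          (μ.real {x | k < J w x}) ^ (r - 2)
        ≤ (2 * (2 * C ^ 2 * M' * ((1 + 4 ^ (q - 1)) * k ^ (q - 1))) / k) ^ r *
          ((C * R / k) ^ (r - 2)) ^ r := by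
            rw [← s2]
            refine mul_le_mul ?_ s1 (by positivity) (by positivity)
            refine Real.rpow_le_rpow (by positivity) ?_ hr0.le
            refine div_le_div_of_nonneg_right ?_ hk0.le
            refine mul_le_mul_of_nonneg_left ?_ (by norm_num)
            exact mul_le_mul_of_nonneg_left s3 (by positivity)
      _ = (2 * (2 * C ^ 2 * M' * ((1 + 4 ^ (q - 1)) * k ^ (q - 1))) / k *
            (C * R / k) ^ (r - 2)) ^ r := (Real.mul_rpow (by positivity) (by positivity)).symm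
      _ = (2 * (2 * C ^ 2 * M' * (1 + 4 ^ (q - 1))) * (C * R) ^ (r - 2) * k ^ (-(r - q))) ^ r := by
            congr 1
            rw [Real.div_rpow (by positivity) hk0.le]
            have e : k ^ (-(r - q)) = k ^ (q - 1) / (k * k ^ (r - 2)) := by
              have : k * k ^ (r - 2) = k ^ (r - 1) := by
                rw [← Real.rpow_one_add' hk0.le (by linarith)]; congr 1; ring
              rw [this, ← Real.rpow_sub hk0]; congr 1; ring
            rw [e]
            field_simp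

theorem stamp_small (hD : Dir μ J q r) (M R : ℝ) {ε : ℝ} (hε : 0 < ε) :
    ∃ η > 0, ∀ w : H, ‖w‖ ≤ R → ‖J w‖ ≤ η →
      (∀ φ : H, 0 ≤ᵐ[μ] J φ → ⟪w, φ⟫_ℝ ≤ M * ∫ x, (1 + |J w x| ^ (q - 1)) * J φ x ∂μ) →
      ∀ᵐ x ∂μ, J w x ≤ ε := by
  have hq := hD.two_lt
  have hqr := hD.q_lt
  have hr0 : 0 < r := by linarith
  obtain ⟨C, hC, hsob⟩ := hD.sob
  set M' := |M| with hM'
  have hM0 : 0 ≤ M' := abs_nonneg M
  set k : ℝ := ε / 2 with hk
  have hk0 : 0 < k := by positivity
  have hp : 0 < 1 - q / r := by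
    have : q / r < 1 := (div_lt_one hr0).2 hqr
    linarith
  have l1 : Tendsto (fun t : ℝ => M' * 2 ^ (q - 1) * (C * |R|) ^ (q - 2) * C ^ 2 *
      t ^ (1 - q / r)) (𝓝 0) (𝓝 0) := by
    have t2 : Tendsto (fun t : ℝ => t ^ (1 - q / r)) (𝓝 0) (𝓝 0) := by
      have := (tendsto_id (α := ℝ) (x := 𝓝 0)).rpow_const (p := 1 - q / r) (Or.inr hp.le)
      rwa [Real.zero_rpow hp.ne'] at this
    simpa using t2.const_mul (M' * 2 ^ (q - 1) * (C * |R|) ^ (q - 2) * C ^ 2)
  have l2 : Tendsto (fun t : ℝ =>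
      (2 * (2 * C ^ 2 * M' * (1 + 2 ^ (q - 1) * (k + k) ^ (q - 1))) / k) ^ r * t ^ (r - 2))
      (𝓝 0) (𝓝 0) := by
    have t2 : Tendsto (fun t : ℝ => t ^ (r - 2)) (𝓝 0) (𝓝 0) := by
      have := (tendsto_id (α := ℝ) (x := 𝓝 0)).rpow_const (p := r - 2) (Or.inr (by linarith))
      rwa [Real.zero_rpow (by linarith)] at this
    simpa using t2.const_mul
      ((2 * (2 * C ^ 2 * M' * (1 + 2 ^ (q - 1) * (k + k) ^ (q - 1))) / k) ^ r)
  have hρ0 : (0 : ℝ) < 2 ^ (- (r / (r - 2))) := by positivity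
  have hev : ∀ᶠ t : ℝ in 𝓝[>] 0, 0 < t ∧ M' * 2 ^ (q - 1) * (C * |R|) ^ (q - 2) * C ^ 2 *
      t ^ (1 - q / r) < 1 / 2 ∧
      (2 * (2 * C ^ 2 * M' * (1 + 2 ^ (q - 1) * (k + k) ^ (q - 1))) / k) ^ r * t ^ (r - 2)
        < 2 ^ (- (r / (r - 2))) := by
    refine Filter.Eventually.and self_mem_nhdsWithin (Filter.Eventually.and ?_ ?_)
    · exact (l1.eventually_lt_const (by norm_num : (0 : ℝ) < 1 / 2)).filter_mono nhdsWithin_le_nhds
    · exact (l2.eventually_lt_const hρ0).filter_mono nhdsWithin_le_nhds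
  obtain ⟨δ, hδ0, hδ1, hδ2⟩ := hev.exists
  refine ⟨k * Real.sqrt δ, by positivity, ?_⟩
  intro w hwR hwη hw
  have hw' := w1_abs hw
  have hA : μ.real {x | k < J w x} ≤ δ := by
    have hmem : MemLp (J w) 2 μ := Lp.memLp (J w)
    have hint : Integrable (fun x => (J w x) ^ 2) μ := hmem.integrable_sq
    have h5 := mul_meas_ge_le_integral_of_nonneg (μ := μ)
      (Eventually.of_forall fun x => sq_nonneg (J w x)) hint (k ^ 2)
    have h6 : ∫ x, (J w x) ^ 2 ∂μ = ‖J w‖ ^ 2 := by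
      have := real_inner_self_eq_norm_sq (J w)
      rw [← this, L2.inner_def]
      refine integral_congr_ae ?_
      filter_upwards with x
      simp [sq]
    have h7 : k ^ 2 * μ.real {x | k < J w x} ≤ ‖J w‖ ^ 2 := by
      rw [← h6]
      refine le_trans (mul_le_mul_of_nonneg_left ?_ (by positivity)) h5
      refine measureReal_mono ?_ (measure_ne_top _ _)
      intro x hx
      have hx' : k < J w x := hx
      show k ^ 2 ≤ J w x ^ 2
      exact pow_le_pow_left₀ hk0.le hx'.le 2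
    have h8 : ‖J w‖ ^ 2 ≤ k ^ 2 * δ := by
      have := pow_le_pow_left₀ (norm_nonneg _) hwη 2
      rwa [mul_pow, Real.sq_sqrt hδ0.le] at this
    exact le_of_mul_le_mul_left (h7.trans h8) (by positivity)
  have hk2 : k + k = ε := by rw [hk]; ring
  have := w1_core hD hC hsob hM0 (hwR.trans (le_abs_self R)) hw' hk0.le hk0 ?_ ?_
  · rwa [hk2] at this
  · refine le_trans (mul_le_mul_of_nonneg_left ?_ (by positivity)) hδ1.le
    exact Real.rpow_le_rpow measureReal_nonneg hA hp.le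
  · refine le_trans (mul_le_mul_of_nonneg_left ?_ (by positivity)) hδ2.le
    exact Real.rpow_le_rpow measureReal_nonneg hA (by linarith)


end Pool.Agent.Helper420.QI.W1
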